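import Pool.Agent.P.MP_f981b0_an.R1.Kernel

/-! The Cauchy-Pompeiu formula for `C¹` functions that vanish at infinity. -/

open MeasureTheory Metric Set Real Complex

namespace Pool.Agent.P.MP_f981b0_an.R1

/-- The Cauchy-Riemann operator. -/
noncomputable def dbar (g : ℂ → ℂ) (z : ℂ) : ℂ :=
  (1 / 2 : ℂ) * (fderiv ℝ g z 1 + I * fderiv ℝ g z I)

/-- `e^{iθ}` written with cosine and sine. -/
noncomputable def ee (θ : ℝ) : ℂ := (Real.cos θ : ℂ) + (Real.sin θ : ℂ) * I

lemma continuous_ee : Continuous ee := by unfold ee; fun_prop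

lemma norm_ee (θ : ℝ) : ‖ee θ‖ = 1 := by
  have : ee θ = Complex.exp (θ * I) := by
    rw [Complex.exp_mul_I]; simp [ee]
  rw [this, Complex.norm_exp_ofReal_mul_I]

lemma hasDerivAt_ee (θ : ℝ) : HasDerivAt ee (I * ee θ) θ := by
  have h1 := (Real.hasDerivAt_cos θ).ofReal_comp
  have h2 := ((Real.hasDerivAt_sin θ).ofReal_comp).mul_const I
  have h := h1.add h2
  have e : I * ee θ = ((-Real.sin θ : ℝ) : ℂ) + (Real.cos θ : ℂ) * I := by
    simp only [ee]
    push_cast
    linear_combination (Complex.sin θ) * I_mul_I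
  rw [e]
  exact h

lemma lin_polar (D : ℂ →L[ℝ] ℂ) (θ : ℝ) :
    (1 / 2 : ℂ) * (D 1 + I * D I) / ee θ =
      (1 / 2 : ℂ) * D (ee θ) + (I / 2) * D (I * ee θ) := by
  have hne : ee θ ≠ 0 := by
    intro h; have := norm_ee θ; rw [h] at this; simp at this
  have h1 : ee θ = (Real.cos θ) • (1 : ℂ) + (Real.sin θ) • I := by simp [ee]
  have h2 : I * ee θ = (-Real.sin θ) • (1 : ℂ) + (Real.cos θ) • I := by
    simp only [ee, real_smul]
    push_cast
    linear_combination (Complex.sin θ) * I_mul_I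
  have h3 : D (ee θ) = (Real.cos θ : ℂ) * D 1 + (Real.sin θ : ℂ) * D I := by
    rw [h1, map_add, map_smul, map_smul]; simp
  have h4 : D (I * ee θ) = -(Real.sin θ : ℂ) * D 1 + (Real.cos θ : ℂ) * D I := by
    rw [h2, map_add, map_smul, map_smul]; simp
  rw [div_eq_iff hne, h3, h4]
  have h5 : (Real.cos θ : ℂ) ^ 2 + (Real.sin θ : ℂ) ^ 2 = 1 := by
    exact_mod_cast Real.cos_sq_add_sin_sq θ
  simp only [ee]
  linear_combination (-(1 / 2) * (D 1 + I * D I)) * h5 +
    ((1 / 2) * (Real.sin θ : ℂ) ^ 2 * D 1 - (1 / 2) * (Real.cos θ : ℂ) * (Real.sin θ : ℂ) * D I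
      + (1 / 2) * (Real.cos θ : ℂ) * (Real.sin θ : ℂ) * D I * 0) * I_mul_I

/-- Cauchy-Pompeiu on a large disc. -/
lemma pompeiu_disc {g : ℂ → ℂ} (hg : ContDiff ℝ 1 g) (w : ℂ) {R : ℝ} (hR : 0 < R)
    (h0 : ∀ z, R ≤ ‖z - w‖ → dbar g z = 0) :
    ∫ z, dbar g z / (z - w) = (1 / 2 : ℂ) * (∫ θ in (-π)..π, g (w + R * ee θ)) - π * g w := by
  have hd : Differentiable ℝ g := hg.differentiable one_ne_zero
  have hc : Continuous (fderiv ℝ g) := hg.continuous_fderiv one_ne_zero
  set A : ℝ × ℝ → ℂ := fun p => (1 / 2 : ℂ) * fderiv ℝ g (w + p.1 * ee p.2) (ee p.2) with hA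
  set B : ℝ × ℝ → ℂ := fun p => (I / 2) * fderiv ℝ g (w + p.1 * ee p.2) (I * ee p.2) with hB
  have cee := continuous_ee
  have cA : Continuous A := by
    refine continuous_const.mul (Continuous.clm_apply (hc.comp ?_) ?_) <;> fun_prop
  have cB : Continuous B := by
    refine continuous_const.mul (Continuous.clm_apply (hc.comp ?_) ?_) <;> fun_prop
  have hint : ∀ F : ℝ × ℝ → ℂ, Continuous F →
      IntegrableOn F (Ioo 0 R ×ˢ Ioo (-π) π) (volume.prod volume) := fun F hF =>
    (hF.continuousOn.integrableOn_compact (isCompact_Icc.prod isCompact_Icc)).mono_set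
      (prod_mono Ioo_subset_Icc_self Ioo_subset_Icc_self)
  have s1 : ∫ z, dbar g z / (z - w) = ∫ z, dbar g (w + z) / z := by
    rw [← integral_add_left_eq_self (fun z => dbar g z / (z - w)) w]
    simp
  have s2 : ∫ z, dbar g (w + z) / z = ∫ p in Ioo 0 R ×ˢ Ioo (-π) π, (A p + B p) := by
    rw [← Complex.integral_comp_polarCoord_symm, polarCoord_target]
    have e1 : ∫ p in Ioi (0 : ℝ) ×ˢ Ioo (-π) π,
        p.1 • (dbar g (w + Complex.polarCoord.symm p) / Complex.polarCoord.symm p) =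
        ∫ p in Ioo (0 : ℝ) R ×ˢ Ioo (-π) π,
        p.1 • (dbar g (w + Complex.polarCoord.symm p) / Complex.polarCoord.symm p) := by
      refine setIntegral_eq_of_subset_of_forall_sdiff_eq_zero
        (measurableSet_Ioi.prod measurableSet_Ioo) (prod_mono Ioo_subset_Ioi_self le_rfl) ?_
      rintro p ⟨⟨hp1, hp2⟩, hp3⟩
      have : R ≤ p.1 := by
        by_contra hlt
        exact hp3 ⟨⟨hp1, not_le.1 hlt⟩, hp2⟩
      rw [h0, zero_div, smul_zero]
      rw [add_sub_cancel_left, Complex.norm_polarCoord_symm]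
      exact this.trans (le_abs_self _)
    rw [e1]
    refine setIntegral_congr_fun (measurableSet_Ioo.prod measurableSet_Ioo) ?_
    rintro p ⟨hp1, -⟩
    have hp : (p.1 : ℂ) ≠ 0 := by exact_mod_cast hp1.1.ne'
    have e2 : Complex.polarCoord.symm p = p.1 * ee p.2 := by
      rw [Complex.polarCoord_symm_apply]; rfl
    simp only [hA, hB]
    rw [e2, ← lin_polar, real_smul, dbar]
    field_simp
  have s3 : ∫ p in Ioo 0 R ×ˢ Ioo (-π) π, B p = 0 := by
    rw [Measure.volume_eq_prod, setIntegral_prod _ (hint B cB)]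
    refine setIntegral_eq_zero_of_forall_eq_zero fun r hr => ?_
    have hr' : (r : ℂ) ≠ 0 := by exact_mod_cast hr.1.ne'
    have hder : ∀ θ : ℝ, HasDerivAt (fun θ : ℝ => I / (2 * r) * g (w + r * ee θ)) (B (r, θ)) θ := by
      intro θ
      have h1 : HasDerivAt (fun θ : ℝ => w + r * ee θ) (r * (I * ee θ)) θ :=
        ((hasDerivAt_ee θ).const_mul (r : ℂ)).const_add w
      have h2 := ((hd (w + r * ee θ)).hasFDerivAt.comp_hasDerivAt θ h1).const_mul (I / (2 * r))
      have e : B (r, θ) = I / (2 * r) * fderiv ℝ g (w + r * ee θ) (r * (I * ee θ)) := by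
        simp only [hB]
        rw [← real_smul (x := r) (z := I * ee θ), map_smul, real_smul]
        field_simp
      rw [e]
      exact h2
    rw [← integral_Ioc_eq_integral_Ioo, ← intervalIntegral.integral_of_le (by linarith [pi_pos]),
      intervalIntegral.integral_eq_sub_of_hasDerivAt (fun θ _ => hder θ)
        ((cB.comp (by fun_prop)).intervalIntegrable _ _)]
    simp [ee]
  have s4 : ∫ p in Ioo 0 R ×ˢ Ioo (-π) π, A p =
      (1 / 2 : ℂ) * (∫ θ in (-π)..π, g (w + R * ee θ)) - π * g w := by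
    have hI := hint A cA
    rw [IntegrableOn, ← Measure.prod_restrict] at hI
    rw [Measure.volume_eq_prod, ← Measure.prod_restrict, integral_prod_symm _ hI]
    have hin : ∀ θ : ℝ, ∫ r in Ioo 0 R, A (r, θ) =
        (1 / 2 : ℂ) * g (w + R * ee θ) - (1 / 2 : ℂ) * g w := by
      intro θ
      have hder : ∀ r : ℝ, HasDerivAt (fun r : ℝ => (1 / 2 : ℂ) * g (w + r * ee θ))
          (A (r, θ)) r := by
        intro r
        have h1 : HasDerivAt (fun r : ℝ => w + r * ee θ) (ee θ) r := by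
          simpa using (((hasDerivAt_id r).ofReal_comp).mul_const (ee θ)).const_add w
        exact ((hd (w + r * ee θ)).hasFDerivAt.comp_hasDerivAt r h1).const_mul (1 / 2 : ℂ)
      rw [← integral_Ioc_eq_integral_Ioo, ← intervalIntegral.integral_of_le hR.le,
        intervalIntegral.integral_eq_sub_of_hasDerivAt (fun r _ => hder r)
          ((cA.comp (by fun_prop)).intervalIntegrable _ _)]
      simp
    simp_rw [hin]
    have cg : Continuous g := hg.continuous
    rw [← integral_Ioc_eq_integral_Ioo, ← intervalIntegral.integral_of_le (by linarith [pi_pos]),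
      intervalIntegral.integral_sub ((by fun_prop : Continuous _).intervalIntegrable _ _)
        ((by fun_prop : Continuous _).intervalIntegrable _ _),
      intervalIntegral.integral_const_mul, intervalIntegral.integral_const]
    simp only [real_smul]
    push_cast
    ring
  have s5 : ∫ p in Ioo 0 R ×ˢ Ioo (-π) π, (A p + B p) =
      (∫ p in Ioo 0 R ×ˢ Ioo (-π) π, A p) + ∫ p in Ioo 0 R ×ˢ Ioo (-π) π, B p :=
    integral_add (hint A cA) (hint B cB)
  rw [s1, s2, s5, s3, s4, add_zero]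

/-- Cauchy-Pompeiu for a `C¹` function which is holomorphic near infinity and `O(1/|z|)`. -/
theorem pompeiu {g : ℂ → ℂ} (hg : ContDiff ℝ 1 g) {R₀ C : ℝ}
    (h0 : ∀ z, R₀ ≤ ‖z‖ → dbar g z = 0) (hdec : ∀ z, R₀ ≤ ‖z‖ → ‖g z‖ ≤ C / ‖z‖) (w : ℂ) :
    cauchy (dbar g) w = -(π * g w) := by
  have key : ∀ S : ℝ, 0 < S → R₀ ≤ S → ‖cauchy (dbar g) w + π * g w‖ ≤ π * |C| / S := by
    intro S hS hS0
    have hR : 0 < S + ‖w‖ := by positivity
    have h1 := pompeiu_disc hg w hR (fun z hz => h0 z (by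
      have := norm_sub_le z w
      linarith))
    rw [cauchy, h1, sub_add_cancel, norm_mul]
    have h2 : ‖∫ θ in (-π)..π, g (w + (S + ‖w‖ : ℝ) * ee θ)‖ ≤ (|C| / S) * |π - -π| := by
      refine intervalIntegral.norm_integral_le_of_norm_le_const fun θ _ => ?_
      have h3 : S ≤ ‖w + (S + ‖w‖ : ℝ) * ee θ‖ := by
        have h4 : ‖((S + ‖w‖ : ℝ) : ℂ) * ee θ‖ = S + ‖w‖ := by
          rw [norm_mul, norm_ee, mul_one, Complex.norm_real, Real.norm_of_nonneg hR.le]
        have h5 := norm_sub_le (w + (S + ‖w‖ : ℝ) * ee θ) w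
        rw [add_sub_cancel_left, h4] at h5
        linarith
      refine (hdec _ (hS0.trans h3)).trans ?_
      calc C / ‖w + (S + ‖w‖ : ℝ) * ee θ‖ ≤ |C| / ‖w + (S + ‖w‖ : ℝ) * ee θ‖ :=
            div_le_div_of_nonneg_right (le_abs_self C) (norm_nonneg _)
        _ ≤ |C| / S := div_le_div_of_nonneg_left (abs_nonneg C) hS h3
    rw [abs_of_pos (a := π - -π) (by linarith [pi_pos])] at h2
    have h6 : ‖(1 / 2 : ℂ)‖ = 1 / 2 := by simp
    rw [h6]
    calc 1 / 2 * ‖∫ θ in (-π)..π, g (w + (S + ‖w‖ : ℝ) * ee θ)‖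
        ≤ 1 / 2 * (|C| / S * (π - -π)) := by gcongr
      _ = π * |C| / S := by ring
  have ht : Filter.Tendsto (fun S : ℝ => π * |C| / S) Filter.atTop (nhds 0) :=
    Filter.Tendsto.div_atTop tendsto_const_nhds Filter.tendsto_id
  have hle : ‖cauchy (dbar g) w + π * g w‖ ≤ 0 := by
    refine ge_of_tendsto ht ?_
    filter_upwards [Filter.eventually_gt_atTop 0, Filter.eventually_ge_atTop R₀] with S h1 h2
    exact key S h1 h2
  exact eq_neg_of_add_eq_zero_left (norm_le_zero_iff.1 hle)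

end Pool.Agent.P.MP_f981b0_an.R1
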