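import Mathlib

open Metric Set Filter Topology MeasureTheory

namespace Pool.Agent.P.MP_f981b0_an.R1

/-- scale: `tt (j+1) = tt j ^ 2`; light discs have radius about `tt j ^ 4`, jumps `tt j ^ 3`. -/
noncomputable def tt (j : ℕ) : ℝ := (1 / 2) ^ (2 ^ j)

lemma tt_pos (j : ℕ) : 0 < tt j := by unfold tt; positivity

lemma tt_succ (j : ℕ) : tt (j + 1) = tt j ^ 2 := by
  unfold tt; rw [← pow_mul, pow_succ]

lemma tt_le_pow (j : ℕ) : tt j ≤ (1 / 2) ^ (j + 1) := by
  unfold tt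
  exact pow_le_pow_of_le_one (by norm_num) (by norm_num) (Nat.lt_two_pow_self)

lemma tt_le_half (j : ℕ) : tt j ≤ 1 / 2 := by
  refine (tt_le_pow j).trans ?_
  calc ((1 : ℝ) / 2) ^ (j + 1) ≤ (1 / 2) ^ 1 :=
        pow_le_pow_of_le_one (by norm_num) (by norm_num) (by omega)
    _ = 1 / 2 := pow_one _

lemma tt_le_one (j : ℕ) : tt j ≤ 1 := (tt_le_half j).trans (by norm_num)

lemma tt_anti : Antitone tt := by
  intro i j hij
  unfold tt
  exact pow_le_pow_of_le_one (by norm_num) (by norm_num) (Nat.pow_le_pow_right (by norm_num) hij)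

lemma tendsto_tt : Tendsto tt atTop (𝓝 0) := by
  have h : Tendsto (fun j : ℕ => ((1 : ℝ) / 2) ^ (j + 1)) atTop (𝓝 0) :=
    (tendsto_pow_atTop_nhds_zero_of_lt_one (by norm_num) (by norm_num)).comp
      (tendsto_add_atTop_nat 1)
  exact squeeze_zero (fun j => (tt_pos j).le) tt_le_pow h

end Pool.Agent.P.MP_f981b0_an.R1
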