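import Mathlib

open Metric Set Filter Topology

namespace Pool.Agent.P.MP_f981b0_an.R1

/-- A several-point Schwarz estimate. -/
lemma multi (N : ℕ) (D : ℝ) (hD : 0 < D) : ∃ A : ℝ, 0 ≤ A ∧
    ∀ (f : ℂ → ℂ) (z : ℂ) (s l B M : ℝ) (x : ℕ → ℂ), DifferentiableOn ℂ f (ball z (2 * l)) →
      0 < s →
      2 * D * s ≤ l → 0 ≤ B → (∀ i < N, ‖x i - z‖ ≤ D * s) →
      (∀ i < N, ∀ i' < i, s ≤ ‖x i' - x i‖) → (∀ i < N, ‖f (x i)‖ ≤ B) →
      (∀ w ∈ sphere z l, ‖f w‖ ≤ M) → ‖f z‖ ≤ A * B + (2 * D * s / l) ^ N * M := by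
  induction N with
  | zero =>
    refine ⟨0, le_rfl, fun f z s l B M x hf hs hl _ _ _ _ hM => ?_⟩
    have hl0 : 0 < l := lt_of_lt_of_le (by positivity) hl
    have h := Complex.norm_le_of_forall_mem_frontier_norm_le (U := ball z l) isBounded_ball
      (hf.mono (by rw [closure_ball z hl0.ne']; exact closedBall_subset_ball (by linarith))
        ).diffContOnCl (C := M) (by rw [frontier_ball z hl0.ne']; exact hM) (z := z)
      (subset_closure (mem_ball_self hl0))
    simpa using h
  | succ N ih =>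
    obtain ⟨A, hA, ih⟩ := ih
    refine ⟨2 + 2 * D * A, by positivity, fun f z s l B M x hf hs hl hB hx hsep hfx hM => ?_⟩
    have hl0 : 0 < l := lt_of_lt_of_le (by positivity) hl
    have hM0 : 0 ≤ M := by
      have : z + l ∈ sphere z l := by simp [abs_of_pos hl0]
      exact (norm_nonneg _).trans (hM _ this)
    set a := x N with ha
    have key : ∀ w, ‖w - a‖ * ‖dslope f a w‖ = ‖f w - f a‖ := by
      intro w
      rw [← sub_smul_dslope f a w, norm_smul]
    have haz : ‖a - z‖ ≤ D * s := hx N (by omega)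
    have hfa : ‖f a‖ ≤ B := hfx N (by omega)
    have hg : DifferentiableOn ℂ (dslope f a) (ball z (2 * l)) := by
      refine (Complex.differentiableOn_dslope (isOpen_ball.mem_nhds ?_)).2 hf
      rw [mem_ball, dist_eq_norm]
      have : 0 < D * s := by positivity
      linarith
    have h1 : ∀ i < N, ‖dslope f a (x i)‖ ≤ 2 * B / s := by
      intro i hi
      have h2 := key (x i)
      have h3 : s ≤ ‖x i - a‖ := hsep N (by omega) i hi
      have h4 : ‖f (x i) - f a‖ ≤ 2 * B := by
        have := norm_sub_le (f (x i)) (f a)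
        have := hfx i (by omega)
        linarith
      rw [le_div_iff₀ hs]
      nlinarith [norm_nonneg (dslope f a (x i))]
    have h5 : ∀ w ∈ sphere z l, ‖dslope f a w‖ ≤ 2 * (M + B) / l := by
      intro w hw
      have h2 := key w
      have hwz : ‖w - z‖ = l := by simpa [dist_eq_norm] using hw
      have h3 : l / 2 ≤ ‖w - a‖ := by
        have : ‖w - z‖ ≤ ‖w - a‖ + ‖a - z‖ := norm_sub_le_norm_sub_add_norm_sub w a z
        linarith
      have h4 : ‖f w - f a‖ ≤ M + B := by
        have := norm_sub_le (f w) (f a)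
        have := hM w hw
        linarith
      rw [le_div_iff₀ hl0]
      nlinarith [norm_nonneg (dslope f a w)]
    have h6 := ih (dslope f a) z s l (2 * B / s) (2 * (M + B) / l) x hg hs hl (by positivity)
      (fun i hi => hx i (by omega)) (fun i hi i' hi' => hsep i (by omega) i' hi') h1 h5
    have h7 := key z
    have h8 : ‖f z‖ ≤ ‖f z - f a‖ + ‖f a‖ := by
      simpa using norm_add_le (f z - f a) (f a)
    have h9 : ‖z - a‖ ≤ D * s := by rw [norm_sub_rev]; exact haz
    have hk0 : 0 ≤ 2 * D * s / l := by positivity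
    have hk1 : 2 * D * s / l ≤ 1 := (div_le_one hl0).2 hl
    have hkN : (2 * D * s / l) ^ (N + 1) ≤ 1 := pow_le_one₀ hk0 hk1
    have h10 : ‖z - a‖ * ‖dslope f a z‖ ≤
        D * s * (A * (2 * B / s) + (2 * D * s / l) ^ N * (2 * (M + B) / l)) :=
      mul_le_mul h9 h6 (norm_nonneg _) (by positivity)
    have h11 : D * s * (A * (2 * B / s) + (2 * D * s / l) ^ N * (2 * (M + B) / l)) =
        2 * D * A * B + (2 * D * s / l) ^ (N + 1) * M + (2 * D * s / l) ^ (N + 1) * B := by
      rw [pow_succ]; field_simp; ring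
    have h12 : (2 * D * s / l) ^ (N + 1) * B ≤ B := by nlinarith
    nlinarith

end Pool.Agent.P.MP_f981b0_an.R1
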