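import Mathlib

set_option autoImplicit false

noncomputable section

namespace Pool.Agent.P.MP_f981b0_an.R1

open MeasureTheory Metric Set

/-- Cauchy transform with respect to area measure. -/
def cauchy (φ : ℂ → ℂ) (w : ℂ) : ℂ := ∫ z, φ z / (z - w)

/-- Bounded measurable functions vanishing outside the open unit disc. -/
structure Test (φ : ℂ → ℂ) : Prop where
  meas : Measurable φ
  bdd : ∃ B : ℝ, ∀ z, ‖φ z‖ ≤ B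
  supp : ∀ z, 1 ≤ ‖z‖ → φ z = 0

/-- Bounded analytic functions on the open unit disc. -/
structure Hinf (p : ℂ → ℂ) : Prop where
  diff : DifferentiableOn ℂ p (ball 0 1)
  bdd : ∃ B : ℝ, ∀ z ∈ ball (0 : ℂ) 1, ‖p z‖ ≤ B

/-- Alternative (II): bounded point evaluations near the origin. -/
def BPE (ρ : ℂ → ℝ) : Prop :=
  ∃ r0 C : ℝ, 0 < r0 ∧ r0 ≤ 1 ∧ ∀ p : ℂ → ℂ, Hinf p → ∀ w ∈ ball (0 : ℂ) r0,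
    ‖p w‖ ≤ C * ∫ z in ball (0 : ℂ) 1, ρ z * ‖p z‖

/-- Alternative (I): cheap test functions with bounded, non-degenerate Cauchy transform. -/
def Cheap (ρ : ℂ → ℝ) : Prop :=
  ∃ C c : ℝ, 0 < c ∧ ∀ ε : ℝ, 0 < ε → ∃ φ : ℂ → ℂ, Test φ ∧ (∀ w, ‖cauchy φ w‖ ≤ C) ∧
    c ≤ ‖cauchy φ 2‖ ∧ ∫ z in ball (0 : ℂ) 1, ρ z * ‖φ z‖ ≤ ε

/-- A route of cost `ε`: a connected set from `0` to a far point, covered by light discs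
`(x, r)` and jump discs `(c, a, M)`. -/
def Route (ρ : ℂ → ℝ) (ε : ℝ) : Prop :=
  ∃ (L : Finset (ℂ × ℝ)) (J : Finset (ℂ × ℝ × ℕ)) (R : Set ℂ) (b : ℂ),
    (∀ q ∈ L, 0 < q.2 ∧ ‖q.1‖ + 2 * q.2 < 1) ∧
    (∑ q ∈ L, q.2⁻¹ * ∫ z in ball q.1 (2 * q.2), ρ z) ≤ ε ∧
    (∀ q ∈ J, 0 < q.2.1 ∧ 0 < q.2.2 ∧ ‖q.1‖ + 2 * q.2.1 < 1) ∧
    (∑ q ∈ J, ((q.2.2 : ℝ))⁻¹) ≤ 1 ∧
    (∑ q ∈ J, 2 ^ q.2.2 * q.2.1) ≤ ε ∧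
    IsPreconnected R ∧ (0 : ℂ) ∈ R ∧ b ∈ R ∧ 1 / 2 ≤ ‖b‖ ∧
    R ⊆ (⋃ q ∈ L, ball q.1 q.2) ∪ ⋃ q ∈ J, ball q.1 q.2.1

end Pool.Agent.P.MP_f981b0_an.R1
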