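import Mathlib
import Pool.Agent.P.MP_f981b0_an.R1.BarDefs
import Pool.Agent.P.MP_f981b0_an.R1.Defs

open Metric Set Filter Topology MeasureTheory

namespace Pool.Agent.P.MP_f981b0_an.R1

/-- the point `y` is light at level `j` -/
def Light (ρ : ℂ → ℝ) (j : ℕ) (y : ℂ) : Prop :=
  ∫ z in ball y (11 * tt j ^ 4), ρ z ≤ (tt j ^ 4) ^ 4

/-- one step of a light chain at level `j` -/
def Step (ρ : ℂ → ℝ) (j : ℕ) (x y : ℂ) : Prop :=
  ‖x‖ ≤ 1 / 2 ∧ ‖x - y‖ ≤ tt j ^ 4 ∧ Light ρ j y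

/-- the growing sets of the colouring scheme started at level `k` -/
def WW (ρ : ℂ → ℝ) (k : ℕ) : ℕ → Set ℂ
  | 0 => {0}
  | n + 1 => {x | ∃ y ∈ WW ρ k n, ‖y‖ ≤ 1 / 2 ∧ ∃ g, ‖g - y‖ ≤ tt (k + n) ^ 3 ∧
      Relation.ReflTransGen (Step ρ (k + n + 1)) g x}

/-- the set carrying the route, before passing to lattice discs -/
def ZZ (ρ : ℂ → ℝ) (k n : ℕ) (c : ℕ → ℂ) : Set ℂ :=
  {z | ∃ j, k ≤ j ∧ j < k + n ∧ ((∃ y, Light ρ (j + 1) y ∧ ‖y‖ ≤ 1 / 2 + tt (j + 1) ^ 4 ∧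
    z ∈ closedBall y (tt (j + 1) ^ 4)) ∨ z ∈ closedBall (c j) (tt j ^ 3))}

lemma tt_pow_le (j e : ℕ) : tt j ^ e ≤ (1 / 2) ^ e :=
  pow_le_pow_left₀ (tt_pos j).le (tt_le_half j) e

lemma tt_cube_le (j : ℕ) : tt j ^ 3 ≤ 1 / 8 := (tt_pow_le j 3).trans (by norm_num)

lemma tt_succ_four_le (j : ℕ) : tt (j + 1) ^ 4 ≤ 1 / 256 := by
  rw [tt_succ, ← pow_mul]; exact (tt_pow_le j _).trans (by norm_num)

/-- `x` is joined to the origin inside `Z` -/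
def Jn (Z : Set ℂ) (x : ℂ) : Prop := x = 0 ∨ JoinedIn Z 0 x

lemma Jn.mono {Z Z' : Set ℂ} {x : ℂ} (h : Jn Z x) (hZ : Z ⊆ Z') : Jn Z' x :=
  h.imp_right fun h => h.mono hZ

lemma Jn.step {Z K : Set ℂ} {p q : ℂ} (h : Jn Z p) (hK : Convex ℝ K) (hKZ : K ⊆ Z)
    (hp : p ∈ K) (hq : q ∈ K) : Jn Z q := by
  have h1 : JoinedIn Z p q := ((hK.isPathConnected ⟨p, hp⟩).joinedIn p hp q hq).mono hKZ
  rcases h with rfl | h
  · exact Or.inr h1
  · exact Or.inr (h.trans h1)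

lemma route (ρ : ℂ → ℝ) (k n : ℕ) : ∀ x ∈ WW ρ k n, ∃ c : ℕ → ℂ, (∀ j, ‖c j‖ ≤ 1 / 2) ∧
    Jn (ZZ ρ k n c) x := by
  induction n with
  | zero =>
    intro x hx
    exact ⟨fun _ => 0, fun _ => by simp, Or.inl hx⟩
  | succ n ih =>
    rintro x ⟨y, hy, hy2, g, hg, hch⟩
    obtain ⟨c, hc, hgood⟩ := ih y hy
    refine ⟨Function.update c (k + n) y, fun j => ?_, ?_⟩
    · by_cases hj : j = k + n
      · subst hj; simpa using hy2
      · rw [Function.update_of_ne hj]; exact hc j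
    have hsub : ZZ ρ k n c ⊆ ZZ ρ k (n + 1) (Function.update c (k + n) y) := by
      rintro z ⟨j, h1, h2, h3⟩
      refine ⟨j, h1, by omega, ?_⟩
      rwa [Function.update_of_ne (by omega)]
    have hgg : Jn (ZZ ρ k (n + 1) (Function.update c (k + n) y)) g := by
      refine (hgood.mono hsub).step (convex_closedBall y (tt (k + n) ^ 3)) ?_
        (mem_closedBall_self (pow_pos (tt_pos _) 3).le) (by simpa [dist_eq_norm] using hg)
      intro z hz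
      exact ⟨k + n, by omega, by omega, Or.inr (by simpa using hz)⟩
    induction hch with
    | refl => exact hgg
    | @tail a b _ hab hga =>
      obtain ⟨ha, hab, hl⟩ := hab
      have hb : ‖b‖ ≤ 1 / 2 + tt (k + n + 1) ^ 4 := by
        have : ‖b‖ ≤ ‖a‖ + ‖a - b‖ := by simpa using norm_sub_le a (a - b)
        linarith
      refine hga.step (convex_closedBall b (tt (k + n + 1) ^ 4)) ?_
        (by simpa [dist_eq_norm] using hab) (mem_closedBall_self (pow_pos (tt_pos _) 4).le)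
      intro z hz
      exact ⟨k + n, by omega, by omega, Or.inl ⟨b, hl, hb, hz⟩⟩

lemma setIntegral_le_of_subset {ρ : ℂ → ℝ} (h0 : ∀ z, 0 ≤ ρ z) {A B : Set ℂ}
    (hi : IntegrableOn ρ B) (hAB : A ⊆ B) : ∫ z in A, ρ z ≤ ∫ z in B, ρ z :=
  setIntegral_mono_set hi (Eventually.of_forall h0) hAB.eventuallyLE

lemma ball_subset_unit {y : ℂ} {r : ℝ} (h : ‖y‖ + r ≤ 1) : ball y r ⊆ ball 0 1 :=
  ball_subset_ball' (by rw [dist_zero_right]; linarith)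

lemma lattice {ρ : ℂ → ℝ} (h0 : ∀ z, 0 ≤ ρ z) (hi : IntegrableOn ρ (ball (0 : ℂ) 1)) (j : ℕ) :
    ∃ Q : Finset (ℂ × ℝ), (∀ q ∈ Q, 0 < q.2 ∧ ‖q.1‖ + 2 * q.2 < 1) ∧
      (∑ q ∈ Q, q.2⁻¹ * ∫ z in ball q.1 (2 * q.2), ρ z) ≤ tt j - tt (j + 1) ∧
      ∀ y, Light ρ (j + 1) y → ‖y‖ ≤ 1 / 2 + tt (j + 1) ^ 4 →
        ∃ q ∈ Q, closedBall y (tt (j + 1) ^ 4) ⊆ ball q.1 q.2 := by
  classical
  set s := tt (j + 1) ^ 4 with hs
  have hs0 : 0 < s := pow_pos (tt_pos _) 4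
  have hs1 : s ≤ 1 / 256 := tt_succ_four_le j
  set N : ℕ := ⌊1 / s⌋₊ with hN
  set T : Finset (ℂ × ℝ) := (Finset.Icc (-(N : ℤ)) N ×ˢ Finset.Icc (-(N : ℤ)) N).image
    fun ab => ((⟨s * ab.1, s * ab.2⟩ : ℂ), 4 * s) with hT
  refine ⟨T.filter fun q => ‖q.1‖ ≤ 1 / 2 + 3 * s ∧ ∫ z in ball q.1 (8 * s), ρ z ≤ s ^ 4,
    ?_, ?_, ?_⟩
  · intro q hq
    obtain ⟨hq1, hq2, -⟩ := Finset.mem_filter.1 hq
    obtain ⟨ab, -, rfl⟩ := Finset.mem_image.1 hq1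
    refine ⟨by positivity, ?_⟩
    dsimp only at hq2 ⊢
    linarith
  · have hcard : (T.card : ℝ) ≤ (3 / s) ^ 2 := by
      have h1 : T.card ≤ (2 * N + 1) * (2 * N + 1) := by
        refine Finset.card_image_le.trans ?_
        rw [Finset.card_product, Int.card_Icc]
        have : ((N : ℤ) + 1 - -(N : ℤ)).toNat = 2 * N + 1 := by omega
        rw [this]
      have h2 : (N : ℝ) ≤ 1 / s := Nat.floor_le (by positivity)
      have h3 : (1 : ℝ) ≤ 1 / s := by rw [le_div_iff₀ hs0]; linarith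
      have h4 : (2 * N + 1 : ℝ) ≤ 3 / s := by
        have : 3 / s = 3 * (1 / s) := by ring
        linarith
      calc (T.card : ℝ) ≤ ((2 * N + 1) * (2 * N + 1) : ℕ) := by exact_mod_cast h1
        _ = (2 * N + 1 : ℝ) ^ 2 := by push_cast; ring
        _ ≤ (3 / s) ^ 2 := pow_le_pow_left₀ (by positivity) h4 2
    refine (Finset.sum_le_card_nsmul _ _ ((4 * s)⁻¹ * s ^ 4) ?_).trans ?_
    · intro q hq
      obtain ⟨hq1, -, hq3⟩ := Finset.mem_filter.1 hq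
      obtain ⟨ab, -, rfl⟩ := Finset.mem_image.1 hq1
      dsimp only at hq3 ⊢
      rw [show 2 * (4 * s) = 8 * s by ring]
      exact mul_le_mul_of_nonneg_left hq3 (by positivity)
    · rw [nsmul_eq_mul]
      have h5 : ((T.filter fun q => ‖q.1‖ ≤ 1 / 2 + 3 * s ∧
          ∫ z in ball q.1 (8 * s), ρ z ≤ s ^ 4).card : ℝ) ≤ (3 / s) ^ 2 :=
        le_trans (by exact_mod_cast Finset.card_filter_le _ _) hcard
      have h6 : (3 / s) ^ 2 * ((4 * s)⁻¹ * s ^ 4) = 9 / 4 * s := by field_simp; ring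
      have h7 : 9 / 4 * s ≤ tt j - tt (j + 1) := by
        have ht := tt_pos j
        have ht2 := tt_le_half j
        have h8 : s = tt j * tt j ^ 7 := by rw [hs, tt_succ]; ring
        have h9 : tt j ^ 7 ≤ (1 / 2) ^ 7 := tt_pow_le j 7
        rw [h8, tt_succ]
        nlinarith
      calc _ ≤ (3 / s) ^ 2 * ((4 * s)⁻¹ * s ^ 4) :=
            mul_le_mul_of_nonneg_right h5 (by positivity)
        _ ≤ _ := by rw [h6]; exact h7
  · intro y hl hy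
    have hfl : ∀ a : ℝ, |a| ≤ 1 / 2 + s →
        ⌊a / s⌋ ∈ Finset.Icc (-(N : ℤ)) N ∧ |a - s * ⌊a / s⌋| ≤ s := by
      intro a ha
      rw [abs_le] at ha
      have h1 : (⌊a / s⌋ : ℝ) ≤ a / s := Int.floor_le _
      have h2 : a / s < ⌊a / s⌋ + 1 := Int.lt_floor_add_one _
      have h3 : 1 / s < N + 1 := Nat.lt_floor_add_one _
      rw [le_div_iff₀ hs0] at h1
      rw [div_lt_iff₀ hs0] at h2 h3
      refine ⟨Finset.mem_Icc.2 ⟨?_, ?_⟩, abs_le.2 ⟨by nlinarith, by nlinarith⟩⟩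
      · have : (-(N : ℝ) - 1) * s < (⌊a / s⌋ : ℝ) * s := by nlinarith
        have := lt_of_mul_lt_mul_right this hs0.le
        have : -(N : ℤ) - 1 < ⌊a / s⌋ := by exact_mod_cast this
        omega
      · have : (⌊a / s⌋ : ℝ) * s < ((N : ℝ) + 1) * s := by nlinarith
        have := lt_of_mul_lt_mul_right this hs0.le
        have : ⌊a / s⌋ < (N : ℤ) + 1 := by exact_mod_cast this
        omega
    obtain ⟨ha1, ha2⟩ := hfl y.re ((Complex.abs_re_le_norm y).trans hy)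
    obtain ⟨hb1, hb2⟩ := hfl y.im ((Complex.abs_im_le_norm y).trans hy)
    set x : ℂ := ⟨s * ⌊y.re / s⌋, s * ⌊y.im / s⌋⟩ with hx
    have hxy : ‖y - x‖ ≤ 2 * s := by
      refine (Complex.norm_le_abs_re_add_abs_im _).trans ?_
      simp only [hx, Complex.sub_re, Complex.sub_im]
      linarith
    refine ⟨(x, 4 * s), Finset.mem_filter.2 ⟨Finset.mem_image.2
      ⟨(⌊y.re / s⌋, ⌊y.im / s⌋), Finset.mem_product.2 ⟨ha1, hb1⟩, rfl⟩, ?_, ?_⟩, ?_⟩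
    · have : ‖x‖ ≤ ‖y‖ + ‖y - x‖ := by simpa using norm_sub_le y (y - x)
      dsimp only
      linarith
    · refine le_trans (setIntegral_le_of_subset h0 (hi.mono_set (ball_subset_unit ?_)) ?_) hl
      · linarith
      · refine ball_subset_ball' ?_
        rw [dist_comm, dist_eq_norm]
        dsimp only
        linarith
    · refine closedBall_subset_ball' ?_
      rw [dist_eq_norm]
      dsimp only
      linarith

lemma lattice_all {ρ : ℂ → ℝ} (h0 : ∀ z, 0 ≤ ρ z) (hi : IntegrableOn ρ (ball (0 : ℂ) 1))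
    (k n : ℕ) : ∃ P : Finset (ℂ × ℝ), (∀ q ∈ P, 0 < q.2 ∧ ‖q.1‖ + 2 * q.2 < 1) ∧
      (∑ q ∈ P, q.2⁻¹ * ∫ z in ball q.1 (2 * q.2), ρ z) ≤ tt k - tt (k + n) ∧
      ∀ j, k ≤ j → j < k + n → ∀ y, Light ρ (j + 1) y → ‖y‖ ≤ 1 / 2 + tt (j + 1) ^ 4 →
        ∃ q ∈ P, closedBall y (tt (j + 1) ^ 4) ⊆ ball q.1 q.2 := by
  classical
  induction n with
  | zero => exact ⟨∅, by simp, by simp, fun j h1 h2 => by omega⟩
  | succ n ih =>
    obtain ⟨P, hP1, hP2, hP3⟩ := ih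
    obtain ⟨Q, hQ1, hQ2, hQ3⟩ := lattice h0 hi (k + n)
    have hPQ : ∀ q ∈ P ∪ Q, 0 < q.2 ∧ ‖q.1‖ + 2 * q.2 < 1 := fun q hq =>
      (Finset.mem_union.1 hq).elim (hP1 q) (hQ1 q)
    refine ⟨P ∪ Q, hPQ, ?_, ?_⟩
    · have h1 := Finset.sum_union_inter (s₁ := P) (s₂ := Q)
        (f := fun q => q.2⁻¹ * ∫ z in ball q.1 (2 * q.2), ρ z)
      have h2 : 0 ≤ ∑ q ∈ P ∩ Q, q.2⁻¹ * ∫ z in ball q.1 (2 * q.2), ρ z :=
        Finset.sum_nonneg fun q hq => mul_nonneg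
          (inv_nonneg.2 (hP1 q (Finset.mem_inter.1 hq).1).1.le) (integral_nonneg h0)
      rw [← add_assoc]
      linarith
    · intro j h1 h2 y hy1 hy2
      by_cases hj : j < k + n
      · obtain ⟨q, hq, hsub⟩ := hP3 j h1 hj y hy1 hy2
        exact ⟨q, Finset.mem_union_left _ hq, hsub⟩
      · obtain rfl : j = k + n := by omega
        obtain ⟨q, hq, hsub⟩ := hQ3 y hy1 hy2
        exact ⟨q, Finset.mem_union_right _ hq, hsub⟩

lemma sum_Ico_le_of_tele {f g : ℕ → ℝ} (h : ∀ j, f j ≤ g j - g (j + 1)) (k n : ℕ) :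
    ∑ j ∈ Finset.Ico k (k + n), f j ≤ g k - g (k + n) := by
  induction n with
  | zero => simp
  | succ n ih =>
    rw [← add_assoc, Finset.sum_Ico_succ_top (by omega)]
    linarith [h (k + n)]

/-- the failure case -/
lemma failure {ρ : ℂ → ℝ} (h0 : ∀ z, 0 ≤ ρ z) (hi : IntegrableOn ρ (ball (0 : ℂ) 1))
    {k n : ℕ} (hk : 1 ≤ k) {x : ℂ} (hx : x ∈ WW ρ k n) (hx2 : 1 / 2 < ‖x‖) {ε : ℝ}
    (hε : 2 * tt k ≤ ε) : Route ρ ε := by
  classical
  obtain ⟨c, hc, hJ⟩ := route ρ k n x hx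
  obtain ⟨P, hP1, hP2, hP3⟩ := lattice_all h0 hi k n
  have hJ' : JoinedIn (ZZ ρ k n c) 0 x := hJ.resolve_left (by rintro rfl; norm_num at hx2)
  obtain ⟨γ, hγ⟩ := hJ'
  have hinj : Set.InjOn (fun j : ℕ => ((c j, 2 * tt j ^ 3, 2 ^ j) : ℂ × ℝ × ℕ))
      (Finset.Ico k (k + n) : Finset ℕ) := by
    intro i _ j _ hij
    exact Nat.pow_right_injective le_rfl (congrArg (fun q : ℂ × ℝ × ℕ => q.2.2) hij)
  refine ⟨P, (Finset.Ico k (k + n)).image fun j => (c j, 2 * tt j ^ 3, 2 ^ j), range γ, x, hP1,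
    by linarith [tt_pos (k + n), tt_pos k], ?_, ?_, ?_, isPreconnected_range γ.continuous,
    ⟨0, γ.source⟩, ⟨1, γ.target⟩, hx2.le, ?_⟩
  · intro q hq
    obtain ⟨j, hj, rfl⟩ := Finset.mem_image.1 hq
    have h1 := tt_pos j
    have h2 : tt j ≤ 1 / 4 := by
      refine (tt_anti (hk.trans (Finset.mem_Ico.1 hj).1)).trans ?_
      norm_num [tt]
    have h3 : tt j ^ 3 ≤ (1 / 4) ^ 3 := pow_le_pow_left₀ h1.le h2 3
    refine ⟨by positivity, by positivity, ?_⟩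
    dsimp only
    linarith [hc j]
  · rw [Finset.sum_image hinj]
    have h1 := sum_Ico_le_of_tele (f := fun j => (((2 ^ j : ℕ) : ℝ))⁻¹)
      (g := fun j => 2 * (1 / 2) ^ j) (fun j => by push_cast; rw [pow_succ, one_div, inv_pow]; linarith)
      k n
    have h2 : ((1 : ℝ) / 2) ^ k ≤ (1 / 2) ^ 1 := pow_le_pow_of_le_one (by norm_num) (by norm_num) hk
    have h3 : (0 : ℝ) ≤ (1 / 2) ^ (k + n) := by positivity
    dsimp only at h1 ⊢
    linarith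
  · rw [Finset.sum_image hinj]
    have h1 := sum_Ico_le_of_tele (f := fun j => (2 : ℝ) ^ (2 ^ j) * (2 * tt j ^ 3))
      (g := fun j => 2 * tt j) (fun j => by
        have h4 : (2 : ℝ) ^ (2 ^ j) * tt j = 1 := by
          unfold tt; rw [← mul_pow]; norm_num
        have h5 : (2 : ℝ) ^ (2 ^ j) * (2 * tt j ^ 3) = 2 * tt j ^ 2 := by
          linear_combination (2 * tt j ^ 2) * h4
        rw [h5, tt_succ]
        nlinarith [tt_pos j, tt_le_half j]) k n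
    dsimp only at h1 ⊢
    linarith [tt_pos (k + n)]
  · rintro z ⟨τ, rfl⟩
    obtain ⟨j, h1, h2, h3⟩ := hγ τ
    simp only [mem_union, mem_iUnion, exists_prop]
    rcases h3 with ⟨y, hy1, hy2, hy3⟩ | h3
    · obtain ⟨q, hq, hsub⟩ := hP3 j h1 h2 y hy1 hy2
      exact Or.inl ⟨q, hq, hsub hy3⟩
    · refine Or.inr ⟨_, Finset.mem_image.2 ⟨j, Finset.mem_Ico.2 ⟨h1, h2⟩, rfl⟩, ?_⟩
      exact closedBall_subset_ball (by linarith [pow_pos (tt_pos j) 3]) h3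

end Pool.Agent.P.MP_f981b0_an.R1
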