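import Mathlib
import Pool.Agent.P.MP_f981b0_an.R1.BarScheme
import Pool.Agent.P.MP_f981b0_an.R1.BarMulti

open Metric Set Filter Topology MeasureTheory

namespace Pool.Agent.P.MP_f981b0_an.R1

/-- the jump neighbourhood of the `n`-th set -/
def GG (ρ : ℂ → ℝ) (k n : ℕ) : Set ℂ := {g | ∃ y ∈ WW ρ k n, ‖g - y‖ ≤ tt (k + n) ^ 3}

section NoFail

variable {ρ : ℂ → ℝ} {k : ℕ} (hnf : ∀ n, ∀ x ∈ WW ρ k n, ‖x‖ ≤ 1 / 2)
include hnf

lemma GG_subset (n : ℕ) : GG ρ k n ⊆ WW ρ k (n + 1) := by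
  rintro g ⟨y, hy, hg⟩
  exact ⟨y, hy, hnf n y hy, g, hg, .refl⟩

omit hnf in
lemma WW_subset_GG (n : ℕ) : WW ρ k n ⊆ GG ρ k n := fun y hy =>
  ⟨y, hy, by simpa using (pow_pos (tt_pos _) 3).le⟩

omit hnf in
lemma closedBall_subset_GG {n : ℕ} {y : ℂ} (hy : y ∈ WW ρ k n) :
    closedBall y (tt (k + n) ^ 3) ⊆ GG ρ k n := fun _ hz =>
  ⟨y, hy, by simpa [dist_eq_norm] using hz⟩

lemma WW_mono : Monotone (WW ρ k) :=
  monotone_nat_of_le_succ fun n => (WW_subset_GG n).trans (GG_subset hnf n)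

lemma zero_mem_WW (n : ℕ) : (0 : ℂ) ∈ WW ρ k n := WW_mono hnf (Nat.zero_le n) rfl

lemma WW_step {n : ℕ} {x y : ℂ} (hx : x ∈ WW ρ k (n + 1)) (hxy : ‖x - y‖ ≤ tt (k + n + 1) ^ 4)
    (hl : Light ρ (k + n + 1) y) : y ∈ WW ρ k (n + 1) := by
  have h2 := hnf _ x hx
  obtain ⟨y0, hy0, h3, g, hg, hch⟩ := hx
  exact ⟨y0, hy0, h3, g, hg, hch.tail ⟨h2, hxy, hl⟩⟩

omit hnf in
lemma joinedIn_GG {n : ℕ} {y a : ℂ} (hy : y ∈ WW ρ k n) (ha : ‖a - y‖ ≤ tt (k + n) ^ 3) :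
    JoinedIn (GG ρ k n) y a := by
  have h0 : (0 : ℝ) ≤ tt (k + n) ^ 3 := (pow_pos (tt_pos _) 3).le
  have h := (convex_closedBall y (tt (k + n) ^ 3)).isPathConnected ⟨y, mem_closedBall_self h0⟩
  exact (h.joinedIn y (mem_closedBall_self h0) a (by simpa [dist_eq_norm] using ha)).mono
    (closedBall_subset_GG hy)

lemma joined_WW (n : ℕ) : ∀ y ∈ WW ρ k n, JoinedIn (GG ρ k n) 0 y := by
  induction n with
  | zero =>
    intro y hy
    obtain rfl : y = 0 := hy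
    exact JoinedIn.refl (WW_subset_GG 0 rfl)
  | succ n ih =>
    rintro x ⟨y, hy, hy2, g, hg, hch⟩
    have hsub : GG ρ k n ⊆ GG ρ k (n + 1) := (GG_subset hnf n).trans (WW_subset_GG _)
    have hg0 : JoinedIn (GG ρ k (n + 1)) 0 g := ((ih y hy).trans (joinedIn_GG hy hg)).mono hsub
    induction hch with
    | refl => exact hg0
    | @tail a b hga hab ih2 =>
      have hb : b ∈ WW ρ k (n + 1) := ⟨y, hy, hy2, g, hg, hga.tail hab⟩
      refine ih2.trans (joinedIn_GG hb (hab.2.1.trans ?_)).symm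
      exact pow_le_pow_of_le_one (tt_pos _).le (tt_le_one _) (by norm_num)

lemma isPreconnected_GG (n : ℕ) : IsPreconnected (GG ρ k n) := by
  have : IsPathConnected (GG ρ k n) := by
    refine ⟨0, WW_subset_GG n (zero_mem_WW hnf n), ?_⟩
    rintro g ⟨y, hy, hg⟩
    exact (joined_WW hnf n y hy).trans (joinedIn_GG hy hg)
  exact this.isConnected.isPreconnected

lemma crossing {n : ℕ} {z : ℂ} (hz : z ∈ closure (WW ρ k (n + 1))) {r : ℝ} (hr : 0 ≤ r)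
    (hr2 : r ≤ tt (k + n) ^ 3) :
    ∃ x ∈ WW ρ k (n + 1), |‖x - z‖ - r| ≤ tt (k + n + 1) ^ 4 / 2 := by
  set s := tt (k + n + 1) ^ 4 with hs
  have hs0 : 0 < s := pow_pos (tt_pos _) 4
  by_contra hcon
  push Not at hcon
  have hdi : ∀ x ∈ WW ρ k (n + 1), ‖x - z‖ < r - s / 2 ∨ r + s / 2 < ‖x - z‖ := by
    intro x hx
    rcases lt_abs.1 (hcon x hx) with h | h
    · right; linarith
    · left; linarith
  set l := tt (k + n) ^ 3 with hl
  have hl0 : 0 < l := pow_pos (tt_pos _) 3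
  have hfar0 : ∃ g ∈ GG ρ k n, r ≤ ‖g - z‖ := by
    have hm : ∀ g : ℂ, ‖g‖ = l → g ∈ GG ρ k n := fun g hg =>
      ⟨0, zero_mem_WW hnf n, by simpa using hg.le⟩
    have h1 : ‖(l : ℂ)‖ = l := by simp [abs_of_pos hl0]
    have h2 : ‖((l : ℂ) - z) - (-(l : ℂ) - z)‖ = 2 * l := by
      rw [show ((l : ℂ) - z) - (-(l : ℂ) - z) = 2 * l by ring, norm_mul, h1]; simp
    have h3 := norm_sub_le ((l : ℂ) - z) (-(l : ℂ) - z)
    by_cases h4 : r ≤ ‖(l : ℂ) - z‖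
    · exact ⟨l, hm _ h1, h4⟩
    · exact ⟨-l, hm _ (by rw [norm_neg, h1]), by linarith⟩
  obtain ⟨g0, hg0, hg0r⟩ := hfar0
  have hfarG : ∀ g ∈ GG ρ k n, r + s / 2 < ‖g - z‖ := by
    intro g hg
    rcases hdi g (GG_subset hnf n hg) with h | h
    · have hc : ContinuousOn (fun x : ℂ => ‖x - z‖) (GG ρ k n) := by fun_prop
      obtain ⟨w, hw, hwr⟩ := (isPreconnected_GG hnf n).intermediate_value hg hg0 hc
        (show r ∈ Icc ‖g - z‖ ‖g0 - z‖ from ⟨by linarith, hg0r⟩)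
      have hwr' : ‖w - z‖ = r := hwr
      rcases hdi w (GG_subset hnf n hw) with h' | h' <;> linarith
    · exact h
  have hfarW : ∀ x ∈ WW ρ k (n + 1), r + s / 2 < ‖x - z‖ := by
    rintro x ⟨y, hy, hy2, g, hg, hch⟩
    induction hch with
    | refl => exact hfarG g ⟨y, hy, hg⟩
    | @tail a b hga hab ih2 =>
      have h1 : ‖a - z‖ ≤ ‖a - b‖ + ‖b - z‖ := norm_sub_le_norm_sub_add_norm_sub a b z
      have h2 : ‖a - b‖ ≤ s := hab.2.1
      rcases hdi b ⟨y, hy, hy2, g, hg, hga.tail hab⟩ with h | h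
      · linarith
      · exact h
  obtain ⟨x, hx, hxz⟩ := Metric.mem_closure_iff.1 hz (s / 2) (by positivity)
  have := hfarW x hx
  rw [dist_comm, dist_eq_norm] at hxz
  linarith

lemma heavy {n : ℕ} {z : ℂ} (hz : z ∈ closure (WW ρ k (n + 1))) {r : ℝ}
    (hr : tt (k + n + 1) ^ 4 ≤ r) (hr2 : r ≤ tt (k + n) ^ 3)
    (hns : ¬ sphere z r ⊆ closure (WW ρ k (n + 1))) :
    ∃ y, ‖y - z‖ = r ∧ ¬ Light ρ (k + n + 1) y := by
  set s := tt (k + n + 1) ^ 4 with hs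
  have hs0 : 0 < s := pow_pos (tt_pos _) 4
  have hr0 : 0 < r := by linarith
  have hne : (WW ρ k (n + 1)).Nonempty := ⟨0, zero_mem_WW hnf _⟩
  obtain ⟨y0, hy0, hy0'⟩ := not_subset.1 hns
  have hd0 : 0 < infDist y0 (WW ρ k (n + 1)) := (infDist_pos_iff_notMem_closure hne).1 hy0'
  obtain ⟨x, hx, hxr⟩ := crossing hnf hz hr0.le hr2
  have hxz : 0 < ‖x - z‖ := by have := (abs_le.1 hxr).1; linarith
  set y1 : ℂ := z + (r / ‖x - z‖ : ℝ) • (x - z) with hy1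
  have hy1s : y1 ∈ sphere z r := by
    rw [mem_sphere, dist_eq_norm, hy1, add_sub_cancel_left, norm_smul, Real.norm_eq_abs,
      abs_of_pos (div_pos hr0 hxz)]
    field_simp
  have hd1 : infDist y1 (WW ρ k (n + 1)) ≤ s / 2 := by
    refine (infDist_le_dist_of_mem hx).trans ?_
    have h1 : y1 - x = (r / ‖x - z‖ - 1 : ℝ) • (x - z) := by
      rw [hy1, sub_smul, one_smul]; ring
    rw [dist_eq_norm, h1, norm_smul, Real.norm_eq_abs]
    have h2 : |r / ‖x - z‖ - 1| * ‖x - z‖ = |‖x - z‖ - r| := by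
      rw [abs_sub_comm ‖x - z‖ r, ← abs_of_pos hxz, ← abs_mul, abs_of_pos hxz]
      congr 1
      field_simp
    rw [h2]; exact hxr
  have hex : ∃ y ∈ sphere z r, 0 < infDist y (WW ρ k (n + 1)) ∧
      infDist y (WW ρ k (n + 1)) < s := by
    by_cases h : infDist y0 (WW ρ k (n + 1)) < s
    · exact ⟨y0, hy0, hd0, h⟩
    · have hpc : IsPreconnected (sphere z r) :=
        isPreconnected_sphere (by rw [Complex.rank_real_complex]; norm_num) z r
      obtain ⟨w, hw, hwr⟩ := hpc.intermediate_value hy1s hy0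
        (continuous_infDist_pt (WW ρ k (n + 1))).continuousOn
        (show 3 * s / 4 ∈ Icc _ _ from ⟨by linarith, by linarith⟩)
      have hwr' : infDist w (WW ρ k (n + 1)) = 3 * s / 4 := hwr
      exact ⟨w, hw, by linarith, by linarith⟩
  obtain ⟨y, hy, hy2, hy3⟩ := hex
  refine ⟨y, by simpa [dist_eq_norm] using hy, fun hl => ?_⟩
  obtain ⟨x', hx', hd⟩ := (infDist_lt_iff hne).1 hy3
  have hyW := WW_step hnf hx' (by rw [norm_sub_rev, ← dist_eq_norm]; exact hd.le) hl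
  rw [infDist_zero_of_mem hyW] at hy2
  exact lt_irrefl _ hy2

end NoFail

lemma small_value {ρ : ℂ → ℝ} (h0 : ∀ z, 0 ≤ ρ z) (hi : IntegrableOn ρ (ball (0 : ℂ) 1))
    {f : ℂ → ℂ} (hf : Hinf f) {j : ℕ} {y : ℂ} (hy : ‖y‖ + 11 * tt j ^ 4 < 1)
    (hl : ¬ Light ρ j y) : ∃ x, ‖x - y‖ ≤ 11 * tt j ^ 4 ∧
      ‖f x‖ ≤ (∫ z in ball (0 : ℂ) 1, ρ z * ‖f z‖) / (tt j ^ 4) ^ 4 := by
  set s := tt j ^ 4 with hs
  have hs0 : 0 < s := pow_pos (tt_pos _) 4
  obtain ⟨x, hx, hmin⟩ := (isCompact_closedBall y (11 * s)).exists_isMinOn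
    ⟨y, mem_closedBall_self (by positivity)⟩ (hf.diff.continuousOn.norm.mono
      (closedBall_subset_ball' (by rw [dist_zero_right]; linarith)))
  refine ⟨x, by simpa [dist_eq_norm] using hx, ?_⟩
  have hsub := ball_subset_unit hy.le
  have hi2 : IntegrableOn (fun z => ρ z * ‖f z‖) (ball (0 : ℂ) 1) := by
    obtain ⟨B, hB⟩ := hf.bdd
    refine Integrable.mul_bdd (c := B) hi
      (hf.diff.continuousOn.norm.aestronglyMeasurable measurableSet_ball) ?_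
    filter_upwards [ae_restrict_mem measurableSet_ball] with z hz
    simpa using hB z hz
  have h1 : s ^ 4 < ∫ z in ball y (11 * s), ρ z := not_le.1 hl
  have h2 : (∫ z in ball y (11 * s), ρ z) * ‖f x‖ ≤ ∫ z in ball y (11 * s), ρ z * ‖f z‖ := by
    rw [← integral_mul_const]
    refine setIntegral_mono_on ((hi.mono_set hsub).mul_const _) (hi2.mono_set hsub)
      measurableSet_ball fun z hz => ?_
    exact mul_le_mul_of_nonneg_left (hmin (ball_subset_closedBall hz)) (h0 z)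
  have h3 := setIntegral_le_of_subset (fun z => mul_nonneg (h0 z) (norm_nonneg (f z))) hi2 hsub
  rw [le_div_iff₀ (by positivity)]
  nlinarith [norm_nonneg (f x)]

lemma exists_extremal {K : Set ℂ} (hK : IsCompact K) (hne : K.Nonempty) {f : ℂ → ℂ}
    {U : Set ℂ} (hf : DifferentiableOn ℂ f U) (hKU : K ⊆ U) :
    ∃ z ∈ K, (∀ w ∈ K, ‖f w‖ ≤ ‖f z‖) ∧ ∀ r, 0 < r → closedBall z r ⊆ U → ¬ sphere z r ⊆ K := by
  have hc : ContinuousOn (fun z => ‖f z‖) K := hf.continuousOn.norm.mono hKU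
  obtain ⟨z0, hz0, hmax⟩ := hK.exists_isMaxOn hne hc
  have hK' : IsCompact (K ∩ {z | ‖f z‖ = ‖f z0‖}) :=
    hK.of_isClosed_subset (hc.preimage_isClosed_of_isClosed hK.isClosed
      (isClosed_singleton (x := ‖f z0‖))) inter_subset_left
  obtain ⟨z, ⟨hz, hz'⟩, hmax2⟩ := hK'.exists_isMaxOn ⟨z0, hz0, rfl⟩ continuous_norm.continuousOn
  have hz'' : ‖f z‖ = ‖f z0‖ := hz'
  refine ⟨z, hz, fun w hw => hz'' ▸ hmax hw, fun r hr hU hs => ?_⟩
  have hd : DiffContOnCl ℂ f (ball z r) :=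
    (hf.mono (by rw [closure_ball z hr.ne']; exact hU)).diffContOnCl
  have h1 : IsMaxOn (norm ∘ f) (ball z r) z := by
    intro w hw
    refine Complex.norm_le_of_forall_mem_frontier_norm_le (U := ball z r) isBounded_ball
      hd (C := ‖f z‖) ?_ (subset_closure hw)
    rw [frontier_ball z hr.ne']
    exact fun v hv => hz'' ▸ hmax (hs hv)
  have h2 := Complex.norm_eqOn_closedBall_of_isMaxOn hd h1
  have h3 : ∀ w ∈ sphere z r, ‖w‖ ≤ ‖z‖ := fun w hw =>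
    hmax2 ⟨hs hw, (h2 (sphere_subset_closedBall hw)).trans hz''⟩
  have h4 := h3 (z + r) (by simp [abs_of_pos hr])
  have h5 := h3 (z - r) (by simp [abs_of_pos hr])
  have h6 := parallelogram_law_with_norm ℝ z (r : ℂ)
  have h7 : ‖(r : ℂ)‖ = r := by simp [abs_of_pos hr]
  rw [h7] at h6
  nlinarith [norm_nonneg (z + r), norm_nonneg (z - r), norm_nonneg z]

lemma recursion : ∃ A : ℝ, 0 ≤ A ∧ ∀ (ρ : ℂ → ℝ) (k : ℕ), (∀ z, 0 ≤ ρ z) →
    IntegrableOn ρ (ball (0 : ℂ) 1) → (∀ n, ∀ x ∈ WW ρ k n, ‖x‖ ≤ 1 / 2) →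
    ∀ (f : ℂ → ℂ), Hinf f → ∀ (n : ℕ), 1608 * tt (k + n + 1) ≤ 1 → ∀ M : ℝ,
      (∀ w ∈ WW ρ k (n + 2), ‖f w‖ ≤ M) → ∀ w ∈ WW ρ k (n + 1),
        ‖f w‖ ≤ A * ((∫ z in ball (0 : ℂ) 1, ρ z * ‖f z‖) / (tt (k + n + 1) ^ 4) ^ 4) +
          (1608 * tt (k + n + 1)) ^ 17 * M := by
  obtain ⟨A, hA, hmul⟩ := multi 17 402 (by norm_num)
  refine ⟨A, hA, fun ρ k h0 hi hnf f hf n hn M hM w hw => ?_⟩
  set t := tt (k + n + 1) with ht
  have ht0 : 0 < t := tt_pos _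
  have hs0 : 0 < t ^ 4 := pow_pos ht0 4
  have hcl : closure (WW ρ k (n + 1)) ⊆ closedBall 0 (1 / 2) :=
    closure_minimal (fun x hx => by simpa using hnf _ x hx) isClosed_closedBall
  have hK : IsCompact (closure (WW ρ k (n + 1))) :=
    (isCompact_closedBall 0 (1 / 2)).of_isClosed_subset isClosed_closure hcl
  obtain ⟨z, hz, hmax, hsph⟩ := exists_extremal hK ⟨w, subset_closure hw⟩ hf.diff
    (hcl.trans (closedBall_subset_ball (by norm_num)))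
  have hz2 : ‖z‖ ≤ 1 / 2 := by simpa using hcl hz
  have h402 : 402 * t ^ 4 ≤ t ^ 3 / 4 := by nlinarith [pow_pos ht0 3]
  have ht3 : t ^ 3 ≤ tt (k + n) ^ 3 := pow_le_pow_left₀ ht0.le (tt_anti (by omega)) 3
  have ht8 : t ^ 3 ≤ 1 / 8 := tt_cube_le _
  have hx : ∀ i : ℕ, ∃ x : ℂ, i < 17 → |‖x - z‖ - 23 * (i + 1) * t ^ 4| ≤ 11 * t ^ 4 ∧
      ‖f x‖ ≤ (∫ z in ball (0 : ℂ) 1, ρ z * ‖f z‖) / (t ^ 4) ^ 4 := by
    intro i
    by_cases hi17 : i < 17
    swap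
    · exact ⟨0, fun h => absurd h hi17⟩
    have hi' : (i : ℝ) ≤ 16 := by exact_mod_cast Nat.lt_succ_iff.1 hi17
    have hi0 : (0 : ℝ) ≤ i := Nat.cast_nonneg i
    have hr1 : t ^ 4 ≤ 23 * (i + 1) * t ^ 4 := by nlinarith
    have hr2 : 23 * (i + 1) * t ^ 4 ≤ 391 * t ^ 4 := by nlinarith
    obtain ⟨y, hy, hl⟩ := heavy hnf hz hr1 (by linarith) (hsph _ (by linarith)
      (closedBall_subset_ball' (by rw [dist_zero_right]; linarith)))
    have hyn : ‖y‖ ≤ ‖y - z‖ + ‖z‖ := by simpa using norm_add_le (y - z) z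
    obtain ⟨x, hx1, hx2⟩ := small_value h0 hi hf (j := k + n + 1) (y := y)
      (by linarith) hl
    refine ⟨x, fun _ => ⟨?_, hx2⟩⟩
    rw [← hy]
    refine (abs_norm_sub_norm_le _ _).trans ?_
    rwa [sub_sub_sub_cancel_right]
  choose x hx using hx
  have hI : 0 ≤ (∫ z in ball (0 : ℂ) 1, ρ z * ‖f z‖) / (t ^ 4) ^ 4 :=
    div_nonneg (integral_nonneg fun z => mul_nonneg (h0 z) (norm_nonneg _)) (by positivity)
  have h := hmul f z (t ^ 4) (t ^ 3 / 2) _ M x (hf.diff.mono (ball_subset_unit (by linarith))) hs0 (by linarith) hI ?_ ?_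
    (fun i hi => (hx i hi).2) ?_
  · have h2 : 2 * 402 * t ^ 4 / (t ^ 3 / 2) = 1608 * t := by field_simp; ring
    rw [h2] at h
    exact (hmax w (subset_closure hw)).trans h
  · intro i hi17
    have hi' : (i : ℝ) ≤ 16 := by exact_mod_cast Nat.lt_succ_iff.1 hi17
    have := (abs_le.1 (hx i hi17).1).2
    nlinarith
  · intro i hi17 i' hi'
    have h1 := (abs_le.1 (hx i hi17).1).1
    have h2 := (abs_le.1 (hx i' (by omega)).1).2
    have h3 : (i' : ℝ) + 1 ≤ i := by exact_mod_cast hi'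
    have h4 : ‖x i - z‖ ≤ ‖x i - x i'‖ + ‖x i' - z‖ := norm_sub_le_norm_sub_add_norm_sub _ _ _
    rw [norm_sub_rev (x i')]
    nlinarith
  · intro v hv
    obtain ⟨x', hx', hd⟩ := Metric.mem_closure_iff.1 hz (t ^ 3 / 2) (by positivity)
    refine hM v (GG_subset hnf (n + 1) ⟨x', hx', ?_⟩)
    have h1 : ‖v - x'‖ ≤ ‖v - z‖ + ‖z - x'‖ := norm_sub_le_norm_sub_add_norm_sub _ _ _
    rw [mem_sphere, dist_eq_norm] at hv
    rw [dist_eq_norm] at hd
    show ‖v - x'‖ ≤ t ^ 3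
    linarith

/-- the barrier case: bounded point evaluations -/
lemma barrier {ρ : ℂ → ℝ} (h0 : ∀ z, 0 ≤ ρ z) (hi : IntegrableOn ρ (ball (0 : ℂ) 1)) {k : ℕ}
    (hnf : ∀ n, ∀ x ∈ WW ρ k n, ‖x‖ ≤ 1 / 2) : BPE ρ := by
  obtain ⟨A, hA, hrec⟩ := recursion
  obtain ⟨n0, hn0⟩ : ∃ n0, ∀ j ≥ n0, tt j < 1 / (2 * 1608 ^ 17) :=
    eventually_atTop.1 (tendsto_tt.eventually (gt_mem_nhds (by norm_num)))
  refine ⟨tt k ^ 3, 2 * A / tt (k + n0 + 1) ^ 16, pow_pos (tt_pos _) 3,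
    (tt_cube_le k).trans (by norm_num), fun f hf w hw => ?_⟩
  set I := ∫ z in ball (0 : ℂ) 1, ρ z * ‖f z‖ with hI
  have hI0 : 0 ≤ I := integral_nonneg fun z => mul_nonneg (h0 z) (norm_nonneg _)
  obtain ⟨M0, hM0⟩ := (isCompact_closedBall (0 : ℂ) (1 / 2)).exists_bound_of_continuousOn
    (hf.diff.continuousOn.mono (closedBall_subset_ball (by norm_num)))
  have hM0' : 0 ≤ M0 := (norm_nonneg _).trans (hM0 0 (by simp))
  have key : ∀ i : ℕ, ∀ n ≥ n0, ∀ v ∈ WW ρ k (n + 1),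
      tt (k + n + 1) ^ 16 * ‖f v‖ ≤ 2 * A * I + (1 / 2) ^ i * M0 := by
    intro i
    induction i with
    | zero =>
      intro n _ v hv
      have h1 := hM0 v (by simpa using hnf _ v hv)
      have h2 : tt (k + n + 1) ^ 16 ≤ 1 := pow_le_one₀ (tt_pos _).le (tt_le_one _)
      have h3 : 0 ≤ 2 * A * I := by positivity
      nlinarith [norm_nonneg (f v)]
    | succ i ih =>
      intro n hn v hv
      set t := tt (k + n + 1) with ht
      have ht0 : 0 < t := tt_pos _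
      have ht1 : t < 1 / (2 * 1608 ^ 17) := hn0 _ (by omega)
      have hE : 0 ≤ 2 * A * I + (1 / 2) ^ i * M0 := by positivity
      have h1 := hrec ρ k h0 hi hnf f hf n (by linarith)
        ((2 * A * I + (1 / 2) ^ i * M0) / t ^ 32) (fun u hu => by
          have := ih (n + 1) (by omega) u hu
          rw [show k + (n + 1) + 1 = (k + n + 1) + 1 by ring, tt_succ, ← pow_mul] at this
          rw [le_div_iff₀ (by positivity), mul_comm]
          exact this) v hv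
      have h2 : t ^ 16 * (A * (I / (t ^ 4) ^ 4) +
          (1608 * t) ^ 17 * ((2 * A * I + (1 / 2) ^ i * M0) / t ^ 32)) =
          A * I + (1608 ^ 17 * t) * (2 * A * I + (1 / 2) ^ i * M0) := by
        field_simp
      have h3 : (1608 ^ 17 * t) * (2 * A * I + (1 / 2) ^ i * M0) ≤
          1 / 2 * (2 * A * I + (1 / 2) ^ i * M0) :=
        mul_le_mul_of_nonneg_right (by linarith) hE
      have h4 := mul_le_mul_of_nonneg_left h1 (pow_pos ht0 16).le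
      rw [h2] at h4
      rw [pow_succ (1 / 2 : ℝ) i]
      linarith
  have hwW : w ∈ WW ρ k (n0 + 1) :=
    WW_mono hnf (by omega : 0 + 1 ≤ n0 + 1) (GG_subset hnf 0 ⟨0, rfl, by simpa using (mem_ball_zero_iff.1 hw).le⟩)
  have hlim : Tendsto (fun i : ℕ => 2 * A * I + (1 / 2 : ℝ) ^ i * M0) atTop
      (𝓝 (2 * A * I + 0 * M0)) :=
    tendsto_const_nhds.add
      ((tendsto_pow_atTop_nhds_zero_of_lt_one (by norm_num) (by norm_num)).mul_const M0)
  have h5 := ge_of_tendsto' hlim fun i => key i n0 le_rfl w hwW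
  rw [div_mul_eq_mul_div, le_div_iff₀ (pow_pos (tt_pos _) 16)]
  linarith

/-- Colouring dichotomy: bounded point evaluations, or routes of arbitrarily small cost. -/
theorem bpe_or_route (ρ : ℂ → ℝ) (hρ : IntegrableOn ρ (ball 0 1)) (h0 : ∀ z, 0 ≤ ρ z) :
    BPE ρ ∨ ∀ ε : ℝ, 0 < ε → Route ρ ε := by
  by_cases h : ∃ k, ∀ n, ∀ x ∈ WW ρ k n, ‖x‖ ≤ 1 / 2
  · obtain ⟨k, hk⟩ := h
    exact Or.inl (barrier h0 hρ hk)
  · push Not at h
    refine Or.inr fun ε hε => ?_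
    obtain ⟨k, hk1, hk2⟩ := ((eventually_ge_atTop 1).and
      (tendsto_tt.eventually (gt_mem_nhds (half_pos hε)))).exists
    obtain ⟨n, x, hx, hx2⟩ := h k
    exact failure h0 hρ hk1 hx hx2 (by linarith)

end Pool.Agent.P.MP_f981b0_an.R1
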