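import Pool.Agent.P.MP_f981b0_an.R1.Pompeiu

/-! A radial bump function, its `dbar` derivative, and elementary rules for `dbar`. -/

open MeasureTheory Metric Set Real Complex

namespace Pool.Agent.P.MP_f981b0_an.R1

lemma dbar_mul {f g : ℂ → ℂ} {z : ℂ} (hf : DifferentiableAt ℝ f z) (hg : DifferentiableAt ℝ g z) :
    dbar (fun z => f z * g z) z = f z * dbar g z + g z * dbar f z := by
  simp only [dbar, fderiv_fun_mul hf hg, add_apply,
    smul_apply, smul_eq_mul]
  ring

lemma dbar_one_sub (f : ℂ → ℂ) (z : ℂ) : dbar (fun z => 1 - f z) z = -dbar f z := by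
  simp only [dbar, fderiv_const_sub, neg_apply]
  ring

lemma dbar_const (a z : ℂ) : dbar (fun _ => a) z = 0 := by
  simp [dbar]

lemma dbar_congr {f g : ℂ → ℂ} {z : ℂ} (h : f =ᶠ[nhds z] g) : dbar f z = dbar g z := by
  simp only [dbar, h.fderiv_eq]

lemma dbar_holo {f : ℂ → ℂ} {z : ℂ} (hf : DifferentiableAt ℂ f z) : dbar f z = 0 := by
  have h := (hf.hasDerivAt.hasFDerivAt.restrictScalars ℝ).fderiv
  simp only [dbar, h]
  simp
  linear_combination (deriv f z) * I_mul_I

lemma continuous_dbar {g : ℂ → ℂ} (hg : ContDiff ℝ 1 g) : Continuous (dbar g) := by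
  have hc : Continuous (fderiv ℝ g) := hg.continuous_fderiv one_ne_zero
  unfold dbar
  fun_prop

/-- Profile of the bump: `1` for `t ≤ 1`, `0` for `t ≥ 4`, decreasing. -/
noncomputable def prof (t : ℝ) : ℝ := Real.smoothTransition ((4 - t) / 3)

lemma prof_contDiff : ContDiff ℝ 1 prof := by
  unfold prof
  exact (Real.smoothTransition.contDiff (n := 1)).comp (by fun_prop)

lemma prof_nonneg (t : ℝ) : 0 ≤ prof t := Real.smoothTransition.nonneg _
lemma prof_le_one (t : ℝ) : prof t ≤ 1 := Real.smoothTransition.le_one _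
lemma prof_one {t : ℝ} (h : t ≤ 1) : prof t = 1 :=
  Real.smoothTransition.one_of_one_le (by linarith)
lemma prof_zero {t : ℝ} (h : 4 ≤ t) : prof t = 0 :=
  Real.smoothTransition.zero_of_nonpos (by linarith)

lemma prof_anti : Antitone prof := fun x y h =>
  Real.smoothTransition.monotone (by linarith)

lemma dprof_nonpos (t : ℝ) : deriv prof t ≤ 0 := prof_anti.deriv_nonpos

lemma dprof_left {t : ℝ} (h : t ≤ 1) : deriv prof t = 0 :=
  IsLocalMax.deriv_eq_zero (Filter.Eventually.of_forall fun y => by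
    rw [prof_one h]; exact prof_le_one y)

lemma dprof_right {t : ℝ} (h : 4 ≤ t) : deriv prof t = 0 :=
  IsLocalMin.deriv_eq_zero (Filter.Eventually.of_forall fun y => by
    rw [prof_zero h]; exact prof_nonneg y)

lemma exists_dprof_bound : ∃ B : ℝ, 0 < B ∧ ∀ t, |deriv prof t| ≤ B := by
  have hc : Continuous (deriv prof) := prof_contDiff.continuous_deriv le_rfl
  obtain ⟨B, hB⟩ := (isCompact_Icc (a := (1 : ℝ)) (b := 4)).exists_bound_of_continuousOn
    hc.continuousOn
  refine ⟨|B| + 1, by positivity, fun t => ?_⟩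
  by_cases h1 : t ≤ 1
  · rw [dprof_left h1, abs_zero]; positivity
  by_cases h4 : 4 ≤ t
  · rw [dprof_right h4, abs_zero]; positivity
  have := hB t ⟨by linarith, by linarith⟩
  rw [Real.norm_eq_abs] at this
  linarith [le_abs_self B]

/-- A bound for the derivative of the profile. -/
noncomputable def BB : ℝ := exists_dprof_bound.choose

lemma BB_pos : 0 < BB := exists_dprof_bound.choose_spec.1
lemma dprof_le (t : ℝ) : |deriv prof t| ≤ BB := exists_dprof_bound.choose_spec.2 t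

/-- The radial bump: `1` on the closed disc of radius `r`, `0` outside the disc of radius `2r`. -/
noncomputable def bump (c : ℂ) (r : ℝ) (z : ℂ) : ℝ := prof (‖z - c‖ ^ 2 / r ^ 2)

lemma bump_nonneg (c : ℂ) (r : ℝ) (z : ℂ) : 0 ≤ bump c r z := prof_nonneg _
lemma bump_le_one (c : ℂ) (r : ℝ) (z : ℂ) : bump c r z ≤ 1 := prof_le_one _

lemma arg_le {c z : ℂ} {r : ℝ} (hr : 0 < r) (h : ‖z - c‖ ≤ r) : ‖z - c‖ ^ 2 / r ^ 2 ≤ 1 := by
  rw [div_le_one (by positivity)]
  gcongr

lemma arg_ge {c z : ℂ} {r : ℝ} (hr : 0 < r) (h : 2 * r ≤ ‖z - c‖) : 4 ≤ ‖z - c‖ ^ 2 / r ^ 2 := by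
  rw [le_div_iff₀ (by positivity)]
  nlinarith

lemma bump_one {c z : ℂ} {r : ℝ} (hr : 0 < r) (h : ‖z - c‖ ≤ r) : bump c r z = 1 :=
  prof_one (arg_le hr h)

lemma bump_zero {c z : ℂ} {r : ℝ} (hr : 0 < r) (h : 2 * r ≤ ‖z - c‖) : bump c r z = 0 :=
  prof_zero (arg_ge hr h)

lemma bump_contDiff_real (c : ℂ) (r : ℝ) : ContDiff ℝ 1 (bump c r) := by
  unfold bump
  refine prof_contDiff.comp (ContDiff.div_const ?_ _)
  exact (contDiff_id.sub contDiff_const).norm_sq ℝ

lemma bump_contDiff (c : ℂ) (r : ℝ) : ContDiff ℝ 1 (fun z => (bump c r z : ℂ)) :=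
  Complex.ofRealCLM.contDiff.comp (bump_contDiff_real c r)

lemma bump_continuous (c : ℂ) (r : ℝ) : Continuous (bump c r) :=
  (bump_contDiff_real c r).continuous

lemma dbar_bump (c : ℂ) (r : ℝ) (z : ℂ) :
    dbar (fun z => (bump c r z : ℂ)) z =
      ((deriv prof (‖z - c‖ ^ 2 / r ^ 2) / r ^ 2 : ℝ) : ℂ) * (z - c) := by
  have h1 : HasFDerivAt (fun z : ℂ => z - c) (ContinuousLinearMap.id ℝ ℂ) z :=
    (hasFDerivAt_id z).sub_const c
  have h2 := (h1.norm_sq).mul_const ((r ^ 2)⁻¹)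
  have h3 : HasDerivAt prof (deriv prof (‖z - c‖ ^ 2 / r ^ 2)) (‖z - c‖ ^ 2 * (r ^ 2)⁻¹) := by
    rw [← div_eq_mul_inv]
    exact (prof_contDiff.differentiable one_ne_zero _).hasDerivAt
  have h4 := Complex.ofRealCLM.hasFDerivAt.comp z (h3.comp_hasFDerivAt z h2)
  have h5 : (fun z => (bump c r z : ℂ)) =
      Complex.ofRealCLM ∘ (prof ∘ fun y => ‖y - c‖ ^ 2 * (r ^ 2)⁻¹) := by
    funext y; simp [bump, div_eq_mul_inv]
  rw [dbar, h5, h4.fderiv]
  have h6 := Complex.re_add_im (z - c)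
  generalize z - c = y at *
  simp [Complex.inner]
  linear_combination ((deriv prof (‖y‖ ^ 2 / r ^ 2) : ℝ) : ℂ) / (r : ℂ) ^ 2 * h6

lemma dbar_bump_inner {c z : ℂ} {r : ℝ} (hr : 0 < r) (h : ‖z - c‖ ≤ r) :
    dbar (fun z => (bump c r z : ℂ)) z = 0 := by
  rw [dbar_bump, dprof_left (arg_le hr h)]; simp

lemma dbar_bump_outer {c z : ℂ} {r : ℝ} (hr : 0 < r) (h : 2 * r ≤ ‖z - c‖) :
    dbar (fun z => (bump c r z : ℂ)) z = 0 := by
  rw [dbar_bump, dprof_right (arg_ge hr h)]; simp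

lemma norm_dbar_bump_le (c z : ℂ) {r : ℝ} (hr : 0 < r) :
    ‖dbar (fun z => (bump c r z : ℂ)) z‖ ≤ (ball c (2 * r)).indicator (fun _ => 2 * BB / r) z := by
  by_cases h : z ∈ ball c (2 * r)
  · rw [indicator_of_mem h, dbar_bump, norm_mul, Complex.norm_real, Real.norm_eq_abs, abs_div,
      abs_of_pos (by positivity : 0 < r ^ 2)]
    rw [mem_ball, dist_eq_norm] at h
    have := BB_pos
    calc |deriv prof (‖z - c‖ ^ 2 / r ^ 2)| / r ^ 2 * ‖z - c‖ ≤ BB / r ^ 2 * (2 * r) := by
          gcongr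
          exact dprof_le _
      _ = 2 * BB / r := by field_simp
  · rw [indicator_of_notMem h]
    rw [mem_ball, dist_eq_norm, not_lt] at h
    rw [dbar_bump_outer hr h, norm_zero]

/-- Cauchy-Pompeiu for the bump. -/
lemma cauchy_dbar_bump (c : ℂ) {r : ℝ} (hr : 0 < r) (w : ℂ) :
    cauchy (dbar fun z => (bump c r z : ℂ)) w = -(π * bump c r w) := by
  have hz : ∀ z : ℂ, ‖c‖ + 2 * r ≤ ‖z‖ → 2 * r ≤ ‖z - c‖ := fun z h => by
    have := norm_sub_norm_le z c
    linarith
  refine pompeiu (R₀ := ‖c‖ + 2 * r) (C := 0) (bump_contDiff c r)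
    (fun z h => dbar_bump_outer hr (hz z h)) (fun z h => ?_) w
  rw [bump_zero hr (hz z h)]; simp

lemma dom_dbar_bump_crude (c w : ℂ) {r : ℝ} (hr : 0 < r) :
    Dom (fun z => ‖dbar (fun z => (bump c r z : ℂ)) z‖ * ‖z - w‖⁻¹) (40 * BB) := by
  have hB := BB_pos
  refine ((dom_ball c w (r := 2 * r) (by positivity)).const_mul (κ := 2 * BB / r)
    (by positivity)).mono (fun z => ?_) (le_of_eq (by field_simp; ring))
  have h := norm_dbar_bump_le c z hr
  by_cases hz : z ∈ ball c (2 * r)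
  · rw [indicator_of_mem hz] at h ⊢
    gcongr
  · rw [indicator_of_notMem hz] at h ⊢
    rw [norm_le_zero_iff.1 h]; simp

lemma dom_dbar_bump_far (c w : ℂ) {r : ℝ} (hr : 0 < r) (hw : 0 < ‖w - c‖) :
    Dom (fun z => ‖dbar (fun z => (bump c r z : ℂ)) z‖ * ‖z - w‖⁻¹) (160 * BB * r / ‖w - c‖) := by
  have hB := BB_pos
  refine ((dom_ball_far c w (r := 2 * r) (by positivity) hw).const_mul (κ := 2 * BB / r)
    (by positivity)).mono (fun z => ?_) (le_of_eq (by field_simp; ring))
  have h := norm_dbar_bump_le c z hr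
  by_cases hz : z ∈ ball c (2 * r)
  · rw [indicator_of_mem hz] at h ⊢
    gcongr
  · rw [indicator_of_notMem hz] at h ⊢
    rw [norm_le_zero_iff.1 h]; simp

/-- At the centre the integral is exactly `π`. -/
lemma dom_dbar_bump_centre (c : ℂ) {r : ℝ} (hr : 0 < r) :
    Dom (fun z => ‖dbar (fun z => (bump c r z : ℂ)) z‖ * ‖z - c‖⁻¹) π := by
  have hm : Measurable fun z => ‖dbar (fun z => (bump c r z : ℂ)) z‖ * ‖z - c‖⁻¹ :=
    (continuous_dbar (bump_contDiff c r)).norm.measurable.mul (meas_inv_norm c)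
  refine ⟨_, (dom_dbar_bump_crude c c hr).integrable_real (fun z => by positivity)
    hm.aestronglyMeasurable, fun _ => le_rfl, le_of_eq ?_⟩
  have h := cauchy_dbar_bump c hr c
  rw [bump_one hr (by simp [hr.le]), cauchy] at h
  have h2 : ∀ z, dbar (fun z => (bump c r z : ℂ)) z / (z - c) =
      -((‖dbar (fun z => (bump c r z : ℂ)) z‖ * ‖z - c‖⁻¹ : ℝ) : ℂ) := by
    intro z
    by_cases hz : z - c = 0
    · simp [hz]
    · have hn : ‖z - c‖ ≠ 0 := norm_ne_zero_iff.2 hz
      rw [dbar_bump, norm_mul, Complex.norm_real, Real.norm_eq_abs, abs_of_nonpos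
        (div_nonpos_of_nonpos_of_nonneg (dprof_nonpos _) (by positivity)), mul_assoc,
        mul_inv_cancel₀ hn, mul_div_assoc, div_self hz]
      push_cast
      ring
  simp_rw [h2] at h
  rw [integral_neg, integral_complex_ofReal, neg_inj] at h
  exact_mod_cast (by simpa using h)

/-- The key estimate with constant one. -/
lemma dom_dbar_bump (c w : ℂ) {r : ℝ} (hr : 0 < r) :
    Dom (fun z => ‖dbar (fun z => (bump c r z : ℂ)) z‖ * ‖z - w‖⁻¹)
      (π * bump c r w + 4000 * BB * (‖w - c‖ / (r + ‖w - c‖) - ‖w - c‖ / (2 * r + ‖w - c‖))) := by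
  have hB := BB_pos
  set d := ‖w - c‖ with hd
  have hd0 : 0 ≤ d := norm_nonneg _
  have he : d / (r + d) - d / (2 * r + d) = d * r / ((r + d) * (2 * r + d)) := by
    field_simp; ring
  rw [he]
  by_cases h : d ≤ r / 2
  · rw [bump_one hr (by linarith), mul_one]
    refine ((dom_dbar_bump_centre c hr).add (dom_const c (r := 2 * r) (by positivity)
      (2 * BB / r * (2 * d / r ^ 2)))).mono (fun z => ?_) ?_
    · by_cases h1 : ‖z - c‖ ≤ r
      · rw [dbar_bump_inner hr h1]
        simp only [norm_zero, zero_mul, zero_add]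
        exact indicator_nonneg (fun _ _ => by positivity) z
      push Not at h1
      have h2 := norm_dbar_bump_le c z hr
      by_cases hz : z ∈ ball c (2 * r)
      · rw [indicator_of_mem hz] at h2 ⊢
        have h3 : ‖z - c‖ ≤ ‖z - w‖ + d := by
          have := norm_add_le (z - w) (w - c)
          rwa [sub_add_sub_cancel] at this
        have h4 : r / 2 ≤ ‖z - w‖ := by linarith
        have h5 : 0 < ‖z - w‖ := by linarith
        have h6 : 0 < ‖z - c‖ := by linarith
        have h7 : ‖z - w‖⁻¹ ≤ ‖z - c‖⁻¹ + 2 * d / r ^ 2 := by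
          have h8 : ‖z - w‖⁻¹ ≤ ‖z - c‖⁻¹ + d / (‖z - w‖ * ‖z - c‖) := by
            rw [← sub_nonneg]
            have : ‖z - c‖⁻¹ + d / (‖z - w‖ * ‖z - c‖) - ‖z - w‖⁻¹ =
                (‖z - w‖ + d - ‖z - c‖) / (‖z - w‖ * ‖z - c‖) := by field_simp
            rw [this]
            exact div_nonneg (by linarith) (by positivity)
          have h9 : d / (‖z - w‖ * ‖z - c‖) ≤ d / (r / 2 * r) := by gcongr
          have h10 : d / (r / 2 * r) = 2 * d / r ^ 2 := by field_simp
          linarith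
        calc ‖dbar (fun z => (bump c r z : ℂ)) z‖ * ‖z - w‖⁻¹
            ≤ ‖dbar (fun z => (bump c r z : ℂ)) z‖ * (‖z - c‖⁻¹ + 2 * d / r ^ 2) := by gcongr
          _ ≤ _ := by rw [mul_add]; gcongr
      · rw [indicator_of_notMem hz] at h2 ⊢
        rw [norm_le_zero_iff.1 h2]; simp
    · have h1 : 2 * BB / r * (2 * d / r ^ 2) * (π * (2 * r) ^ 2) = 16 * π * BB * (d / r) := by
        field_simp; ring
      have h2 : d / r ≤ 4 * (d * r / ((r + d) * (2 * r + d))) := by
        rw [← mul_div_assoc, div_le_div_iff₀ hr (by positivity)]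
        have : (r + d) * (2 * r + d) ≤ 4 * r * r := by nlinarith
        nlinarith
      have h3 : 0 ≤ d * r / ((r + d) * (2 * r + d)) := by positivity
      rw [h1]
      have h4 : 16 * π * BB * (d / r) ≤ 16 * 4 * BB * (4 * (d * r / ((r + d) * (2 * r + d)))) := by
        have := pi_le_four
        gcongr
      nlinarith [mul_nonneg hB.le h3]
  · push Not at h
    have hd1 : 0 < d := by linarith
    refine (dom_dbar_bump_far c w hr hd1).mono (fun _ => le_rfl) ?_
    have h2 : r / d ≤ 15 * (d * r / ((r + d) * (2 * r + d))) := by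
      rw [← mul_div_assoc, div_le_div_iff₀ hd1 (by positivity)]
      have : (r + d) * (2 * r + d) ≤ 15 * d * d := by nlinarith
      nlinarith
    have h3 : 0 ≤ d * r / ((r + d) * (2 * r + d)) := by positivity
    have h4 : 0 ≤ π * bump c r w := mul_nonneg pi_pos.le (bump_nonneg _ _ _)
    rw [mul_div_assoc]
    have h5 : 160 * BB * (r / d) ≤ 160 * BB * (15 * (d * r / ((r + d) * (2 * r + d)))) := by
      gcongr
    nlinarith [mul_nonneg hB.le h3]

end Pool.Agent.P.MP_f981b0_an.R1
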