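import Pool.Agent.P.MP_f981b0_an.R1.Limit

set_option autoImplicit false

noncomputable section

namespace Pool.Agent.P.MP_f981b0_an.R1

open Metric Set Filter Topology

variable {X : Type*} [TopologicalSpace X] [CompactSpace X]
variable {E : Type*} [NormedAddCommGroup E] [NormedSpace ℂ E]

/-- The difference quotient of `f` at `w`, composed with `a`. -/
def qq (f : C(ℂ, ℂ)) (a : C(X, ℂ)) (w : ℂ) : C(X, ℂ) :=
  ContinuousMap.mkD (fun x => dslope f w (a x)) 0

omit [CompactSpace X] in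
theorem qq_apply {f : C(ℂ, ℂ)} (a : C(X, ℂ)) {w : ℂ} (hd : DifferentiableAt ℂ f w) (x : X) :
    qq f a w x = dslope f w (a x) :=
  ContinuousMap.mkD_apply_of_continuous ((continuous_dslope f.continuous hd).comp a.continuous)

omit [CompactSpace X] in
theorem qq_mul {f : C(ℂ, ℂ)} (a : C(X, ℂ)) {w : ℂ} (hd : DifferentiableAt ℂ f w) :
    a * qq f a w - w • qq f a w = f.comp a - f w • 1 := by
  ext x
  have := sub_smul_dslope f w (a x)
  simp only [ContinuousMap.sub_apply, ContinuousMap.mul_apply, ContinuousMap.smul_apply,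
    qq_apply a hd, ContinuousMap.comp_apply, ContinuousMap.one_apply, smul_eq_mul, mul_one] at *
  rw [← this]
  ring

section

variable {f : C(ℂ, ℂ)} {t : ℂ} {r C : ℝ}

theorem diffAt_of_notMem (hd : DifferentiableOn ℂ f (closedBall t r)ᶜ) {w : ℂ}
    (hw : w ∉ closedBall t r) : DifferentiableAt ℂ f w :=
  hd.differentiableAt (isClosed_closedBall.isOpen_compl.mem_nhds hw)

theorem norm_qq_le (a : C(X, ℂ)) (hd : DifferentiableOn ℂ f (closedBall t r)ᶜ)
    (hC : ∀ z, ‖f z‖ ≤ C) {w : ℂ} (hw : w ∉ closedBall t r) :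
    ‖qq f a w‖ ≤ 2 * C / (‖w - t‖ - r) := by
  have hp := pos_of_notMem hw
  have hC0 : 0 ≤ C := (norm_nonneg _).trans (hC w)
  refine (ContinuousMap.norm_le _ (by positivity)).2 fun x => ?_
  rw [qq_apply a (diffAt_of_notMem hd hw)]
  exact norm_dslope_le hp (hd.mono ball_subset_compl) hC _

theorem diff_qq (a : C(X, ℂ)) (hd : DifferentiableOn ℂ f (closedBall t r)ᶜ)
    (hC : ∀ z, ‖f z‖ ≤ C) : DifferentiableOn ℂ (qq f a) (closedBall t r)ᶜ := by
  intro w hw
  have hp := pos_of_notMem hw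
  have hC0 : 0 ≤ C := (norm_nonneg _).trans (hC w)
  set δ : ℝ := (‖w - t‖ - r) / 4 with hδ
  have hδ0 : 0 < δ := by positivity
  have hsub : ball w (2 * δ) ⊆ (closedBall t r)ᶜ :=
    (ball_subset_ball (by linarith)).trans ball_subset_compl
  have hs : ball w (δ / 2) ⊆ (closedBall t r)ᶜ :=
    (ball_subset_ball (by linarith)).trans hsub
  have h3 : Three (qq f a) w (δ / 2) (2 * (2 * C / (2 * δ)) / δ ^ 2) := by
    intro b hb c hc hbw hcw
    refine (ContinuousMap.norm_le _ (by positivity)).2 fun x => ?_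
    have hx : Three (dslope f (a x)) w (δ / 2) (2 * (2 * C / (2 * δ)) / δ ^ 2) := by
      refine three_of_diff hδ0
        ((differentiableOn_dslope_open isClosed_closedBall.isOpen_compl hd _).mono hsub)
        fun z hz => ?_
      rw [dslope_comm]
      refine norm_dslope_le (by positivity) (hd.mono ?_) hC _
      refine Subset.trans (fun y hy => ?_) (ball_subset_compl (w := w))
      rw [mem_ball] at *
      linarith [dist_triangle y z w]
    have := hx b hb c hc hbw hcw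
    simp only [slope_def_module, ContinuousMap.sub_apply, ContinuousMap.smul_apply,
      qq_apply a (diffAt_of_notMem hd hw), qq_apply a (diffAt_of_notMem hd (hs hb)),
      qq_apply a (diffAt_of_notMem hd (hs hc))] at this ⊢
    rw [dslope_comm f b, dslope_comm f c, dslope_comm f w]
    exact this
  exact (diff_of_three (by positivity) h3).differentiableWithinAt

end

/-- A continuous algebra homomorphism as a continuous linear map. -/
def clm (Θ : C(X, ℂ) →ₐ[ℂ] (E →L[ℂ] E)) (hΘ : Continuous Θ) : C(X, ℂ) →L[ℂ] (E →L[ℂ] E) :=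
  ⟨Θ.toLinearMap, hΘ⟩

@[simp] theorem clm_apply (Θ : C(X, ℂ) →ₐ[ℂ] (E →L[ℂ] E)) (hΘ : Continuous Θ) (G : C(X, ℂ)) :
    clm Θ hΘ G = Θ G := rfl

theorem norm_apply_le (Θ : C(X, ℂ) →ₐ[ℂ] (E →L[ℂ] E)) (hΘ : Continuous Θ) (G : C(X, ℂ)) (x : E) :
    ‖Θ G x‖ ≤ ‖clm Θ hΘ‖ * ‖G‖ * ‖x‖ :=
  ((Θ G).le_opNorm x).trans
    (mul_le_mul_of_nonneg_right ((clm Θ hΘ).le_opNorm G) (norm_nonneg x))

section

variable (Θ : C(X, ℂ) →ₐ[ℂ] (E →L[ℂ] E)) (hΘ : Continuous Θ) (a : C(X, ℂ))
variable {f : C(ℂ, ℂ)} {t : ℂ} {r C : ℝ}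

omit [CompactSpace X] in
theorem theta_qq {w : ℂ} (hd : DifferentiableAt ℂ f w) (x : E) :
    Θ a (Θ (qq f a w) x) - w • Θ (qq f a w) x = Θ (f.comp a) x - f w • x := by
  have := congrArg (fun G => Θ G x) (qq_mul a hd)
  simpa using this

include hΘ in
theorem diff_theta_qq (hd : DifferentiableOn ℂ f (closedBall t r)ᶜ) (hC : ∀ z, ‖f z‖ ≤ C)
    (x : E) : DifferentiableOn ℂ (fun w => Θ (qq f a w) x) (closedBall t r)ᶜ :=
  ((clm Θ hΘ).differentiable.comp_differentiableOn (diff_qq a hd hC)).clm_apply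
    (differentiableOn_const x)

theorem norm_theta_qq (hd : DifferentiableOn ℂ f (closedBall t r)ᶜ) (hC : ∀ z, ‖f z‖ ≤ C)
    (x : E) {w : ℂ} (hw : w ∉ closedBall t r) :
    ‖Θ (qq f a w) x‖ ≤ (‖clm Θ hΘ‖ * (2 * C) * ‖x‖) / (‖w - t‖ - r) := by
  refine (norm_apply_le Θ hΘ _ x).trans ?_
  have := norm_qq_le a hd hC hw
  calc ‖clm Θ hΘ‖ * ‖qq f a w‖ * ‖x‖ ≤ ‖clm Θ hΘ‖ * (2 * C / (‖w - t‖ - r)) * ‖x‖ := by gcongr
    _ = _ := by ring

include hΘ in
/-- Exact local resolvents. -/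
theorem loc_of_exact (u : E) (v : StrongDual ℂ E)
    (hd : DifferentiableOn ℂ f (closedBall t r)ᶜ) (hC : ∀ z, ‖f z‖ ≤ C) (x : E)
    (h : ∀ w, w ∉ closedBall t r → v (Θ (qq f a w) x) • u = f w • x) :
    Loc (Θ a + v.smulRight u) (closedBall t r) (Θ (f.comp a) x) := by
  refine ⟨fun w => Θ (qq f a w) x, diff_theta_qq Θ hΘ a hd hC x,
    tendsto_zero_of_bound fun w hw => norm_theta_qq Θ hΘ a hd hC x hw, fun w hw => ?_⟩
  have := theta_qq Θ a (diffAt_of_notMem hd hw) x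
  rw [ContinuousLinearMap.add_apply, ContinuousLinearMap.smulRight_apply, h w hw, add_sub_right_comm, this]
  abel

include hΘ in
/-- Approximate local resolvents. -/
theorem loc_of_approx [CompleteSpace E] (hE : Refl E) (u : E) (hu : u ≠ 0) (v : StrongDual ℂ E)
    {F : ℕ → C(ℂ, ℂ)} (hd : ∀ k, DifferentiableOn ℂ (F k) (closedBall t r)ᶜ)
    (hC : ∀ k z, ‖F k z‖ ≤ C)
    (h : ∀ w, w ∉ closedBall t r →
      Tendsto (fun k => v (Θ (qq (F k) a w) u) - F k w) atTop (𝓝 0))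
    {w0 : ℂ} (hw0 : w0 ∉ closedBall t r) {c : ℝ} (hc : 0 < c) (hc' : ∀ k, c ≤ ‖F k w0‖)
    (hinj : ∀ x, (Θ a + v.smulRight u) x = w0 • x → x = 0) :
    ∃ y, y ≠ 0 ∧ Loc (Θ a + v.smulRight u) (closedBall t r) y := by
  let U : Ultrafilter ℕ := Ultrafilter.of atTop
  have hU : (U : Filter ℕ) ≤ atTop := Ultrafilter.of_le _
  have hC0 : 0 ≤ C := (norm_nonneg _).trans (hC 0 0)
  obtain ⟨y, g, h1, h2, h3, h4⟩ := hE.loc_limit (Θ a + v.smulRight u) U
    (g := fun k w => Θ (qq (F k) a w) u) (y := fun k => Θ ((F k).comp a) u)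
    (B := ‖clm Θ hΘ‖ * C * ‖u‖)
    (fun k => diff_theta_qq Θ hΘ a (hd k) (hC k) u)
    (fun k w hw => norm_theta_qq Θ hΘ a (hd k) (hC k) u hw)
    (fun k => by
      refine (norm_apply_le Θ hΘ _ u).trans ?_
      have : ‖(F k).comp a‖ ≤ C := (ContinuousMap.norm_le _ hC0).2 fun x => hC k _
      gcongr)
    (fun w hw => by
      have h5 := ((h w hw).mono_left hU).smul_const u
      rw [zero_smul] at h5
      refine h5.congr fun k => ?_
      have := theta_qq Θ a (diffAt_of_notMem (hd k) hw) u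
      rw [ContinuousLinearMap.add_apply, ContinuousLinearMap.smulRight_apply, add_sub_right_comm, this, sub_smul]
      abel)
  refine ⟨y, ?_, h1⟩
  rintro rfl
  have hg0 : g w0 = 0 := hinj _ (sub_eq_zero.1 (h2 w0 hw0))
  obtain ⟨e, he⟩ := SeparatingDual.exists_eq_one (R := ℂ) hu
  have h5 := (h3 e).sub ((h4 w0 hw0 (e.comp (Θ a))).sub ((h4 w0 hw0 e).const_smul w0))
  simp only [hg0, map_zero, smul_zero, sub_zero] at h5
  have h6 : Tendsto (fun k => F k w0) U (𝓝 0) := by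
    refine h5.congr fun k => ?_
    have := congrArg e (theta_qq Θ a (diffAt_of_notMem (hd k) hw0) u)
    simp only [map_sub, map_smul, he, smul_eq_mul, mul_one] at this
    simp only [ContinuousLinearMap.comp_apply, smul_eq_mul, this]
    ring
  have h7 := ge_of_tendsto h6.norm (Eventually.of_forall hc')
  simp at h7
  linarith

end

end Pool.Agent.P.MP_f981b0_an.R1
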