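import Pool.Agent.P.MP_f981b0_an.R1.Calc
import Pool.Agent.P.MP_f981b0_an.Lom.Hilden

set_option autoImplicit false

noncomputable section

namespace Pool.Agent.P.MP_f981b0_an.R1

open Metric Set Filter Topology

variable {X : Type*} [TopologicalSpace X] [CompactSpace X]
variable {E : Type*} [NormedAddCommGroup E] [NormedSpace ℂ E]

/-- The support of a family of vectors. -/
theorem exists_supp [T2Space X] (Θ : C(X, ℂ) →ₐ[ℂ] (E →L[ℂ] E)) (hΘ : Continuous Θ)
    (a : C(X, ℂ)) (S : Set E) : ∃ A : Set ℂ, IsCompact A ∧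
      ∀ g : C(ℂ, ℂ), (∀ x ∈ S, Θ (g.comp a) x = 0) ↔ ∀ t ∈ A, g t = 0 := by
  let I : Ideal C(X, ℂ) :=
    { carrier := {G | ∀ x ∈ S, Θ G x = 0}
      zero_mem' := fun x _ => by simp
      add_mem' := fun {G H} hG hH x hx => by simp [hG x hx, hH x hx]
      smul_mem' := fun c G hG x hx => by simp [hG x hx] }
  have hI : IsClosed (I : Set C(X, ℂ)) := by
    have : (I : Set C(X, ℂ)) = ⋂ x ∈ S, {G | Θ G x = 0} := by
      ext G
      simp [I]
    rw [this]
    exact isClosed_biInter fun x _ => isClosed_eq (hΘ.clm_apply continuous_const) continuous_const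
  refine ⟨a '' (ContinuousMap.setOfIdeal I)ᶜ,
    (ContinuousMap.setOfIdeal_open I).isClosed_compl.isCompact.image a.continuous, fun g => ?_⟩
  have h1 : (∀ x ∈ S, Θ (g.comp a) x = 0) ↔ g.comp a ∈ I := Iff.rfl
  rw [h1, forall_mem_image]
  conv_lhs => rw [← ContinuousMap.idealOfSet_ofIdeal_isClosed hI]
  exact ContinuousMap.mem_idealOfSet

/-- A continuous tent function. -/
def tent (t : ℂ) (ρ : ℝ) : C(ℂ, ℂ) := ⟨fun z => ((max 0 (ρ - ‖z - t‖) : ℝ) : ℂ), by fun_prop⟩

theorem tent_zero {t z : ℂ} {ρ : ℝ} (h : z ∉ ball t ρ) : tent t ρ z = 0 := by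
  rw [mem_ball, dist_eq_norm, not_lt] at h
  simp [tent, h]

theorem tent_self (t : ℂ) {ρ : ℝ} (h : 0 < ρ) : tent t ρ t ≠ 0 := by
  simp [tent, h.le, h.ne']

theorem norm_tent_le (t z : ℂ) {ρ : ℝ} (h : 0 < ρ) : ‖tent t ρ z‖ ≤ ρ := by
  simp only [tent, ContinuousMap.coe_mk, Complex.norm_real, Real.norm_eq_abs]
  rw [abs_of_nonneg (le_max_left _ _)]
  exact max_le h.le (by linarith [norm_nonneg (z - t)])

/-- Points of the support of the calculus outside the support of `v`. -/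
theorem good_of_gap (Θ : C(X, ℂ) →ₐ[ℂ] (E →L[ℂ] E)) (hΘ : Continuous Θ) (a : C(X, ℂ)) (u : E)
    (v : StrongDual ℂ E) {t : ℂ} {r δ : ℝ} (hr : 0 < r) (hδ : 0 < δ)
    (ht : ∀ g : C(ℂ, ℂ), (∀ x, Θ (g.comp a) x = 0) → g t = 0)
    (hv : ∀ g : C(ℂ, ℂ), (∀ z, z ∉ ball t δ → g z = 0) → ∀ x, v (Θ (g.comp a) x) = 0) :
    ∃ y, y ≠ 0 ∧ Loc (Θ a + v.smulRight u) (closedBall t r) y := by
  set ρ := min r δ with hρ
  have hρ0 : 0 < ρ := lt_min hr hδ
  obtain ⟨x, hx⟩ : ∃ x, Θ ((tent t ρ).comp a) x ≠ 0 := by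
    by_contra hcon
    push Not at hcon
    exact tent_self t hρ0 (ht _ hcon)
  have hz : ∀ w, w ∉ closedBall t r → tent t ρ =ᶠ[𝓝 w] fun _ => 0 := fun w hw =>
    mem_of_superset (isClosed_closedBall.isOpen_compl.mem_nhds hw) fun z hz =>
      tent_zero fun h => hz (ball_subset_closedBall (ball_subset_ball (min_le_left _ _) h))
  have hd : DifferentiableOn ℂ (tent t ρ) (closedBall t r)ᶜ := fun w hw =>
    ((differentiableAt_const (0 : ℂ)).congr_of_eventuallyEq (hz w hw)).differentiableWithinAt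
  refine ⟨_, hx, loc_of_exact Θ hΘ a u v hd (fun z => norm_tent_le t z hρ0) x fun w hw => ?_⟩
  have hw0 : tent t ρ w = 0 := (hz w hw).self_of_nhds
  have hdw := diffAt_of_notMem hd hw
  have h1 : qq (tent t ρ) a w =
      (⟨dslope (tent t ρ) w, continuous_dslope (tent t ρ).continuous hdw⟩ : C(ℂ, ℂ)).comp a := by
    ext y
    exact qq_apply a hdw y
  rw [h1, hv _ fun z hz' => ?_, hw0, zero_smul, zero_smul]
  rcases eq_or_ne z w with rfl | hzw
  · simp only [ContinuousMap.coe_mk, dslope_same]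
    rw [(hz z hw).deriv_eq]
    simp
  · simp only [ContinuousMap.coe_mk]
    rw [dslope_of_ne _ hzw, slope_def_field, hw0,
      tent_zero fun h => hz' (ball_subset_ball (min_le_right _ _) h)]
    simp

omit [CompactSpace X] in
theorem theta_mul_id (Θ : C(X, ℂ) →ₐ[ℂ] (E →L[ℂ] E)) (a : C(X, ℂ)) (g : C(ℂ, ℂ)) (x : E) :
    Θ a (Θ (g.comp a) x) = Θ ((ContinuousMap.id ℂ * g).comp a) x := by
  have : (ContinuousMap.id ℂ * g).comp a = a * g.comp a := by
    ext y
    simp
  rw [this, map_mul]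
  rfl

omit [CompactSpace X] in
/-- If the support of `u` is finite and there is no eigenvector then `u = 0`. -/
theorem eq_zero_of_finite (Θ : C(X, ℂ) →ₐ[ℂ] (E →L[ℂ] E)) (a : C(X, ℂ)) (u : E)
    (v : StrongDual ℂ E) {Z : Set ℂ} (hfin : Z.Finite)
    (hZ : ∀ g : C(ℂ, ℂ), (∀ ζ ∈ Z, g ζ = 0) → Θ (g.comp a) u = 0)
    (hinj : ∀ (w : ℂ) (x : E), (Θ a + v.smulRight u) x = w • x → x = 0) : u = 0 := by
  by_contra hu
  let Φ : C(ℂ, ℂ) →ₗ[ℂ] E :=
    { toFun := fun g => Θ (g.comp a) u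
      map_add' := fun g h => by simp [ContinuousMap.add_comp]
      map_smul' := fun c g => by simp [ContinuousMap.smul_comp] }
  let ρ : C(ℂ, ℂ) →ₗ[ℂ] (Z → ℂ) :=
    { toFun := fun g ζ => g ζ
      map_add' := fun g h => rfl
      map_smul' := fun c g => rfl }
  have hle : LinearMap.ker ρ ≤ LinearMap.ker Φ := fun g hg =>
    hZ g fun ζ hζ => congrFun hg ⟨ζ, hζ⟩
  have : Finite Z := hfin
  have h1 : FiniteDimensional ℂ (C(ℂ, ℂ) ⧸ LinearMap.ker ρ) :=
    ρ.quotKerEquivRange.symm.finiteDimensional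
  have h2 : FiniteDimensional ℂ (LinearMap.range Φ) := by
    rw [← Submodule.range_liftQ (LinearMap.ker ρ) Φ hle]
    infer_instance
  have hu1 : Φ 1 = u := by
    change Θ ((1 : C(ℂ, ℂ)).comp a) u = u
    rw [ContinuousMap.one_comp, map_one]
    rfl
  obtain ⟨x, -, hx0, μ, hμ⟩ := Lom.exists_eigenvector_of_finiteDimensional
    (Θ a + v.smulRight u) (LinearMap.range Φ) (fun h => by
      have : u ∈ LinearMap.range Φ := ⟨1, hu1⟩
      rw [h] at this
      exact hu (by simpa using this)) (by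
      rintro _ ⟨g, rfl⟩
      refine Submodule.add_mem _ ⟨ContinuousMap.id ℂ * g, (theta_mul_id Θ a g u).symm⟩ ?_
      exact Submodule.smul_mem _ _ ⟨1, hu1⟩)
  exact hx0 (hinj μ x hμ)

theorem isCompactOperator_smulRight (e : StrongDual ℂ E) (x : E) :
    IsCompactOperator (e.smulRight x) :=
  (isCompactOperator_of_locallyCompactSpace_dom e).clm_comp (ContinuousLinearMap.toSpanSingleton ℂ x)

section Compact

variable (Θ : C(X, ℂ) →ₐ[ℂ] (E →L[ℂ] E)) (a : C(X, ℂ)) (u : E) (v : StrongDual ℂ E) {K : Set ℂ}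
  (hK : ∀ g : C(ℂ, ℂ), (∀ ζ ∈ K, g ζ = 0) → ∀ x, Θ (g.comp a) x = 0)
  (hinj : ∀ (w : ℂ) (x : E), (Θ a + v.smulRight u) x = w • x → x = 0)

include hK hinj

omit [CompactSpace X] in
theorem compact_of_single {μ : ℂ} {g : C(ℂ, ℂ)} (hg : ∀ ζ ∈ K, ζ ≠ μ → g ζ = 0) :
    IsCompactOperator (Θ (g.comp a)) := by
  have heig : ∀ x, Θ a (Θ (g.comp a) x) = μ • Θ (g.comp a) x := by
    intro x
    have h1 := hK (ContinuousMap.id ℂ * g - μ • g) (fun ζ hζ => by
      by_cases h : ζ = μ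
      · simp [h]
      · simp [hg ζ hζ h]) x
    rw [ContinuousMap.sub_comp, ContinuousMap.smul_comp, map_sub, map_smul] at h1
    rw [theta_mul_id]
    exact sub_eq_zero.1 h1
  have hv : ∀ x, v (Θ (g.comp a) x) = 0 → Θ (g.comp a) x = 0 := fun x hx =>
    hinj μ _ (by simp [heig, hx])
  by_cases h0 : ∀ x, Θ (g.comp a) x = 0
  · have : Θ (g.comp a) = 0 := ContinuousLinearMap.ext h0
    rw [this]
    exact isCompactOperator_zero
  · push Not at h0
    obtain ⟨x0, hx0⟩ := h0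
    have hc : v (Θ (g.comp a) x0) ≠ 0 := fun h => hx0 (hv x0 h)
    have : Θ (g.comp a) = ContinuousLinearMap.smulRight (v.comp (Θ (g.comp a)))
        ((v (Θ (g.comp a) x0))⁻¹ • Θ (g.comp a) x0) := by
      ext x
      have h1 := hv (x - (v (Θ (g.comp a) x) * (v (Θ (g.comp a) x0))⁻¹) • x0) (by
        simp only [map_sub, map_smul, smul_eq_mul]
        field_simp
        ring)
      rw [map_sub, map_smul, sub_eq_zero] at h1
      rw [ContinuousLinearMap.smulRight_apply, smul_smul]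
      exact h1
    rw [this]
    exact isCompactOperator_smulRight _ _

omit [CompactSpace X] in
theorem compact_of_finite (P : Finset ℂ) (hP : ∀ μ ∈ P, ¬ AccPt μ (𝓟 K)) :
    ∀ g : C(ℂ, ℂ), (∀ ζ ∈ K, ζ ∉ P → g ζ = 0) → IsCompactOperator (Θ (g.comp a)) := by
  classical
  induction P using Finset.induction_on with
  | empty =>
    intro g hg
    exact compact_of_single Θ a u v hK hinj (μ := 0) fun ζ hζ _ => hg ζ hζ (by simp)
  | insert μ P hμ ih =>
    intro g hg
    have h1 := hP μ (Finset.mem_insert_self _ _)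
    rw [accPt_iff_nhds] at h1
    push Not at h1
    obtain ⟨U, hU, hU'⟩ := h1
    obtain ⟨δ, hδ, hδU⟩ := Metric.mem_nhds_iff.1 hU
    have hb : ∀ ζ ∈ K, ζ ≠ μ → tent μ δ ζ = 0 := fun ζ hζ hne =>
      tent_zero fun h => hne (hU' ζ ⟨hδU h, hζ⟩)
    have hb0 := tent_self μ hδ
    have h2 := compact_of_single Θ a u v hK hinj (μ := μ)
      (g := (g μ / tent μ δ μ) • tent μ δ) fun ζ hζ hne => by simp [hb ζ hζ hne]
    have h3 := ih (fun ν hν => hP ν (Finset.mem_insert_of_mem hν))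
      (g - (g μ / tent μ δ μ) • tent μ δ) fun ζ hζ hζP => by
        by_cases h : ζ = μ
        · subst h
          simp [hb0]
        · simp [hb ζ hζ h, hg ζ hζ (by simp [h, hζP])]
    have h4 : Θ (g.comp a) = Θ ((g - (g μ / tent μ δ μ) • tent μ δ).comp a) +
        Θ (((g μ / tent μ δ μ) • tent μ δ).comp a) := by
      rw [← map_add, ← ContinuousMap.add_comp, sub_add_cancel]
    rw [h4]
    exact h3.add h2

theorem compact_of_acc [CompleteSpace E] (hΘ : Continuous Θ) (hKc : IsCompact K) {l : ℂ}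
    (hl : ∀ t, AccPt t (𝓟 K) → t = l) : IsCompactOperator (Θ a - l • 1 : E →L[ℂ] E) := by
  let tr : ℝ → ℂ → ℂ := fun δ z => ((δ / max ‖z - l‖ δ : ℝ) : ℂ) * (z - l)
  have htr : ∀ δ, 0 < δ → Continuous (tr δ) := fun δ hδ =>
    (Complex.continuous_ofReal.comp (continuous_const.div (by fun_prop) fun z =>
      (lt_max_of_lt_right hδ).ne')).mul (by fun_prop)
  have htr1 : ∀ δ, 0 < δ → ∀ z, ‖tr δ z‖ ≤ δ := fun δ hδ z => by
    have hm : 0 < max ‖z - l‖ δ := lt_max_of_lt_right hδ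
    simp only [tr, norm_mul, Complex.norm_real, Real.norm_eq_abs]
    rw [abs_of_nonneg (by positivity), div_mul_eq_mul_div, div_le_iff₀ hm]
    exact mul_le_mul_of_nonneg_left (le_max_left _ _) hδ.le
  have htr2 : ∀ δ, 0 < δ → ∀ z ∈ ball l δ, tr δ z = z - l := fun δ hδ z hz => by
    rw [mem_ball, dist_eq_norm] at hz
    simp [tr, max_eq_right hz.le, hδ.ne']
  have hpos : ∀ k : ℕ, (0 : ℝ) < 1 / ((k : ℝ) + 1) := fun k => by positivity
  let g : ℕ → C(ℂ, ℂ) := fun k =>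
    ⟨fun z => z - l - tr (1 / ((k : ℝ) + 1)) z, (by fun_prop : Continuous fun z : ℂ => z - l).sub
      (htr _ (hpos k))⟩
  have h1 : ∀ k, IsCompactOperator (Θ ((g k).comp a)) := by
    intro k
    have hfin : (K \ ball l (1 / ((k : ℝ) + 1))).Finite := by
      by_contra hinf
      obtain ⟨t, ht, hacc⟩ := Set.Infinite.exists_accPt_of_subset_isCompact hinf
        (hKc.diff isOpen_ball) subset_rfl
      have := hl t (hacc.mono (principal_mono.2 diff_subset))
      exact ht.2 (this ▸ mem_ball_self (hpos k))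
    refine compact_of_finite Θ a u v hK hinj hfin.toFinset (fun μ hμ hacc => ?_) _ fun ζ hζ h => ?_
    · rw [Finite.mem_toFinset] at hμ
      exact hμ.2 (hl μ hacc ▸ mem_ball_self (hpos k))
    · rw [Finite.mem_toFinset] at h
      have : ζ ∈ ball l (1 / ((k : ℝ) + 1)) := by
        by_contra hcon
        exact h ⟨hζ, hcon⟩
      simp only [g, ContinuousMap.coe_mk, htr2 _ (hpos k) ζ this, sub_self]
  have h2 : Tendsto (fun k => (g k).comp a) atTop (𝓝 (a - l • 1)) := by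
    rw [tendsto_iff_norm_sub_tendsto_zero]
    refine squeeze_zero (fun k => norm_nonneg _) (fun k => ?_)
      tendsto_one_div_add_atTop_nhds_zero_nat
    refine (ContinuousMap.norm_le _ (hpos k).le).2 fun x => ?_
    simpa [g] using htr1 _ (hpos k) (a x)
  have h3 := (hΘ.tendsto _).comp h2
  rw [map_sub, map_smul, map_one] at h3
  exact isCompactOperator_of_tendsto h3 (Eventually.of_forall h1)

theorem hyper_of_acc [CompleteSpace E] (hΘ : Continuous Θ) (hKc : IsCompact K) {l : ℂ}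
    (hl : ∀ t, AccPt t (𝓟 K) → t = l) (hs : ∀ c : ℂ, Θ a + v.smulRight u ≠ c • 1) :
    Hyper (Θ a + v.smulRight u) := by
  have h1 := (compact_of_acc Θ a u v hK hinj hΘ hKc hl).add (isCompactOperator_smulRight v u)
  obtain ⟨M, h2, h3, h4, h5⟩ := Lom.exists_hyperinvariant_of_compact
    (Θ a - l • 1 + v.smulRight u) h1 fun c hc => hs (c + l) (by
      rw [add_smul, ← hc]
      abel)
  refine ⟨M, h2, h3, h4, fun A hA => h5 A ?_⟩
  have : Θ a - l • 1 + v.smulRight u = (Θ a + v.smulRight u) - l • 1 := by abel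
  rw [this, mul_sub, sub_mul, hA]
  simp

end Compact

end Pool.Agent.P.MP_f981b0_an.R1
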