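import Pool.Agent.P.MP_f981b0_an.R1.Kernel

/-! The locally integrable function `F = 1 - ν(1/(z - a))` attached to a functional `ν`. -/

open MeasureTheory Metric Set Real Filter Topology

namespace Pool.Agent.P.MP_f981b0_an.R1

/-- The truncated Cauchy kernel. -/
noncomputable def tker (e : ℝ) (z : ℂ) : ℂ :=
  (starRingEnd ℂ) z / ((max (‖z‖ ^ 2) (e ^ 2) : ℝ) : ℂ)

lemma continuous_tker {e : ℝ} (he : 0 < e) : Continuous (tker e) := by
  refine Continuous.div (by fun_prop) (by fun_prop) fun z => ?_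
  have : 0 < max (‖z‖ ^ 2) (e ^ 2) := lt_max_of_lt_right (by positivity)
  exact_mod_cast this.ne'

lemma tker_far {e : ℝ} (he : 0 < e) {z : ℂ} (hz : e ≤ ‖z‖) : tker e z = z⁻¹ := by
  have h2 : max (‖z‖ ^ 2) (e ^ 2) = ‖z‖ ^ 2 := max_eq_left (pow_le_pow_left₀ he.le hz 2)
  have h3 : (‖z‖ : ℂ) ≠ 0 := by
    have : 0 < ‖z‖ := lt_of_lt_of_le he hz
    exact_mod_cast this.ne'
  apply eq_inv_of_mul_eq_one_left
  rw [tker, h2, div_mul_eq_mul_div, Complex.conj_mul']
  push_cast
  field_simp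

lemma norm_tker_le (e : ℝ) (z : ℂ) : ‖tker e z‖ ≤ ‖z‖⁻¹ := by
  rcases eq_or_ne z 0 with rfl | hz
  · simp [tker]
  have h1 : 0 < ‖z‖ := norm_pos_iff.mpr hz
  have h2 : 0 < max (‖z‖ ^ 2) (e ^ 2) := lt_max_of_lt_left (by positivity)
  rw [tker, norm_div, Complex.norm_conj, Complex.norm_real, Real.norm_of_nonneg h2.le,
    div_le_iff₀ h2, inv_mul_eq_div, le_div_iff₀ h1, ← sq]
  exact le_max_left _ _

section

variable {X : Type*} [TopologicalSpace X] [CompactSpace X]

/-- The truncated kernel as a continuous function with values in `C(X, ℂ)`. -/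
noncomputable def tkerC (a : C(X, ℂ)) {e : ℝ} (he : 0 < e) : C(ℂ, C(X, ℂ)) :=
  ContinuousMap.curry ⟨fun q : ℂ × X => tker e (q.1 - a q.2),
    (continuous_tker he).comp (by fun_prop)⟩

lemma intOn_tkerC (a : C(X, ℂ)) {e : ℝ} (he : 0 < e) :
    IntegrableOn (tkerC a he) (ball (0 : ℂ) 1) :=
  ((tkerC a he).continuous.continuousOn.integrableOn_compact
    (isCompact_closedBall 0 1)).mono_set ball_subset_closedBall

lemma tker_approx (ν : C(X, ℂ) →L[ℂ] ℂ) (a : C(X, ℂ)) {e : ℝ} (he : 0 < e) {φ : ℂ → ℂ}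
    (hφ : Test φ) {B : ℝ} (hB : ∀ z, ‖φ z‖ ≤ B) :
    ∃ J : C(X, ℂ), ν J = ∫ z in ball (0 : ℂ) 1, φ z * ν (tkerC a he z) ∧
      ∀ x, ‖J x - cauchy φ (a x)‖ ≤ B * (2 * (2 * π * e)) := by
  have hB0 : 0 ≤ B := (norm_nonneg _).trans (hB 0)
  have ik : IntegrableOn (fun z => φ z • tkerC a he z) (ball (0 : ℂ) 1) :=
    (intOn_tkerC a he).bdd_smul B hφ.meas.aestronglyMeasurable (Eventually.of_forall hB)
  refine ⟨∫ z in ball (0 : ℂ) 1, φ z • tkerC a he z, ?_, fun x => ?_⟩
  · rw [← ν.integral_comp_comm ik]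
    simp
  · have h1 := (ContinuousMap.evalCLM ℂ x).integral_comp_comm ik
    have h2 : (∫ z in ball (0 : ℂ) 1, φ z • tkerC a he z) x = ∫ z, φ z * tker e (z - a x) := by
      refine h1.symm.trans ?_
      refine setIntegral_eq_integral_of_forall_compl_eq_zero (f := fun z => φ z * tker e (z - a x))
        fun z hz => ?_
      rw [hφ.supp z (by simpa using hz), zero_mul]
    have hdom : ∀ k : ℂ → ℂ, Measurable k → (∀ z, ‖k z‖ ≤ ‖z - a x‖⁻¹) →
        Integrable fun z => φ z * k z := by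
      intro k hk hk1
      refine (((dom_ball 0 (a x) (r := 1) one_pos).const_mul hB0).mono (fun z => ?_)
        le_rfl).integrable (hφ.meas.mul hk).aestronglyMeasurable
      by_cases hz : z ∈ ball (0 : ℂ) 1
      · rw [indicator_of_mem hz, norm_mul]
        exact mul_le_mul (hB z) (hk1 z) (norm_nonneg _) hB0
      · rw [indicator_of_notMem hz, hφ.supp z (by simpa using hz)]
        simp
    have i1 := hdom (fun z => tker e (z - a x))
      ((continuous_tker he).measurable.comp (by fun_prop)) fun z => norm_tker_le e _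
    have i2 := hdom (fun z => (z - a x)⁻¹) (by fun_prop) fun z => by simp
    rw [h2, cauchy]
    simp only [div_eq_mul_inv]
    rw [← integral_sub i1 i2]
    refine ((((dom_self (a x) he.le).const_mul zero_le_two).const_mul hB0).mono (fun z => ?_)
      le_rfl).norm_integral_le
    by_cases hz : z ∈ ball (a x) e
    · rw [indicator_of_mem hz, ← mul_sub, norm_mul]
      refine mul_le_mul (hB z) ((norm_sub_le _ _).trans ?_) (norm_nonneg _) hB0
      have := norm_tker_le e (z - a x)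
      rw [norm_inv]
      linarith
    · rw [indicator_of_notMem hz]
      rw [mem_ball, dist_eq_norm, not_lt] at hz
      simp [tker_far he hz]

theorem exists_F (ν : C(X, ℂ) →L[ℂ] ℂ) (a : C(X, ℂ)) :
    ∃ F : ℂ → ℂ, IntegrableOn F (ball 0 1) ∧ ∀ φ, Test φ → ∀ G : C(X, ℂ),
      (∀ x, G x = cauchy φ (a x)) →
        ∫ z in ball (0 : ℂ) 1, φ z * F z = (∫ z in ball (0 : ℂ) 1, φ z) - ν G := by
  have he : ∀ n : ℕ, (0 : ℝ) < 1 / (n + 1) := fun n => by positivity
  set μ : Measure ℂ := volume.restrict (ball (0 : ℂ) 1) with hμ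
  let H : ℕ → ℂ → ℂ := fun n z => ν (tkerC a (he n) z)
  have cH : ∀ n, Continuous (H n) := fun n => ν.continuous.comp (tkerC a (he n)).continuous
  have iH : ∀ n, Integrable (H n) μ := fun n => ν.integrable_comp (intOn_tkerC a (he n))
  have hlim : Tendsto (fun n : ℕ => (1 : ℝ) / (n + 1)) atTop (𝓝 0) :=
    tendsto_one_div_add_atTop_nhds_zero_nat
  -- Cauchy in `L¹`
  have hC : CauchySeq fun n => (iH n).toL1 (H n) := by
    refine cauchySeq_of_le_tendsto_0' (fun n : ℕ => ‖ν‖ * (8 * π * (1 / (n + 1)))) ?_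
      (by simpa using (hlim.const_mul (8 * π)).const_mul ‖ν‖)
    intro n m hnm
    rw [dist_eq_norm, ← Integrable.toL1_sub, L1.norm_of_fun_eq_integral_norm]
    let φ : ℂ → ℂ := (ball (0 : ℂ) 1).indicator fun z =>
      (starRingEnd ℂ) (H n z - H m z) / (‖H n z - H m z‖ : ℂ)
    have hφ1 : ∀ z, ‖φ z‖ ≤ 1 := by
      intro z
      by_cases hz : z ∈ ball (0 : ℂ) 1
      · simp only [φ, indicator_of_mem hz, norm_div, Complex.norm_conj, Complex.norm_real,
          norm_norm]
        exact div_self_le_one _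
      · simp [φ, indicator_of_notMem hz]
    have hφ : Test φ := by
      refine ⟨Measurable.indicator ?_ measurableSet_ball, ⟨1, hφ1⟩, fun z hz => ?_⟩
      · have := (cH n).sub (cH m)
        exact (Complex.continuous_conj.comp this).measurable.div
          (Complex.continuous_ofReal.comp this.norm).measurable
      · exact indicator_of_notMem (by simpa using hz) _
    obtain ⟨J, hJ, hJ'⟩ := tker_approx ν a (he n) hφ hφ1
    obtain ⟨J', hK, hK'⟩ := tker_approx ν a (he m) hφ hφ1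
    have hb : ∀ k, Integrable (fun z => φ z * H k z) μ := fun k =>
      (iH k).bdd_mul hφ.meas.aestronglyMeasurable (Eventually.of_forall hφ1)
    have e1 : ((∫ z, ‖(H n - H m) z‖ ∂μ : ℝ) : ℂ) = ν (J - J') := by
      rw [map_sub, hJ, hK, ← integral_sub (hb n) (hb m), ← integral_complex_ofReal]
      refine setIntegral_congr_fun measurableSet_ball fun z hz => ?_
      simp only [φ, indicator_of_mem hz, Pi.sub_apply]
      rw [← mul_sub, div_mul_eq_mul_div, Complex.conj_mul']
      rcases eq_or_ne (‖H n z - H m z‖ : ℂ) 0 with h | h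
      · simp [h]
      · field_simp
    have e2 : ‖J - J'‖ ≤ 8 * π * (1 / (n + 1)) := by
      refine (ContinuousMap.norm_le _ (by positivity)).mpr fun x => ?_
      have h1 : (J - J') x = (J x - cauchy φ (a x)) - (J' x - cauchy φ (a x)) := by simp
      have h2 : (1 : ℝ) / (m + 1) ≤ 1 / (n + 1) := Nat.one_div_le_one_div hnm
      have h3 := mul_le_mul_of_nonneg_left h2 pi_pos.le
      rw [h1]
      refine (norm_sub_le _ _).trans ?_
      linarith [hJ' x, hK' x]
    have e3 : ∫ z, ‖(H n - H m) z‖ ∂μ ≤ ‖ν (J - J')‖ := by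
      rw [← e1, Complex.norm_real]
      exact le_abs_self _
    exact e3.trans ((ν.le_opNorm _).trans (by gcongr))
  obtain ⟨H₀, hH₀⟩ := cauchySeq_tendsto_of_complete hC
  have iH₀ : Integrable H₀ μ := L1.integrable_coeFn H₀
  have i1 : Integrable (fun _ : ℂ => (1 : ℂ)) μ := integrableOn_const measure_ball_lt_top.ne
  refine ⟨fun z => 1 - H₀ z, i1.sub iH₀, fun φ hφ G hG => ?_⟩
  obtain ⟨B, hB⟩ := hφ.bdd
  have hB0 : 0 ≤ B := (norm_nonneg _).trans (hB 0)
  have hb : ∀ k : ℂ → ℂ, Integrable k μ → Integrable (fun z => φ z * k z) μ := fun k hk =>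
    hk.bdd_mul hφ.meas.aestronglyMeasurable (Eventually.of_forall hB)
  have key : ∀ n : ℕ, ‖(∫ z, φ z * H₀ z ∂μ) - ν G‖ ≤
      B * dist ((iH n).toL1 (H n)) H₀ + ‖ν‖ * (B * (2 * (2 * π * (1 / (n + 1))))) := by
    intro n
    obtain ⟨J, hJ, hJ'⟩ := tker_approx ν a (he n) hφ hB
    have h1 : ‖ν J - ν G‖ ≤ ‖ν‖ * (B * (2 * (2 * π * (1 / (n + 1))))) := by
      rw [← map_sub]
      refine (ν.le_opNorm _).trans ?_
      gcongr
      refine (ContinuousMap.norm_le _ (by positivity)).mpr fun x => ?_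
      simpa [hG] using hJ' x
    have h2 : ‖(∫ z, φ z * H₀ z ∂μ) - ν J‖ ≤ B * dist ((iH n).toL1 (H n)) H₀ := by
      rw [hJ, ← integral_sub (hb _ iH₀) (hb _ (iH n)), L1.dist_eq_integral_dist,
        ← integral_const_mul]
      refine norm_integral_le_of_norm_le ?_ ?_
      · exact ((L1.integrable_coeFn ((iH n).toL1 (H n))).sub iH₀).norm.const_mul B |>.congr
          (Eventually.of_forall fun z => by simp only [dist_eq_norm, Pi.sub_apply])
      · filter_upwards [(iH n).coeFn_toL1] with z hz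
        rw [hz, ← mul_sub, norm_mul, dist_comm, dist_eq_norm]
        gcongr
        exact hB z
    calc ‖(∫ z, φ z * H₀ z ∂μ) - ν G‖
        = ‖((∫ z, φ z * H₀ z ∂μ) - ν J) + (ν J - ν G)‖ := by congr 1; ring
      _ ≤ _ := (norm_add_le _ _).trans (add_le_add h2 h1)
  have hz : ‖(∫ z, φ z * H₀ z ∂μ) - ν G‖ ≤ 0 := by
    have t1 := (tendsto_iff_dist_tendsto_zero.mp hH₀).const_mul B
    have t2 := ((((hlim.const_mul (2 * π)).const_mul 2).const_mul B).const_mul ‖ν‖)
    have t3 := t1.add t2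
    simp only [mul_zero, add_zero] at t3
    exact ge_of_tendsto' t3 key
  have h0 := sub_eq_zero.mp (norm_le_zero_iff.mp hz)
  have h3 := integral_sub (hb _ i1) (hb _ iH₀)
  simp only [mul_one] at h3
  simp only [mul_sub, mul_one]
  rw [h3, h0]

end

end Pool.Agent.P.MP_f981b0_an.R1
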