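import Pool.Agent.P.MP_f981b0_an.R1.Jump
import Pool.Agent.P.MP_f981b0_an.R1.Fun

set_option autoImplicit false

noncomputable section

namespace Pool.Agent.P.MP_f981b0_an.R1

open MeasureTheory Metric Set Filter Topology

theorem integrable_cauchy {φ : ℂ → ℂ} (h : Test φ) (w : ℂ) :
    Integrable fun z => φ z / (z - w) := h.integrable_kernel w

theorem exists_norm_cauchy_le {φ : ℂ → ℂ} (h : Test φ) : ∃ C : ℝ, ∀ w, ‖cauchy φ w‖ ≤ C := by
  obtain ⟨A, -, hA⟩ := h.exists_dom
  exact ⟨A, fun w => (hA w).norm_integral_le⟩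

theorem continuous_cauchy {φ : ℂ → ℂ} (h : Test φ) : Continuous (cauchy φ) := by
  obtain ⟨B, hB⟩ := h.bdd
  have hB0 : 0 ≤ B := (norm_nonneg _).trans (hB 0)
  rw [continuous_iff_continuousAt]
  intro w
  have : CompactSpace (closedBall w 1) := isCompact_iff_compactSpace.1 (isCompact_closedBall w 1)
  have h1 : Continuous fun x : closedBall w 1 => cauchy φ x := by
    refine continuous_of_uniform_approx_of_continuous fun U hU => ?_
    obtain ⟨ε, hε, hU'⟩ := Metric.mem_uniformity_dist.1 hU
    have hp := Real.pi_pos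
    have he : 0 < ε / (2 * (B + 1) * (4 * Real.pi)) := by positivity
    obtain ⟨J, -, hJ⟩ := tker_approx (X := closedBall w 1) 0
      ⟨fun x => (x : ℂ), continuous_subtype_val⟩ he h hB
    refine ⟨J, J.continuous, fun x => hU' ?_⟩
    rw [dist_comm, dist_eq_norm]
    refine (hJ x).trans_lt ?_
    have h2 : B * (2 * (2 * Real.pi * (ε / (2 * (B + 1) * (4 * Real.pi))))) =
        ε * (B / (2 * (B + 1))) := by
      field_simp
      ring
    rw [h2]
    refine mul_lt_of_lt_one_right hε ?_
    rw [div_lt_one (by positivity)]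
    linarith
  exact (continuousOn_iff_continuous_restrict.2 h1).continuousAt (closedBall_mem_nhds w one_pos)

theorem differentiableOn_cauchy {φ : ℂ → ℂ} (h : Test φ) :
    DifferentiableOn ℂ (cauchy φ) (closedBall 0 1)ᶜ := by
  obtain ⟨B, hB⟩ := h.bdd
  have hB0 : 0 ≤ B := (norm_nonneg _).trans (hB 0)
  have hm := h.meas
  intro w hw
  have hw' : 1 < ‖w‖ := by simpa using hw
  set δ : ℝ := (‖w‖ - 1) / 2 with hδ
  have hδ0 : 0 < δ := by linarith
  have hfar : ∀ z : ℂ, ‖z‖ < 1 → ∀ x ∈ ball w δ, δ ≤ ‖z - x‖ := by
    intro z hz x hx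
    rw [mem_ball, dist_eq_norm] at hx
    have h1 := norm_sub_norm_le w z
    have h2 := norm_sub_le_norm_sub_add_norm_sub w x z
    rw [norm_sub_rev w x, norm_sub_rev x z] at h2
    linarith
  have key := hasDerivAt_integral_of_dominated_loc_of_deriv_le (μ := (volume : Measure ℂ))
    (F := fun x z => φ z / (z - x)) (F' := fun x z => φ z / (z - x) ^ 2) (x₀ := w)
    (bound := (ball (0 : ℂ) 1).indicator fun _ => B / δ ^ 2) (ball_mem_nhds w hδ0)
    (Eventually.of_forall fun x => (integrable_cauchy h x).aestronglyMeasurable)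
    (integrable_cauchy h w)
    (by fun_prop : Measurable fun z => φ z / (z - w) ^ 2).aestronglyMeasurable
    (Eventually.of_forall fun z x hx => by
      by_cases hz : z ∈ ball (0 : ℂ) 1
      · rw [indicator_of_mem hz, norm_div, norm_pow]
        exact div_le_div₀ hB0 (hB z) (by positivity)
          (pow_le_pow_left₀ hδ0.le (hfar z (mem_ball_zero_iff.1 hz) x hx) 2)
      · rw [indicator_of_notMem hz, h.supp z (by simpa using hz)]
        simp)
    ((integrable_indicator_iff measurableSet_ball).2 (integrableOn_const measure_ball_lt_top.ne))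
    (Eventually.of_forall fun z x hx => by
      by_cases hz : z ∈ ball (0 : ℂ) 1
      · have hne : z - x ≠ 0 := by
          intro h0
          have := hfar z (mem_ball_zero_iff.1 hz) x hx
          rw [h0, norm_zero] at this
          linarith
        have := (hasDerivAt_const x (φ z)).fun_div ((hasDerivAt_id' x).const_sub z) hne
        simpa using this
      · rw [h.supp z (by simpa using hz)]
        simpa using hasDerivAt_const x (0 : ℂ))
  exact key.2.differentiableAt.differentiableWithinAt

end Pool.Agent.P.MP_f981b0_an.R1
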