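import Pool.Agent.P.MP_f981b0_an.R1.Defs

/-! A bounded analytic function off a connected set covered by small discs. -/

open Metric Set Real Complex

namespace Pool.Agent.P.MP_f981b0_an.R1

/-- A branch of `log ((p'-z)/(p-z))` off a closed subset of `O`. -/
def Link (O : Set ℂ) (p p' : ℂ) : Prop :=
  ∃ (R : Set ℂ) (L : ℂ → ℂ), IsClosed R ∧ R ⊆ O ∧ (∀ z ∉ R, DifferentiableAt ℂ L z) ∧
    (∀ z ∉ R, Complex.exp (L z) * (p - z) = p' - z) ∧
    ∀ z : ℂ, 1 ≤ ‖z‖ → L z = Complex.log (1 - p' / z) - Complex.log (1 - p / z)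

lemma Link.trans {O : Set ℂ} {p p' p'' : ℂ} (h : Link O p p') (h' : Link O p' p'') :
    Link O p p'' := by
  obtain ⟨R, L, h1, h2, h3, h4, h5⟩ := h
  obtain ⟨R', L', h1', h2', h3', h4', h5'⟩ := h'
  refine ⟨R ∪ R', fun z => L z + L' z, h1.union h1', union_subset h2 h2', fun z hz => ?_,
    fun z hz => ?_, fun z hz => ?_⟩
  · rw [mem_union, not_or] at hz
    exact (h3 z hz.1).add (h3' z hz.2)
  · rw [mem_union, not_or] at hz
    rw [Complex.exp_add, ← h4' z hz.2, ← h4 z hz.1]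
    ring
  · simp only [h5 z hz, h5' z hz]
    ring

lemma ratio_mem_slitPlane {p p' z : ℂ} (hz : z ∉ segment ℝ p p') :
    (p' - z) / (p - z) ∈ slitPlane := by
  have hp : p - z ≠ 0 := fun h => hz (by
    rw [sub_eq_zero] at h; rw [← h]; exact left_mem_segment ℝ p p')
  by_contra hs
  rw [mem_slitPlane_iff, not_or, not_lt, not_not] at hs
  set t := ((p' - z) / (p - z)).re with ht
  have h1 : (p' - z) / (p - z) = (t : ℂ) := Complex.ext rfl (by simpa using hs.2)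
  rw [div_eq_iff hp] at h1
  have h2 : 0 < 1 - t := by linarith [hs.1]
  have h3 : (1 - t : ℂ) ≠ 0 := by exact_mod_cast h2.ne'
  refine hz ⟨-t / (1 - t), 1 / (1 - t), div_nonneg (by linarith [hs.1]) h2.le, by positivity,
    by field_simp; ring, ?_⟩
  simp only [real_smul]
  push_cast
  field_simp
  linear_combination h1

lemma re_one_sub_pos {p z : ℂ} (hp : ‖p‖ < 1) (hz : 1 ≤ ‖z‖) : 0 < (1 - p / z).re := by
  have h1 : ‖p / z‖ < 1 := by
    rw [norm_div, div_lt_one (by linarith)]; linarith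
  have h2 := Complex.re_le_norm (p / z)
  simp only [sub_re, one_re]
  linarith

lemma link_segment {O : Set ℂ} {p p' : ℂ} (hO : segment ℝ p p' ⊆ O) (hp : ‖p‖ < 1)
    (hp' : ‖p'‖ < 1) : Link O p p' := by
  have hne : ∀ z ∉ segment ℝ p p', p - z ≠ 0 := fun z hz h => hz (by
    rw [sub_eq_zero] at h; rw [← h]; exact left_mem_segment ℝ p p')
  refine ⟨segment ℝ p p', fun z => Complex.log ((p' - z) / (p - z)), ?_, hO, fun z hz => ?_,
    fun z hz => ?_, fun z hz => ?_⟩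
  · rw [segment_eq_image]
    exact (isCompact_Icc.image (by fun_prop)).isClosed
  · refine DifferentiableAt.clog ?_ (ratio_mem_slitPlane hz)
    have := hne z hz
    fun_prop (disch := assumption)
  · rw [Complex.exp_log (slitPlane_ne_zero (ratio_mem_slitPlane hz)), div_mul_cancel₀ _ (hne z hz)]
  · have h1 := re_one_sub_pos hp hz
    have h2 := re_one_sub_pos hp' hz
    have hz0 : z ≠ 0 := by rintro rfl; norm_num at hz
    have n1 : 1 - p / z ≠ 0 := fun h => by simp [h] at h1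
    have n2 : 1 - p' / z ≠ 0 := fun h => by simp [h] at h2
    have a1 := abs_lt.1 (Complex.abs_arg_lt_pi_div_two_iff.2 (Or.inl h1))
    have a2 := abs_lt.1 (Complex.abs_arg_lt_pi_div_two_iff.2 (Or.inl h2))
    have hpz : p - z ≠ 0 := fun h => n1 (by
      rw [sub_eq_zero] at h; rw [h, div_self hz0, sub_self])
    have e : (p' - z) / (p - z) =
        Complex.exp (Complex.log (1 - p' / z) - Complex.log (1 - p / z)) := by
      rw [Complex.exp_sub, Complex.exp_log n1, Complex.exp_log n2, div_eq_div_iff hpz n1]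
      field_simp
      ring
    show Complex.log ((p' - z) / (p - z)) = _
    rw [e, Complex.log_exp]
    · simp only [sub_im, log_im]; linarith
    · simp only [sub_im, log_im]; linarith

lemma link_of_preconnected {P : Set (ℂ × ℝ)} (hP : ∀ q ∈ P, ‖q.1‖ + q.2 ≤ 1) {R : Set ℂ}
    (hR : IsPreconnected R) (hcov : R ⊆ ⋃ q ∈ P, ball q.1 q.2) {x y : ℂ} (hx : x ∈ R)
    (hy : y ∈ R) : Link (⋃ q ∈ P, ball q.1 q.2) x y := by
  refine hR.induction₂' (Link (⋃ q ∈ P, ball q.1 q.2)) (fun u hu => ?_)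
    (fun _ _ _ _ _ _ h h' => h.trans h') hx hy
  obtain ⟨q, hq, huq⟩ := mem_iUnion₂.1 (hcov hu)
  have hsub : ball q.1 q.2 ⊆ ⋃ q ∈ P, ball q.1 q.2 := subset_iUnion₂ (s := fun q _ => ball q.1 q.2)
    q hq
  have hn : ∀ v ∈ ball q.1 q.2, ‖v‖ < 1 := fun v hv => by
    rw [mem_ball, dist_eq_norm] at hv
    have := norm_sub_norm_le v q.1
    linarith [hP q hq]
  filter_upwards [mem_nhdsWithin_of_mem_nhds (isOpen_ball.mem_nhds huq)] with v hv
  exact ⟨link_segment (((convex_ball _ _).segment_subset huq hv).trans hsub) (hn u huq) (hn v hv),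
    link_segment (((convex_ball _ _).segment_subset hv huq).trans hsub) (hn v hv) (hn u huq)⟩

/-- The bounded analytic function. -/
lemma exists_bounded_of_link {O : Set ℂ} (hO : O ⊆ ball 0 1) {b : ℂ} (hb : 1 / 2 ≤ ‖b‖)
    (hb1 : ‖b‖ < 1) (h : Link O 0 b) :
    ∃ (R : Set ℂ) (g : ℂ → ℂ), IsClosed R ∧ R ⊆ O ∧ (∀ z ∉ R, DifferentiableAt ℂ g z) ∧
      (∀ z ∉ R, ‖g z‖ ≤ 19) ∧ (∀ z : ℂ, 1 ≤ ‖z‖ → ‖g z‖ ≤ 1 / ‖z‖) ∧ 1 / 50 ≤ ‖g 2‖ := by
  obtain ⟨R, L, h1, h2, h3, h4, h5⟩ := h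
  set σ : ℂ → ℂ := fun z => Complex.exp (L z / 2) with hσ
  have hout : ∀ z : ℂ, 1 ≤ ‖z‖ → z ∉ R := fun z hz hzR => by
    have := hO (h2 hzR)
    rw [mem_ball_zero_iff] at this
    linarith
  have hz0 : ∀ z ∉ R, z ≠ 0 := by
    rintro z hz rfl
    have := h4 0 hz
    simp only [sub_self, mul_zero, sub_zero] at this
    rw [← this] at hb
    norm_num at hb
  have hsq : ∀ z ∉ R, (1 - σ z) * (1 + σ z) = b / z := fun z hz => by
    have e : σ z * σ z = Complex.exp (L z) := by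
      simp only [hσ]; rw [← Complex.exp_add]; congr 1; ring
    rw [eq_div_iff (hz0 z hz)]
    linear_combination h4 z hz - z * e
  have hre : ∀ z : ℂ, 1 ≤ ‖z‖ → 1 ≤ ‖1 + σ z‖ := fun z hz => by
    have a2 := abs_lt.1 (Complex.abs_arg_lt_pi_div_two_iff.2 (Or.inl (re_one_sub_pos hb1 hz)))
    have e : (L z / 2).im = (1 - b / z).arg / 2 := by
      rw [h5 z hz]; simp [log_im]
    have h6 : 0 ≤ (σ z).re := by
      simp only [hσ]
      rw [Complex.exp_re, e]
      exact mul_nonneg (Real.exp_pos _).le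
        (Real.cos_nonneg_of_mem_Icc ⟨by linarith [pi_pos], by linarith [pi_pos]⟩)
    have h7 := Complex.re_le_norm (1 + σ z)
    simp only [add_re, one_re] at h7
    linarith
  have hlow : ∀ z ∉ R, 1 / 9 ≤ ‖1 + σ z‖ := fun z hz => by
    by_cases hz1 : 1 ≤ ‖z‖
    · linarith [hre z hz1]
    push Not at hz1
    by_contra hlt
    push Not at hlt
    have e1 : ‖1 - σ z‖ ≤ 2 + ‖1 + σ z‖ := by
      have := norm_sub_le (2 : ℂ) (1 + σ z)
      rwa [Complex.norm_two, show (2 : ℂ) - (1 + σ z) = 1 - σ z by ring] at this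
    have e2 : ‖1 - σ z‖ * ‖1 + σ z‖ = ‖b‖ / ‖z‖ := by rw [← norm_mul, hsq z hz, norm_div]
    have e3 : ‖b‖ ≤ ‖b‖ / ‖z‖ := by
      rw [le_div_iff₀ (norm_pos_iff.2 (hz0 z hz))]
      nlinarith [norm_nonneg b]
    nlinarith [norm_nonneg (1 - σ z), norm_nonneg (1 + σ z)]
  have hne : ∀ z ∉ R, 1 + σ z ≠ 0 := fun z hz h => by
    have := hlow z hz
    rw [h] at this
    norm_num at this
  have hform : ∀ z ∉ R, ‖2 / (1 + σ z) - 1‖ = ‖b‖ / ‖z‖ / ‖1 + σ z‖ ^ 2 := fun z hz => by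
    rw [← norm_div, ← hsq z hz, ← norm_pow, ← norm_div]
    congr 1
    have := hne z hz
    field_simp
    ring
  refine ⟨R, fun z => 2 / (1 + σ z) - 1, h1, h2, fun z hz => ?_, fun z hz => ?_, fun z hz => ?_, ?_⟩
  · have := h3 z hz
    have := hne z hz
    simp only [hσ] at *
    fun_prop (disch := assumption)
  · refine (norm_sub_le _ _).trans ?_
    rw [norm_div, Complex.norm_two, norm_one]
    have := hlow z hz
    have : 2 / ‖1 + σ z‖ ≤ 18 := by
      rw [div_le_iff₀ (by linarith)]; linarith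
    linarith
  · rw [hform z (hout z hz)]
    have := hre z hz
    calc ‖b‖ / ‖z‖ / ‖1 + σ z‖ ^ 2 ≤ ‖b‖ / ‖z‖ := div_le_self (by positivity) (by nlinarith)
      _ ≤ 1 / ‖z‖ := by gcongr
  · have h2' : (1 : ℝ) ≤ ‖(2 : ℂ)‖ := by simp
    have hR := hout 2 h2'
    show 1 / 50 ≤ ‖2 / (1 + σ 2) - 1‖
    rw [hform 2 hR, Complex.norm_two]
    have e0 := hre 2 h2'
    have e1 : ‖1 + σ 2‖ ≤ 2 + ‖1 - σ 2‖ := by
      have := norm_sub_le (2 : ℂ) (1 - σ 2)
      rwa [Complex.norm_two, show (2 : ℂ) - (1 - σ 2) = 1 + σ 2 by ring] at this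
    have e2 : ‖1 - σ 2‖ * ‖1 + σ 2‖ = ‖b‖ / 2 := by
      rw [← norm_mul, hsq 2 hR, norm_div, Complex.norm_two]
    have e3 : ‖1 - σ 2‖ ≤ 1 / 2 := by nlinarith [norm_nonneg (1 - σ 2)]
    rw [le_div_iff₀ (by positivity)]
    nlinarith

end Pool.Agent.P.MP_f981b0_an.R1
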