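import Pool.Agent.P.MP_f981b0_an.R1.Jump
import Pool.Agent.P.MP_f981b0_an.R1.Sigma

/-! Routes of arbitrarily small cost give cheap test functions. -/

open MeasureTheory Metric Set Real Complex

namespace Pool.Agent.P.MP_f981b0_an.R1

lemma exists_cutoff (P : Finset (ℂ × ℝ)) (hP : ∀ q ∈ P, 0 < q.2) :
    ∃ θ : ℂ → ℂ, ContDiff ℝ 1 θ ∧ (∀ z, ‖θ z‖ ≤ 1) ∧
      (∀ z, ‖dbar θ z‖ ≤ ∑ q ∈ P, (ball q.1 (2 * q.2)).indicator (fun _ => 2 * BB / q.2) z) ∧
      (∀ q ∈ P, ∀ z ∈ ball q.1 q.2, θ z = 0) ∧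
      ∀ z, (∀ q ∈ P, z ∉ ball q.1 (2 * q.2)) → θ z = 1 := by
  classical
  induction P using Finset.induction_on with
  | empty =>
    exact ⟨fun _ => 1, contDiff_const, by simp, by simp [dbar_const], by simp, by simp⟩
  | insert q P hq ih =>
    obtain ⟨θ, h1, h2, h3, h4, h5⟩ := ih fun x hx => hP x (Finset.mem_insert_of_mem hx)
    have hr := hP q (Finset.mem_insert_self _ _)
    have hb : ContDiff ℝ 1 fun z => 1 - (bump q.1 q.2 z : ℂ) :=
      contDiff_const.sub (bump_contDiff _ _)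
    have hn : ∀ z, ‖1 - (bump q.1 q.2 z : ℂ)‖ ≤ 1 := fun z => by
      have e : 1 - (bump q.1 q.2 z : ℂ) = ((1 - bump q.1 q.2 z : ℝ) : ℂ) := by push_cast; ring
      rw [e, Complex.norm_real, Real.norm_of_nonneg (sub_nonneg.2 (bump_le_one _ _ _))]
      linarith [bump_nonneg q.1 q.2 z]
    refine ⟨fun z => (1 - (bump q.1 q.2 z : ℂ)) * θ z, hb.mul h1, fun z => ?_, fun z => ?_,
      fun x hx z hz => ?_, fun z hz => ?_⟩
    · rw [norm_mul]
      exact mul_le_one₀ (hn z) (norm_nonneg _) (h2 z)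
    · rw [dbar_mul (hb.differentiable one_ne_zero z) (h1.differentiable one_ne_zero z),
        dbar_one_sub, Finset.sum_insert hq, add_comm]
      refine (norm_add_le _ _).trans (add_le_add ?_ ?_)
      · rw [norm_mul, norm_neg]
        exact (mul_le_of_le_one_left (norm_nonneg _) (h2 z)).trans (norm_dbar_bump_le _ _ hr)
      · rw [norm_mul]
        exact (mul_le_of_le_one_left (norm_nonneg _) (hn z)).trans (h3 z)
    · rcases Finset.mem_insert.1 hx with rfl | hx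
      · rw [mem_ball, dist_eq_norm] at hz
        simp [bump_one hr hz.le]
      · simp [h4 x hx z hz]
    · have h6 := hz q (Finset.mem_insert_self _ _)
      rw [mem_ball, dist_eq_norm, not_lt] at h6
      simp [bump_zero hr h6, h5 z fun x hx => hz x (Finset.mem_insert_of_mem hx)]

/-- The first test function: its Cauchy transform is `-π θ g`. -/
lemma exists_test (P : Finset (ℂ × ℝ)) (hP : ∀ q ∈ P, 0 < q.2 ∧ ‖q.1‖ + 2 * q.2 < 1) {R : Set ℂ}
    (hR : IsPreconnected R) (h0 : (0 : ℂ) ∈ R) {b : ℂ} (hb : b ∈ R) (hb2 : 1 / 2 ≤ ‖b‖)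
    (hcov : R ⊆ ⋃ q ∈ P, ball q.1 q.2) :
    ∃ φ : ℂ → ℂ, Test φ ∧ (∀ w, ‖cauchy φ w‖ ≤ 19 * π) ∧ π / 50 ≤ ‖cauchy φ 2‖ ∧
      ∀ z, ‖φ z‖ ≤ 19 * ∑ q ∈ P, (ball q.1 (2 * q.2)).indicator (fun _ => 2 * BB / q.2) z := by
  have hB := BB_pos
  set O : Set ℂ := ⋃ q ∈ (P : Set (ℂ × ℝ)), ball q.1 q.2 with hO
  have hbig : ∀ q ∈ P, ∀ z ∈ ball q.1 (2 * q.2), ‖z‖ < 1 := fun q hq z hz => by
    rw [mem_ball, dist_eq_norm] at hz
    have := norm_sub_norm_le z q.1
    linarith [(hP q hq).2]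
  have hO1 : O ⊆ ball 0 1 := fun z hz => by
    obtain ⟨q, hq, hzq⟩ := mem_iUnion₂.1 hz
    exact mem_ball_zero_iff.2 (hbig q hq z (ball_subset_ball (by linarith [(hP q hq).1]) hzq))
  have hOo : IsOpen O := isOpen_biUnion fun _ _ => isOpen_ball
  have hlink : Link O 0 b := link_of_preconnected (P := (P : Set (ℂ × ℝ)))
    (fun q hq => by linarith [(hP q hq).1, (hP q hq).2]) hR hcov h0 hb
  obtain ⟨R', h, r1, r2, r3, r4, r5, r6⟩ := exists_bounded_of_link hO1 hb2
    (mem_ball_zero_iff.1 (hO1 (hcov hb))) hlink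
  obtain ⟨θ, t1, t2, t3, t4, t5⟩ := exists_cutoff P fun q hq => (hP q hq).1
  have hθO : ∀ z ∈ O, θ z = 0 := fun z hz => by
    obtain ⟨q, hq, hzq⟩ := mem_iUnion₂.1 hz
    exact t4 q hq z hzq
  set g : ℂ → ℂ := fun z => θ z * h z with hg
  have hg0 : ∀ z ∈ O, g =ᶠ[nhds z] fun _ => 0 := fun z hz => by
    filter_upwards [hOo.mem_nhds hz] with y hy
    simp [hg, hθO y hy]
  have hhol : DifferentiableOn ℂ h R'ᶜ := fun z hz => (r3 z hz).differentiableWithinAt
  have hgc : ContDiff ℝ 1 g := by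
    rw [contDiff_iff_contDiffAt]
    intro z
    by_cases hz : z ∈ O
    · exact contDiffAt_const.congr_of_eventuallyEq (hg0 z hz)
    · have h1 : z ∉ R' := fun h => hz (r2 h)
      have h2 : ContDiffAt ℂ 1 h z :=
        (hhol.analyticAt (r1.isOpen_compl.mem_nhds h1)).contDiffAt
      exact t1.contDiffAt.mul (h2.restrict_scalars ℝ)
  have hsum0 : ∀ z, 0 ≤ ∑ q ∈ P, (ball q.1 (2 * q.2)).indicator (fun _ => 2 * BB / q.2) z :=
    fun z => (norm_nonneg _).trans (t3 z)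
  have hbound : ∀ z, ‖dbar g z‖ ≤
      19 * ∑ q ∈ P, (ball q.1 (2 * q.2)).indicator (fun _ => 2 * BB / q.2) z := fun z => by
    by_cases hz : z ∈ O
    · rw [dbar_congr (hg0 z hz), dbar_const, norm_zero]
      have := hsum0 z
      positivity
    · have h1 : z ∉ R' := fun h => hz (r2 h)
      rw [hg, dbar_mul (t1.differentiable one_ne_zero z) ((r3 z h1).restrictScalars ℝ),
        dbar_holo (r3 z h1), mul_zero, zero_add, norm_mul]
      exact mul_le_mul (r4 z h1) (t3 z) (norm_nonneg _) (by norm_num)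
  have hout : ∀ z : ℂ, 1 ≤ ‖z‖ → ∀ q ∈ P, z ∉ ball q.1 (2 * q.2) := fun z hz q hq h => by
    linarith [hbig q hq z h]
  have hsupp : ∀ z : ℂ, 1 ≤ ‖z‖ → dbar g z = 0 := fun z hz => by
    have h1 := hbound z
    rw [Finset.sum_eq_zero fun q hq => indicator_of_notMem (hout z hz q hq) _, mul_zero] at h1
    exact norm_le_zero_iff.1 h1
  have hc : ∀ w, cauchy (dbar g) w = -(π * g w) := pompeiu (R₀ := 1) (C := 1) hgc hsupp
    fun z hz => by
      simp only [hg]
      rw [t5 z (hout z hz), one_mul]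
      exact r5 z hz
  have hnc : ∀ w, ‖cauchy (dbar g) w‖ = π * ‖g w‖ := fun w => by
    rw [hc, norm_neg, norm_mul, Complex.norm_real, Real.norm_of_nonneg pi_pos.le]
  refine ⟨dbar g, ⟨(continuous_dbar hgc).measurable, ⟨19 * ∑ q ∈ P, 2 * BB / q.2, fun z =>
    (hbound z).trans ?_⟩, hsupp⟩, fun w => ?_, ?_, hbound⟩
  · gcongr with q hq
    have := (hP q hq).1
    exact indicator_le_self' (fun _ _ => by positivity) z
  · rw [hnc, mul_comm]
    refine mul_le_mul_of_nonneg_right ?_ pi_pos.le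
    by_cases hz : w ∈ O
    · simp [hg, hθO w hz]
    · simp only [hg]
      rw [norm_mul]
      exact (mul_le_of_le_one_left (norm_nonneg _) (t2 w)).trans (r4 w fun h => hz (r2 h))
  · rw [hnc]
    simp only [hg]
    rw [t5 2 (hout 2 (by simp)), one_mul]
    nlinarith [pi_pos]

theorem cheap_of_route (ρ : ℂ → ℝ) (hρ : IntegrableOn ρ (ball 0 1)) (h0 : ∀ z, 0 ≤ ρ z)
    (h : ∀ ε : ℝ, 0 < ε → Route ρ ε) : Cheap ρ := by
  classical
  have hB := BB_pos
  have hK := KK_pos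
  have hpi := pi_pos
  set C₀ : ℝ := 19 * π * Real.exp KK with hC₀
  have hC₀p : 0 < C₀ := by positivity
  refine ⟨C₀, π / 100, by positivity, fun ε hε => ?_⟩
  set η : ℝ := min (ε / (38 * BB)) (π / 100 / (C₀ * (4 + KK))) with hη
  have hηp : 0 < η := lt_min (by positivity) (by positivity)
  obtain ⟨L, J, R, b, hL, hcost, hJ, hJ1, hJ2, hR, hR0, hRb, hb, hcov⟩ := h η hηp
  set X : Finset (ℂ × ℝ) := J.image fun q => (q.1, q.2.1) with hX
  have hXm : ∀ x ∈ X, ∃ q ∈ J, x = (q.1, q.2.1) := fun x hx => by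
    obtain ⟨q, hq, rfl⟩ := Finset.mem_image.1 hx
    exact ⟨q, hq, rfl⟩
  have hP : ∀ q ∈ L ∪ X, 0 < q.2 ∧ ‖q.1‖ + 2 * q.2 < 1 := fun x hx => by
    rcases Finset.mem_union.1 hx with hx | hx
    · exact hL x hx
    · obtain ⟨q, hq, rfl⟩ := hXm x hx
      exact ⟨(hJ q hq).1, (hJ q hq).2.2⟩
  have hcov' : R ⊆ ⋃ q ∈ L ∪ X, ball q.1 q.2 := fun z hz => by
    rcases hcov hz with hz | hz
    · obtain ⟨q, hq, hzq⟩ := mem_iUnion₂.1 hz
      exact mem_iUnion₂.2 ⟨q, Finset.mem_union_left _ hq, hzq⟩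
    · obtain ⟨q, hq, hzq⟩ := mem_iUnion₂.1 hz
      exact mem_iUnion₂.2 ⟨(q.1, q.2.1), Finset.mem_union_right _
        (Finset.mem_image_of_mem _ hq), hzq⟩
  obtain ⟨φ, hφ, p1, p2, p3⟩ := exists_test (L ∪ X) hP hR hR0 hRb hb hcov'
  obtain ⟨χ, c1, c2, c3, c4, c5, c6⟩ := jumps J (fun q hq => ⟨(hJ q hq).1, (hJ q hq).2.1,
    by linarith [(hJ q hq).1, (hJ q hq).2.2]⟩) hφ p1
  have hexp : 19 * π * Real.exp (KK * ∑ q ∈ J, (q.2.2 : ℝ)⁻¹) ≤ C₀ := by
    rw [hC₀]
    gcongr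
    exact mul_le_of_le_one_right hK.le hJ1
  refine ⟨fun z => (χ z : ℂ) * φ z, hφ.mul_real c1 c2 c3, fun w => (c5 w).trans hexp, ?_, ?_⟩
  · have h1 : 19 * π * Real.exp (KK * ∑ q ∈ J, (q.2.2 : ℝ)⁻¹) * (4 + KK) *
        ∑ q ∈ J, 2 ^ q.2.2 * q.2.1 ≤ C₀ * (4 + KK) * (π / 100 / (C₀ * (4 + KK))) := by
      have h2 : 0 ≤ ∑ q ∈ J, 2 ^ q.2.2 * q.2.1 := Finset.sum_nonneg fun q hq => by
        have := (hJ q hq).1
        positivity
      gcongr
      exact hJ2.trans (min_le_right _ _)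
    rw [mul_div_cancel₀ _ (by positivity)] at h1
    have h3 := norm_sub_norm_le (cauchy φ 2) (cauchy (fun z => (χ z : ℂ) * φ z) 2)
    rw [norm_sub_rev] at h3
    linarith
  · have hsub : ∀ q ∈ L, ball q.1 (2 * q.2) ⊆ ball (0 : ℂ) 1 := fun q hq z hz => by
      rw [mem_ball, dist_eq_norm] at hz
      have := norm_sub_norm_le z q.1
      rw [mem_ball_zero_iff]
      linarith [(hL q hq).2]
    have hpt : ∀ z, ρ z * ‖(χ z : ℂ) * φ z‖ ≤
        ∑ q ∈ L, 38 * BB * (q.2⁻¹ * (ball q.1 (2 * q.2)).indicator ρ z) := fun z => by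
      have hnn : ∀ q ∈ L ∪ X,
          0 ≤ (ball q.1 (2 * q.2)).indicator (fun _ => 2 * BB / q.2) z := fun q hq => by
        have := (hP q hq).1
        exact indicator_nonneg (fun _ _ => by positivity) z
      have h1 : ‖(χ z : ℂ) * φ z‖ ≤
          19 * ∑ q ∈ L, (ball q.1 (2 * q.2)).indicator (fun _ => 2 * BB / q.2) z := by
        by_cases hχ : χ z = 0
        · rw [hχ]
          simp only [ofReal_zero, zero_mul, norm_zero]
          exact mul_nonneg (by norm_num)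
            (Finset.sum_nonneg fun q hq => hnn q (Finset.mem_union_left _ hq))
        rw [norm_mul, Complex.norm_real, Real.norm_of_nonneg (c2 z)]
        refine (mul_le_of_le_one_left (norm_nonneg _) (c3 z)).trans ((p3 z).trans (le_of_eq ?_))
        congr 1
        symm
        refine Finset.sum_subset Finset.subset_union_left fun x hx hxL => ?_
        obtain ⟨q, hq, rfl⟩ := hXm x ((Finset.mem_union.1 hx).resolve_left hxL)
        exact indicator_of_notMem (fun hz => hχ (c4 q hq z hz)) _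
      refine (mul_le_mul_of_nonneg_left h1 (h0 z)).trans (le_of_eq ?_)
      rw [Finset.mul_sum, Finset.mul_sum]
      refine Finset.sum_congr rfl fun q _ => ?_
      by_cases hz : z ∈ ball q.1 (2 * q.2)
      · simp only [indicator_of_mem hz]; ring
      · simp only [indicator_of_notMem hz]; ring
    have hint : ∀ q ∈ L, Integrable
        (fun z => 38 * BB * (q.2⁻¹ * (ball q.1 (2 * q.2)).indicator ρ z))
        (volume.restrict (ball (0 : ℂ) 1)) := fun q _ =>
      ((Integrable.indicator hρ measurableSet_ball).const_mul _).const_mul _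
    refine (integral_mono_of_nonneg (Filter.Eventually.of_forall fun z =>
      mul_nonneg (h0 z) (norm_nonneg _)) (integrable_finsetSum _ hint)
      (Filter.Eventually.of_forall hpt)).trans ?_
    rw [integral_finsetSum _ hint]
    have h2 : ∑ q ∈ L, ∫ z in ball (0 : ℂ) 1,
        38 * BB * (q.2⁻¹ * (ball q.1 (2 * q.2)).indicator ρ z) =
        38 * BB * ∑ q ∈ L, q.2⁻¹ * ∫ z in ball q.1 (2 * q.2), ρ z := by
      rw [Finset.mul_sum]
      refine Finset.sum_congr rfl fun q hq => ?_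
      rw [integral_const_mul, integral_const_mul, setIntegral_indicator measurableSet_ball,
        inter_eq_right.2 (hsub q hq)]
    rw [h2]
    calc 38 * BB * ∑ q ∈ L, q.2⁻¹ * ∫ z in ball q.1 (2 * q.2), ρ z
        ≤ 38 * BB * (ε / (38 * BB)) := by
          gcongr
          exact hcost.trans (min_le_left _ _)
      _ = ε := by field_simp

end Pool.Agent.P.MP_f981b0_an.R1
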