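import Pool.Agent.P.MP_f981b0_an.R1.Defs

/-! Elementary estimates for the kernel `1/|z-w|`. -/

open MeasureTheory Metric Set Real

namespace Pool.Agent.P.MP_f981b0_an.R1

lemma area_ball (c : ℂ) {r : ℝ} (hr : 0 ≤ r) : (volume : Measure ℂ).real (ball c r) = π * r ^ 2 := by
  rw [Measure.real, Complex.volume_ball]
  simp [hr, mul_comm]

lemma meas_inv_norm (w : ℂ) : Measurable (fun z : ℂ => ‖z - w‖⁻¹) := by
  fun_prop

lemma intOn_zero (r : ℝ) : IntegrableOn (fun z : ℂ => ‖z‖⁻¹) (ball 0 r) := by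
  refine integrableOn_ball_of_norm_le_rpow (E := ℂ) (μ := volume) (C := 1) (α := 1)
    (by simp) (by simp) (Filter.Eventually.of_forall fun x => ?_) ?_
  · simp [Real.rpow_neg_one]
  · exact (by fun_prop : Measurable (fun z : ℂ => ‖z‖⁻¹)).aestronglyMeasurable

lemma int_zero {r : ℝ} (hr : 0 ≤ r) : ∫ z in ball (0 : ℂ) r, ‖z‖⁻¹ = 2 * π * r := by
  have h := integral_fun_norm_addHaar (volume : Measure ℂ) ((Iio r).indicator fun y : ℝ => y⁻¹)
  have h1 : (fun z : ℂ => (Iio r).indicator (fun y : ℝ => y⁻¹) ‖z‖) =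
      (ball (0 : ℂ) r).indicator fun z => ‖z‖⁻¹ := by
    funext z
    by_cases hz : ‖z‖ < r
    · simp [indicator, hz]
    · simp [indicator, hz]
  rw [h1, integral_indicator measurableSet_ball, area_ball _ zero_le_one] at h
  rw [h]
  have h2 : ∫ y in Ioi (0 : ℝ), y ^ (Module.finrank ℝ ℂ - 1) • (Iio r).indicator
      (fun y : ℝ => y⁻¹) y = ∫ y in Ioi (0 : ℝ), (Iio r).indicator (fun _ : ℝ => (1 : ℝ)) y := by
    refine setIntegral_congr_fun measurableSet_Ioi fun y hy => ?_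
    have hy' : y ≠ 0 := ne_of_gt hy
    by_cases hz : y < r
    · simp [indicator, hz, hy']
    · simp [indicator, hz]
  rw [h2, setIntegral_indicator measurableSet_Iio, Ioi_inter_Iio]
  simp [hr]
  ring

lemma ball_preimage (w : ℂ) (r : ℝ) : (fun z : ℂ => z - w) ⁻¹' ball 0 r = ball w r := by
  ext z; simp [dist_eq_norm]

lemma intOn_self (w : ℂ) (r : ℝ) : IntegrableOn (fun z : ℂ => ‖z - w‖⁻¹) (ball w r) := by
  have h := (intOn_zero r)
  rw [← integrable_indicator_iff measurableSet_ball] at h ⊢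
  have := h.comp_sub_right w
  refine this.congr (Filter.Eventually.of_forall fun z => ?_)
  by_cases hz : ‖z - w‖ < r
  · simp [indicator, hz, dist_eq_norm]
  · simp [indicator, hz, dist_eq_norm]

lemma int_self (w : ℂ) {r : ℝ} (hr : 0 ≤ r) : ∫ z in ball w r, ‖z - w‖⁻¹ = 2 * π * r := by
  rw [← int_zero hr, ← integral_indicator measurableSet_ball,
    ← integral_indicator measurableSet_ball,
    ← integral_sub_right_eq_self ((ball (0 : ℂ) r).indicator fun z => ‖z‖⁻¹) w]
  congr 1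
  funext z
  by_cases hz : ‖z - w‖ < r
  · simp [indicator, hz, dist_eq_norm]
  · simp [indicator, hz, dist_eq_norm]

/-- `f` is dominated by an integrable function of integral at most `A`. -/
def Dom (f : ℂ → ℝ) (A : ℝ) : Prop :=
  ∃ g : ℂ → ℝ, Integrable g ∧ (∀ z, f z ≤ g z) ∧ ∫ z, g z ≤ A

lemma Dom.mono {f f' : ℂ → ℝ} {A A' : ℝ} (h : Dom f A) (hf : ∀ z, f' z ≤ f z) (hA : A ≤ A') :
    Dom f' A' := by
  obtain ⟨g, hg, h1, h2⟩ := h
  exact ⟨g, hg, fun z => (hf z).trans (h1 z), h2.trans hA⟩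

lemma Dom.add {f f' : ℂ → ℝ} {A A' : ℝ} (h : Dom f A) (h' : Dom f' A') :
    Dom (fun z => f z + f' z) (A + A') := by
  obtain ⟨g, hg, h1, h2⟩ := h
  obtain ⟨g', hg', h1', h2'⟩ := h'
  refine ⟨fun z => g z + g' z, hg.add hg', fun z => add_le_add (h1 z) (h1' z), ?_⟩
  rw [integral_add hg hg']
  exact add_le_add h2 h2'

lemma Dom.const_mul {f : ℂ → ℝ} {A : ℝ} (h : Dom f A) {κ : ℝ} (hκ : 0 ≤ κ) :
    Dom (fun z => κ * f z) (κ * A) := by
  obtain ⟨g, hg, h1, h2⟩ := h
  refine ⟨fun z => κ * g z, hg.const_mul κ, fun z => mul_le_mul_of_nonneg_left (h1 z) hκ, ?_⟩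
  rw [integral_const_mul]
  exact mul_le_mul_of_nonneg_left h2 hκ

lemma dom_zero : Dom (fun _ => 0) 0 := ⟨fun _ => 0, integrable_zero _ _ _, fun _ => le_rfl, by simp⟩

lemma dom_sum {ι : Type*} (s : Finset ι) (f : ι → ℂ → ℝ) (A : ι → ℝ)
    (h : ∀ i ∈ s, Dom (f i) (A i)) : Dom (fun z => ∑ i ∈ s, f i z) (∑ i ∈ s, A i) := by
  classical
  induction s using Finset.induction_on with
  | empty => simpa using dom_zero
  | insert a s ha ih =>
    simp only [Finset.sum_insert ha]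
    exact (h a (Finset.mem_insert_self _ _)).add
      (ih fun i hi => h i (Finset.mem_insert_of_mem hi))

lemma Dom.integrable {F : ℂ → ℂ} {A : ℝ} (h : Dom (fun z => ‖F z‖) A)
    (hF : AEStronglyMeasurable F volume) : Integrable F := by
  obtain ⟨g, hg, h1, -⟩ := h
  exact hg.mono' hF (Filter.Eventually.of_forall h1)

lemma Dom.norm_integral_le {F : ℂ → ℂ} {A : ℝ} (h : Dom (fun z => ‖F z‖) A) :
    ‖∫ z, F z‖ ≤ A := by
  obtain ⟨g, hg, h1, h2⟩ := h
  exact (norm_integral_le_of_norm_le hg (Filter.Eventually.of_forall h1)).trans h2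

lemma Dom.integrable_real {f : ℂ → ℝ} {A : ℝ} (h : Dom f A) (h0 : ∀ z, 0 ≤ f z)
    (hF : AEStronglyMeasurable f volume) : Integrable f := by
  obtain ⟨g, hg, h1, -⟩ := h
  exact hg.mono' hF (Filter.Eventually.of_forall fun z => by
    rw [Real.norm_of_nonneg (h0 z)]; exact h1 z)

lemma Dom.integral_le {f : ℂ → ℝ} {A : ℝ} (h : Dom f A) (h0 : ∀ z, 0 ≤ f z) :
    ∫ z, f z ≤ A := by
  obtain ⟨g, hg, h1, h2⟩ := h
  exact (integral_mono_of_nonneg (Filter.Eventually.of_forall h0) hg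
    (Filter.Eventually.of_forall h1)).trans h2

lemma dom_const (c : ℂ) {r : ℝ} (hr : 0 ≤ r) (κ : ℝ) :
    Dom ((ball c r).indicator fun _ => κ) (κ * (π * r ^ 2)) := by
  refine ⟨_, ?_, fun _ => le_rfl, ?_⟩
  · exact (integrable_indicator_iff measurableSet_ball).2
      (integrableOn_const measure_ball_lt_top.ne)
  · rw [integral_indicator measurableSet_ball, setIntegral_const, area_ball c hr, smul_eq_mul,
      mul_comm]

lemma dom_self (w : ℂ) {r : ℝ} (hr : 0 ≤ r) :
    Dom ((ball w r).indicator fun z => ‖z - w‖⁻¹) (2 * π * r) := by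
  refine ⟨_, (integrable_indicator_iff measurableSet_ball).2 (intOn_self w r),
    fun _ => le_rfl, ?_⟩
  rw [integral_indicator measurableSet_ball, int_self w hr]

/-- `∫_{D(c,r)} dA/|z-w| ≤ 10 r`. -/
lemma dom_ball (c w : ℂ) {r : ℝ} (hr : 0 < r) :
    Dom ((ball c r).indicator fun z => ‖z - w‖⁻¹) (10 * r) := by
  refine ((dom_self w hr.le).add (dom_const c hr.le r⁻¹)).mono (fun z => ?_) ?_
  · by_cases hc : z ∈ ball c r
    · by_cases hw : z ∈ ball w r
      · simp only [indicator_of_mem hc, indicator_of_mem hw]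
        have : 0 ≤ r⁻¹ := by positivity
        linarith
      · simp only [indicator_of_mem hc, indicator_of_notMem hw, zero_add]
        rw [mem_ball, dist_eq_norm, not_lt] at hw
        exact inv_anti₀ hr hw
    · simp only [indicator_of_notMem hc, add_zero]
      exact indicator_nonneg (fun _ _ => by positivity) z
  · have : r⁻¹ * (π * r ^ 2) = π * r := by field_simp
    rw [this]
    nlinarith [pi_lt_d2]

/-- `∫_{D(c,r)} dA/|z-w| ≤ 20 r²/|w-c|`. -/
lemma dom_ball_far (c w : ℂ) {r : ℝ} (hr : 0 < r) (hw : 0 < ‖w - c‖) :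
    Dom ((ball c r).indicator fun z => ‖z - w‖⁻¹) (20 * r ^ 2 / ‖w - c‖) := by
  by_cases h : ‖w - c‖ ≤ 2 * r
  · refine (dom_ball c w hr).mono (fun _ => le_rfl) ?_
    rw [le_div_iff₀ hw]
    nlinarith
  · push Not at h
    refine (dom_const c hr.le (2 / ‖w - c‖)).mono (fun z => ?_) ?_
    · by_cases hc : z ∈ ball c r
      · simp only [indicator_of_mem hc]
        rw [mem_ball, dist_eq_norm] at hc
        have h1 : ‖w - c‖ ≤ ‖z - w‖ + ‖z - c‖ := by
          have := norm_sub_le (z - c) (z - w)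
          rw [show z - c - (z - w) = w - c by ring] at this
          linarith
        have h2 : ‖w - c‖ / 2 ≤ ‖z - w‖ := by linarith
        calc ‖z - w‖⁻¹ ≤ (‖w - c‖ / 2)⁻¹ := inv_anti₀ (by positivity) h2
          _ = 2 / ‖w - c‖ := by field_simp
      · simp only [indicator_of_notMem hc, le_refl]
    · rw [div_mul_eq_mul_div]
      refine div_le_div_of_nonneg_right ?_ hw.le
      nlinarith [pi_lt_d2, sq_nonneg r]

end Pool.Agent.P.MP_f981b0_an.R1
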