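import Mathlib
import Pool.Agent.P.MP_f981b0_an.R1.Kernel

open Metric Set Filter Topology MeasureTheory
open scoped ENNReal ComplexConjugate

namespace Pool.Agent.P.MP_f981b0_an.R1

/-- The dual of `L¹` of a finite measure space consists of bounded measurable functions. -/
lemma dual_L1 {α : Type*} [MeasurableSpace α] (μ : Measure α) [IsFiniteMeasure μ]
    (ℓ : Lp ℂ 1 μ →L[ℂ] ℂ) : ∃ φ : α → ℂ, Measurable φ ∧ (∀ z, ‖φ z‖ ≤ ‖ℓ‖) ∧
      ∀ x : Lp ℂ 1 μ, ℓ x = ∫ z, φ z * x z ∂μ := by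
  classical
  set ι : Lp ℂ 2 μ →L[ℂ] Lp ℂ 1 μ :=
    (ContinuousLinearMap.mul ℂ ℂ).holderL μ 2 2 1 (Lp.const 2 μ 1) with hι
  have hιc : ∀ f : Lp ℂ 2 μ, ι f =ᵐ[μ] f := by
    intro f
    have h1 := (ContinuousLinearMap.mul ℂ ℂ).coeFn_holder (r := 1) (Lp.const 2 μ (1 : ℂ)) f
    have h2 := Lp.coeFn_const 2 μ (1 : ℂ)
    filter_upwards [h1, h2] with a ha1 ha2
    have : ι f = (ContinuousLinearMap.mul ℂ ℂ).holder 1 (Lp.const 2 μ (1 : ℂ)) f := rfl
    rw [this, ha1, ha2]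
    simp
  set g : Lp ℂ 2 μ := (InnerProductSpace.toDual ℂ (Lp ℂ 2 μ)).symm (ℓ ∘L ι) with hg
  have hgm : Measurable g := (Lp.stronglyMeasurable g).measurable
  have H : ∀ (x : Lp ℂ 1 μ), MemLp x 2 μ → ℓ x = ∫ z, conj (g z) * x z ∂μ := by
    intro x hx
    have h1 : ι (hx.toLp x) = x := Lp.ext ((hιc _).trans hx.coeFn_toLp)
    have h2 : inner ℂ g (hx.toLp x) = ℓ (ι (hx.toLp x)) := by
      rw [hg, InnerProductSpace.toDual_symm_apply]; rfl
    rw [← h1, ← h2, L2.inner_def, h1]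
    refine integral_congr_ae ?_
    filter_upwards [hx.coeFn_toLp] with a ha
    rw [ha, RCLike.inner_apply, mul_comm]
  have hgi : Integrable g μ := (Lp.memLp g).integrable one_le_two
  have hbd : ∀ᵐ a ∂μ, ‖g a‖ ≤ ‖ℓ‖ := by
    refine ae_le_of_forall_setIntegral_le hgi.norm (integrable_const ‖ℓ‖) fun s hs _ => ?_
    set f : α → ℂ := s.indicator fun a => g a / ‖g a‖ with hf
    have hfm : Measurable f := (hgm.div (by fun_prop)).indicator hs
    have hfb : ∀ a, ‖f a‖ ≤ s.indicator (fun _ => (1 : ℝ)) a := by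
      intro a
      by_cases ha : a ∈ s
      · simp only [hf, indicator_of_mem ha, norm_div, Complex.norm_real, norm_norm]
        exact div_self_le_one _
      · simp [hf, ha]
    have hfb1 : ∀ a, ‖f a‖ ≤ 1 := fun a =>
      (hfb a).trans (indicator_le_self' (fun _ _ => zero_le_one) a)
    have hf2 : MemLp f 2 μ := MemLp.of_bound hfm.aestronglyMeasurable 1 (Eventually.of_forall hfb1)
    have hf1 : MemLp f 1 μ := MemLp.of_bound hfm.aestronglyMeasurable 1 (Eventually.of_forall hfb1)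
    have h1 := H (hf1.toLp f) (hf2.ae_eq hf1.coeFn_toLp.symm)
    have h2 : ∫ z, conj (g z) * (hf1.toLp f) z ∂μ = ((∫ z in s, ‖g z‖ ∂μ : ℝ) : ℂ) := by
      rw [← integral_complex_ofReal, ← integral_indicator hs]
      refine integral_congr_ae ?_
      filter_upwards [hf1.coeFn_toLp] with a ha
      rw [ha]
      by_cases has : a ∈ s
      · simp only [hf, indicator_of_mem has]
        by_cases h0 : g a = 0
        · simp [h0]
        · have : (‖g a‖ : ℂ) ≠ 0 := by exact_mod_cast norm_ne_zero_iff.2 h0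
          rw [← mul_div_assoc, Complex.conj_mul']
          field_simp
      · simp [hf, has]
    have h3 : ‖hf1.toLp f‖ ≤ μ.real s := by
      rw [L1.norm_eq_integral_norm]
      calc ∫ a, ‖(hf1.toLp f) a‖ ∂μ ≤ ∫ a, s.indicator (fun _ => (1 : ℝ)) a ∂μ := by
            refine integral_mono_of_nonneg (Eventually.of_forall fun _ => norm_nonneg _)
              ((integrable_const 1).indicator hs) ?_
            filter_upwards [hf1.coeFn_toLp] with a ha
            rw [ha]; exact hfb a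
        _ = μ.real s := by rw [integral_indicator hs]; simp
    have h4 := ℓ.le_opNorm (hf1.toLp f)
    rw [h1, h2, Complex.norm_real] at h4
    have h5 := le_abs_self (∫ z in s, ‖g z‖ ∂μ)
    rw [setIntegral_const, smul_eq_mul]
    rw [Real.norm_eq_abs] at h4
    nlinarith [norm_nonneg ℓ]
  set φ : α → ℂ := fun a => if ‖g a‖ ≤ ‖ℓ‖ then conj (g a) else 0 with hφ
  have hφm : Measurable φ :=
    Measurable.ite (measurableSet_le hgm.norm measurable_const)
      (Complex.continuous_conj.measurable.comp hgm) measurable_const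
  have hφb : ∀ z, ‖φ z‖ ≤ ‖ℓ‖ := by
    intro z
    simp only [hφ]
    split_ifs with h
    · simpa using h
    · simp
  have hφe : ∀ᵐ a ∂μ, φ a = conj (g a) := by
    filter_upwards [hbd] with a ha
    simp [hφ, ha]
  refine ⟨φ, hφm, hφb, fun x => ?_⟩
  have hφt : MemLp φ ∞ μ := memLp_top_of_bound hφm.aestronglyMeasurable _ (Eventually.of_forall hφb)
  set Λ : Lp ℂ 1 μ →L[ℂ] ℂ := (ContinuousLinearMap.mul ℂ ℂ).lpPairing μ ∞ 1 (hφt.toLp φ) with hΛ
  have hΛe : ∀ x : Lp ℂ 1 μ, Λ x = ∫ z, φ z * x z ∂μ := by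
    intro x
    rw [hΛ, ContinuousLinearMap.lpPairing_eq_integral]
    refine integral_congr_ae ?_
    filter_upwards [hφt.coeFn_toLp] with a ha
    rw [ha]; simp
  rw [← hΛe]
  refine (Lp.simpleFunc.denseRange (E := ℂ) (μ := μ) (p := 1) ENNReal.one_ne_top).induction_on
    (p := fun x => ℓ x = Λ x) x (isClosed_eq ℓ.continuous Λ.continuous) fun s => ?_
  have h2 : MemLp (s : Lp ℂ 1 μ) 2 μ :=
    ((Lp.simpleFunc.toSimpleFunc s).memLp_of_isFiniteMeasure 2 μ).ae_eq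
      (Lp.simpleFunc.toSimpleFunc_eq_toFun s)
  rw [H _ h2, hΛe]
  refine integral_congr_ae ?_
  filter_upwards [hφe] with a ha
  rw [ha]

/-- Hahn-Banach separation in `L¹`. -/
lemma exists_annihilator {α : Type*} [MeasurableSpace α] (μ : Measure α) [IsFiniteMeasure μ]
    (S : Submodule ℂ (α → ℂ)) (hS : ∀ f ∈ S, Integrable f μ) {k : α → ℂ} (hk : Integrable k μ)
    {δ : ℝ} (hδ : 0 < δ) (hd : ∀ f ∈ S, δ ≤ ∫ z, ‖k z - f z‖ ∂μ) :
    ∃ φ : α → ℂ, Measurable φ ∧ (∃ B, ∀ z, ‖φ z‖ ≤ B) ∧ (∀ f ∈ S, ∫ z, φ z * f z ∂μ = 0) ∧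
      ∫ z, φ z * k z ∂μ ≠ 0 := by
  let M : Submodule ℂ (Lp ℂ 1 μ) :=
    { carrier := {x | ∃ f ∈ S, x =ᵐ[μ] f}
      add_mem' := by
        rintro x y ⟨f, hf, hx⟩ ⟨g, hg, hy⟩
        exact ⟨f + g, S.add_mem hf hg, (Lp.coeFn_add x y).trans (hx.add hy)⟩
      zero_mem' := ⟨0, S.zero_mem, Lp.coeFn_zero _ _ _⟩
      smul_mem' := by
        rintro c x ⟨f, hf, hx⟩
        exact ⟨c • f, S.smul_mem c hf, (Lp.coeFn_smul c x).trans (hx.const_smul c)⟩ }
  have hk' : hk.toL1 k ∉ closure (M : Set (Lp ℂ 1 μ)) := by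
    intro h
    obtain ⟨x, ⟨f, hf, hx⟩, hd'⟩ := Metric.mem_closure_iff.1 h δ hδ
    rw [dist_eq_norm, L1.norm_eq_integral_norm] at hd'
    have : ∫ a, ‖(hk.toL1 k - x) a‖ ∂μ = ∫ z, ‖k z - f z‖ ∂μ := by
      refine integral_congr_ae ?_
      filter_upwards [Lp.coeFn_sub (hk.toL1 k) x, hk.coeFn_toL1, hx] with a h1 h2 h3
      rw [h1, Pi.sub_apply, h2, h3]
    linarith [hd f hf]
  obtain ⟨ℓ, u, h1, h2⟩ := RCLike.geometric_hahn_banach_point_closed (𝕜 := ℂ)
    ((M.restrictScalars ℝ).convex.closure) isClosed_closure hk'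
  have hu : u < 0 := by simpa using h2 0 (subset_closure M.zero_mem)
  have hM : ∀ x ∈ M, ℓ x = 0 := by
    intro x hx
    by_contra hne
    have := h2 (((u : ℂ) / ℓ x) • x) (subset_closure (M.smul_mem _ hx))
    rw [map_smul, smul_eq_mul, div_mul_cancel₀ _ hne] at this
    simp at this
  obtain ⟨φ, hφm, hφb, hφ⟩ := dual_L1 μ ℓ
  refine ⟨φ, hφm, ⟨_, hφb⟩, fun f hf => ?_, fun h0 => ?_⟩
  · rw [← hM ((hS f hf).toL1 f) ⟨f, hf, (hS f hf).coeFn_toL1⟩, hφ]
    refine integral_congr_ae ?_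
    filter_upwards [(hS f hf).coeFn_toL1] with a ha
    rw [ha]
  · have : ℓ (hk.toL1 k) = 0 := by
      rw [hφ, ← h0]
      refine integral_congr_ae ?_
      filter_upwards [hk.coeFn_toL1] with a ha
      rw [ha]
    rw [this] at h1
    simp at h1
    linarith

lemma Hinf.add' {p q : ℂ → ℂ} (hp : Hinf p) (hq : Hinf q) : Hinf fun z => p z + q z := by
  obtain ⟨A, hA⟩ := hp.bdd
  obtain ⟨B, hB⟩ := hq.bdd
  exact ⟨hp.diff.add hq.diff, A + B, fun z hz =>
    (norm_add_le _ _).trans (add_le_add (hA z hz) (hB z hz))⟩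

lemma Hinf.mul' {p q : ℂ → ℂ} (hp : Hinf p) (hq : Hinf q) : Hinf fun z => p z * q z := by
  obtain ⟨A, hA⟩ := hp.bdd
  obtain ⟨B, hB⟩ := hq.bdd
  exact ⟨hp.diff.mul hq.diff, A * B, fun z hz => by
    rw [norm_mul]
    exact mul_le_mul (hA z hz) (hB z hz) (norm_nonneg _) ((norm_nonneg _).trans (hA z hz))⟩

lemma hinf_const (c : ℂ) : Hinf fun _ => c := ⟨differentiableOn_const c, ‖c‖, fun _ _ => le_rfl⟩

lemma hinf_sub_const (c : ℂ) : Hinf fun z => z - c :=
  ⟨by fun_prop, 1 + ‖c‖, fun z hz => (norm_sub_le _ _).trans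
    (by linarith [mem_ball_zero_iff.1 hz])⟩

lemma Hinf.sub' {p q : ℂ → ℂ} (hp : Hinf p) (hq : Hinf q) : Hinf fun z => p z - q z := by
  simpa [sub_eq_add_neg] using hp.add' ((hinf_const (-1)).mul' hq)

lemma Hinf.integrableOn_mul {p F : ℂ → ℂ} (hp : Hinf p) (hF : IntegrableOn F (ball 0 1)) :
    IntegrableOn (fun z => F z * p z) (ball 0 1) := by
  obtain ⟨B, hB⟩ := hp.bdd
  refine Integrable.mul_bdd (c := B) hF
    (hp.diff.continuousOn.aestronglyMeasurable measurableSet_ball) ?_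
  filter_upwards [ae_restrict_mem measurableSet_ball] with z hz using hB z hz

lemma integrableOn_kernel (ζ : ℂ) : IntegrableOn (fun z : ℂ => (z - ζ)⁻¹) (ball 0 1) := by
  rw [← integrable_indicator_iff measurableSet_ball]
  refine Dom.integrable (A := 10 * 1) ((dom_ball 0 ζ one_pos).mono (fun z => ?_) le_rfl) ?_
  · rw [norm_indicator_eq_indicator_norm]; simp
  · exact (Measurable.indicator (by fun_prop) measurableSet_ball).aestronglyMeasurable

lemma not_all_approx (F : ℂ → ℂ) (hF : IntegrableOn F (ball 0 1)) (hB : BPE fun z => ‖F z‖)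
    (Z : Set ℂ) (hZ : AccPt (0 : ℂ) (𝓟 Z))
    (h : ∀ ζ ∈ Z, ∀ δ : ℝ, 0 < δ → ∃ p, Hinf p ∧
      ∫ z in ball (0 : ℂ) 1, ‖(z - ζ)⁻¹ - F z * p z‖ < δ) : False := by
  obtain ⟨r, C0, hr, hr1, hC0⟩ := hB
  set C := |C0| with hCdef
  have hC0' : 0 ≤ C := abs_nonneg _
  have hC : ∀ p, Hinf p → ∀ w ∈ ball (0 : ℂ) r,
      ‖p w‖ ≤ C * ∫ z in ball (0 : ℂ) 1, ‖F z * p z‖ := by
    intro p hp w hw
    simp only [norm_mul]
    exact (hC0 p hp w hw).trans (mul_le_mul_of_nonneg_right (le_abs_self _)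
      (integral_nonneg fun z => mul_nonneg (norm_nonneg _) (norm_nonneg _)))
  have hfr := accPt_iff_frequently.1 hZ
  obtain ⟨ζ0, ⟨hζ00, hζ0⟩, hζ01⟩ := (hfr.and_eventually (ball_mem_nhds (0 : ℂ) one_pos)).exists
  have hζ01' : ‖ζ0‖ < 1 := mem_ball_zero_iff.1 hζ01
  have hpos : ∀ n : ℕ, (0 : ℝ) < 1 / ((n : ℝ) + 1) := fun n => by positivity
  choose p hp hpa using fun n : ℕ => h ζ0 hζ0 _ (hpos n)
  have hint : ∀ (ζ : ℂ) (q : ℂ → ℂ), Hinf q →
      IntegrableOn (fun z => ‖(z - ζ)⁻¹ - F z * q z‖) (ball 0 1) := fun ζ q hq =>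
    ((integrableOn_kernel ζ).sub (hq.integrableOn_mul hF)).norm
  have hcau : ∀ n m, ∀ w ∈ ball (0 : ℂ) r,
      ‖p n w - p m w‖ ≤ C * (1 / ((n : ℝ) + 1) + 1 / ((m : ℝ) + 1)) := by
    intro n m w hw
    refine (hC _ ((hp n).sub' (hp m)) w hw).trans (mul_le_mul_of_nonneg_left ?_ hC0')
    refine le_trans ?_ (add_le_add (hpa n).le (hpa m).le)
    rw [← integral_add (hint _ _ (hp n)) (hint _ _ (hp m))]
    refine integral_mono_of_nonneg (Eventually.of_forall fun _ => norm_nonneg _)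
      ((hint _ _ (hp n)).add (hint _ _ (hp m))) (Eventually.of_forall fun z => ?_)
    have : F z * (p n z - p m z) =
        -((z - ζ0)⁻¹ - F z * p n z) + ((z - ζ0)⁻¹ - F z * p m z) := by ring
    dsimp only
    rw [this]
    exact (norm_add_le _ _).trans (by rw [norm_neg])
  have hlim0 : Tendsto (fun n : ℕ => 1 / ((n : ℝ) + 1)) atTop (𝓝 0) :=
    tendsto_one_div_add_atTop_nhds_zero_nat
  have hex : ∀ w ∈ ball (0 : ℂ) r, ∃ a, Tendsto (fun n => p n w) atTop (𝓝 a) := by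
    intro w hw
    refine cauchySeq_tendsto_of_complete (cauchySeq_of_le_tendsto_0
      (fun N : ℕ => C * (2 * (1 / ((N : ℝ) + 1)))) (fun n m N hn hm => ?_) ?_)
    · rw [dist_eq_norm]
      refine (hcau n m w hw).trans (mul_le_mul_of_nonneg_left ?_ hC0')
      have h1 := Nat.one_div_le_one_div (α := ℝ) hn
      have h2 := Nat.one_div_le_one_div (α := ℝ) hm
      linarith
    · simpa using (hlim0.const_mul 2).const_mul C
  choose! H hH using hex
  have hH2 : ∀ n, ∀ w ∈ ball (0 : ℂ) r, ‖p n w - H w‖ ≤ C * (1 / ((n : ℝ) + 1)) := by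
    intro n w hw
    have h1 : Tendsto (fun m => ‖p n w - p m w‖) atTop (𝓝 ‖p n w - H w‖) :=
      (tendsto_const_nhds.sub (hH w hw)).norm
    have h2 : Tendsto (fun m : ℕ => C * (1 / ((n : ℝ) + 1) + 1 / ((m : ℝ) + 1))) atTop
        (𝓝 (C * (1 / ((n : ℝ) + 1) + 0))) := (tendsto_const_nhds.add hlim0).const_mul C
    simpa using le_of_tendsto_of_tendsto' h1 h2 fun m => hcau n m w hw
  have hC1 : Tendsto (fun n : ℕ => C * (1 / ((n : ℝ) + 1))) atTop (𝓝 0) := by
    simpa using hlim0.const_mul C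
  have hunif : TendstoUniformlyOn p H atTop (ball 0 r) := by
    rw [Metric.tendstoUniformlyOn_iff]
    intro ε hε
    filter_upwards [hC1.eventually (gt_mem_nhds hε)] with n hn w hw
    rw [dist_comm, dist_eq_norm]
    exact (hH2 n w hw).trans_lt hn
  have hHd : DifferentiableOn ℂ H (ball 0 r) :=
    hunif.tendstoLocallyUniformlyOn.differentiableOn
      (Eventually.of_forall fun n => (hp n).diff.mono (ball_subset_ball hr1)) isOpen_ball
  have hzero : ∀ ζ ∈ Z, ζ ∈ ball (0 : ℂ) r → ζ ≠ ζ0 → H ζ = 0 := by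
    intro ζ hζ hζr hne
    have hζ1 : ‖ζ‖ < 1 := (mem_ball_zero_iff.1 hζr).trans_le hr1
    have h1 : ∀ n, ‖(ζ - ζ0) * p n ζ‖ ≤ 4 * (C * (1 / ((n : ℝ) + 1))) := by
      intro n
      obtain ⟨q, hq, hqa⟩ := h ζ hζ _ (hpos n)
      have h2 := hC _ (((hinf_sub_const ζ0).mul' (hp n)).sub' ((hinf_sub_const ζ).mul' hq)) ζ hζr
      simp only [sub_self, zero_mul, sub_zero] at h2
      have h3 : ∫ z in ball (0 : ℂ) 1, ‖F z * ((z - ζ0) * p n z - (z - ζ) * q z)‖ ≤
          2 * (∫ z in ball (0 : ℂ) 1, ‖(z - ζ0)⁻¹ - F z * p n z‖) +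
          2 * ∫ z in ball (0 : ℂ) 1, ‖(z - ζ)⁻¹ - F z * q z‖ := by
        rw [← integral_const_mul, ← integral_const_mul,
          ← integral_add ((hint _ _ (hp n)).const_mul 2) ((hint _ _ hq).const_mul 2)]
        refine integral_mono_of_nonneg (Eventually.of_forall fun _ => norm_nonneg _)
          (((hint _ _ (hp n)).const_mul 2).add ((hint _ _ hq).const_mul 2)) ?_
        filter_upwards [ae_restrict_mem measurableSet_ball,
          ae_restrict_of_ae (Measure.ae_ne volume ζ0), ae_restrict_of_ae (Measure.ae_ne volume ζ)]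
          with z hz hz0 hz1
        have hz' : ‖z‖ < 1 := mem_ball_zero_iff.1 hz
        have e : F z * ((z - ζ0) * p n z - (z - ζ) * q z) =
            (z - ζ) * ((z - ζ)⁻¹ - F z * q z) - (z - ζ0) * ((z - ζ0)⁻¹ - F z * p n z) := by
          have := sub_ne_zero.2 hz0
          have := sub_ne_zero.2 hz1
          field_simp
          ring
        rw [e]
        refine (norm_sub_le _ _).trans ?_
        rw [norm_mul, norm_mul]
        have h4 : ‖z - ζ‖ ≤ 2 := (norm_sub_le _ _).trans (by linarith)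
        have h5 : ‖z - ζ0‖ ≤ 2 := (norm_sub_le _ _).trans (by linarith)
        have h6 := mul_le_mul_of_nonneg_right h4 (norm_nonneg ((z - ζ)⁻¹ - F z * q z))
        have h7 := mul_le_mul_of_nonneg_right h5 (norm_nonneg ((z - ζ0)⁻¹ - F z * p n z))
        linarith
      have h4 := mul_le_mul_of_nonneg_left
        (h3.trans (by linarith [hpa n] : _ ≤ 4 * (1 / ((n : ℝ) + 1)))) hC0'
      linarith
    have h2 : Tendsto (fun n => ‖(ζ - ζ0) * p n ζ‖) atTop (𝓝 ‖(ζ - ζ0) * H ζ‖) :=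
      ((hH ζ hζr).const_mul _).norm
    have h3 : ‖(ζ - ζ0) * H ζ‖ ≤ 4 * 0 := le_of_tendsto_of_tendsto' h2 (hC1.const_mul 4) h1
    rw [mul_zero, norm_le_zero_iff] at h3
    exact (mul_eq_zero.1 h3).resolve_left (sub_ne_zero.2 hne)
  have hH0 : EqOn H 0 (ball 0 r) := by
    refine (hHd.analyticOnNhd isOpen_ball).eqOn_zero_of_preconnected_of_frequently_eq_zero
      (convex_ball 0 r).isPreconnected (mem_ball_self hr) ?_
    have h1 := accPt_iff_frequently_nhdsNE.1 hZ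
    have h2 : ∀ᶠ z in 𝓝[≠] (0 : ℂ), z ∈ ball (0 : ℂ) r ∧ z ≠ ζ0 :=
      mem_nhdsWithin_of_mem_nhds (inter_mem (ball_mem_nhds 0 hr) (isOpen_ne.mem_nhds hζ00.symm))
    exact (h1.and_eventually h2).mono fun z hz => hzero z hz.1 hz.2.1 hz.2.2
  have hsub : ball (0 : ℂ) r ⊆ ball 0 1 := ball_subset_ball hr1
  have hfin : ∀ n : ℕ, 1 / 2 * (Real.pi * r ^ 2) ≤
      1 / ((n : ℝ) + 1) + C * (1 / ((n : ℝ) + 1)) * ∫ z in ball (0 : ℂ) 1, ‖F z‖ := by
    intro n
    have h1 : ∫ z in ball (0 : ℂ) 1, (ball (0 : ℂ) r).indicator (fun _ => (1 / 2 : ℝ)) z =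
        1 / 2 * (Real.pi * r ^ 2) := by
      rw [setIntegral_indicator measurableSet_ball, inter_eq_right.2 hsub, setIntegral_const,
        area_ball 0 hr.le, smul_eq_mul, mul_comm]
    rw [← h1]
    refine le_trans ?_ (add_le_add (hpa n).le le_rfl)
    rw [← integral_const_mul, ← integral_add (hint _ _ (hp n)) (hF.norm.const_mul _)]
    refine integral_mono_of_nonneg
      (Eventually.of_forall fun z => indicator_nonneg (fun _ _ => by norm_num) z)
      ((hint _ _ (hp n)).add (hF.norm.const_mul _)) ?_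
    filter_upwards [ae_restrict_of_ae (Measure.ae_ne volume ζ0)] with z hz0
    by_cases hz : z ∈ ball (0 : ℂ) r
    · rw [indicator_of_mem hz]
      have hz' : ‖z‖ < 1 := mem_ball_zero_iff.1 (hsub hz)
      have h5 : ‖z - ζ0‖ ≤ 2 := (norm_sub_le _ _).trans (by linarith)
      have h6 : 1 / 2 ≤ ‖(z - ζ0)⁻¹‖ := by
        rw [norm_inv, one_div]
        exact inv_anti₀ (norm_pos_iff.2 (sub_ne_zero.2 hz0)) h5
      have h7 := hH2 n z hz
      rw [hH0 hz, Pi.zero_apply, sub_zero] at h7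
      have h8 : ‖(z - ζ0)⁻¹‖ ≤ ‖(z - ζ0)⁻¹ - F z * p n z‖ + ‖F z‖ * ‖p n z‖ := by
        rw [← norm_mul]
        simpa using norm_add_le ((z - ζ0)⁻¹ - F z * p n z) (F z * p n z)
      have h9 := mul_le_mul_of_nonneg_left h7 (norm_nonneg (F z))
      linarith
    · rw [indicator_of_notMem hz]
      positivity
  have h1 := ge_of_tendsto' (hlim0.add (hC1.mul_const (∫ z in ball (0 : ℂ) 1, ‖F z‖))) hfin
  have h2 : 0 < Real.pi * r ^ 2 := by positivity
  simp only [zero_mul, add_zero] at h1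
  linarith

theorem exists_test_of_bpe (F : ℂ → ℂ) (hF : IntegrableOn F (ball 0 1))
    (hB : BPE fun z => ‖F z‖) (Z : Set ℂ) (hZ : AccPt (0 : ℂ) (𝓟 Z)) :
    ∃ φ, Test φ ∧ (∀ p, Hinf p → ∫ z in ball (0 : ℂ) 1, φ z * F z * p z = 0) ∧
      ∃ ζ ∈ Z, cauchy φ ζ ≠ 0 := by
  have h := not_all_approx F hF hB Z hZ
  simp only [imp_false, not_forall, not_exists, not_and, not_lt] at h
  obtain ⟨ζ, hζ, δ, hδ, hd⟩ := h
  let S : Submodule ℂ (ℂ → ℂ) :=
    { carrier := {f | ∃ p, Hinf p ∧ f = fun z => F z * p z}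
      add_mem' := by
        rintro _ _ ⟨p, hp, rfl⟩ ⟨q, hq, rfl⟩
        exact ⟨_, hp.add' hq, funext fun z => by simp [mul_add]⟩
      zero_mem' := ⟨_, hinf_const 0, funext fun z => by simp⟩
      smul_mem' := by
        rintro c _ ⟨p, hp, rfl⟩
        exact ⟨_, (hinf_const c).mul' hp, funext fun z => by simp [mul_left_comm]⟩ }
  have : IsFiniteMeasure (volume.restrict (ball (0 : ℂ) 1)) := ⟨by simp⟩
  obtain ⟨φ, hφm, ⟨B, hφb⟩, h1, h2⟩ := exists_annihilator (volume.restrict (ball (0 : ℂ) 1)) S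
    (by rintro _ ⟨p, hp, rfl⟩; exact hp.integrableOn_mul hF) (integrableOn_kernel ζ) hδ
    (by rintro _ ⟨p, hp, rfl⟩; exact hd p hp)
  refine ⟨(ball (0 : ℂ) 1).indicator φ, ⟨hφm.indicator measurableSet_ball, ⟨B, fun z => ?_⟩,
    fun z hz => indicator_of_notMem (by simpa using hz) _⟩, fun p hp => ?_, ζ, hζ, fun h0 => h2 ?_⟩
  · exact (norm_indicator_le_norm_self _ _).trans (hφb z)
  · refine Eq.trans ?_ (h1 _ ⟨p, hp, rfl⟩)
    refine setIntegral_congr_fun measurableSet_ball fun z hz => ?_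
    simp only [indicator_of_mem hz, mul_assoc]
  · refine Eq.trans ?_ h0
    rw [cauchy, ← integral_indicator measurableSet_ball]
    congr 1
    funext z
    by_cases hz : z ∈ ball (0 : ℂ) 1
    · simp only [indicator_of_mem hz, div_eq_mul_inv]
    · simp only [indicator_of_notMem hz, zero_div]

end Pool.Agent.P.MP_f981b0_an.R1
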