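import Pool.Agent.P.MP_f981b0_an.R1.Bump

/-! Removing the singularities near a jump disc costs only a factor `1 + K/M`. -/

open MeasureTheory Metric Set Real Complex

namespace Pool.Agent.P.MP_f981b0_an.R1

lemma Test.exists_dom {φ : ℂ → ℂ} (h : Test φ) :
    ∃ A : ℝ, 0 ≤ A ∧ ∀ w, Dom (fun z => ‖φ z / (z - w)‖) A := by
  obtain ⟨B, hB⟩ := h.bdd
  have hB0 : 0 ≤ B := (norm_nonneg _).trans (hB 0)
  refine ⟨B * (10 * 1), by positivity, fun w => ?_⟩
  refine ((dom_ball 0 w one_pos).const_mul hB0).mono (fun z => ?_) le_rfl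
  by_cases hz : z ∈ ball (0 : ℂ) 1
  · rw [indicator_of_mem hz, norm_div, div_eq_mul_inv]
    gcongr
    exact hB z
  · rw [indicator_of_notMem hz, h.supp z (by simpa using hz)]
    simp

lemma Test.integrable_kernel {φ : ℂ → ℂ} (h : Test φ) (w : ℂ) :
    Integrable fun z => φ z / (z - w) := by
  obtain ⟨A, -, hA⟩ := h.exists_dom
  have := h.meas
  exact (hA w).integrable (by fun_prop : Measurable fun z => φ z / (z - w)).aestronglyMeasurable

lemma Test.mul_real {φ : ℂ → ℂ} (h : Test φ) {χ : ℂ → ℝ} (hm : Measurable χ)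
    (h0 : ∀ z, 0 ≤ χ z) (h1 : ∀ z, χ z ≤ 1) : Test fun z => (χ z : ℂ) * φ z := by
  obtain ⟨B, hB⟩ := h.bdd
  have := h.meas
  refine ⟨by fun_prop, ⟨B, fun z => ?_⟩, fun z hz => by simp [h.supp z hz]⟩
  rw [norm_mul, Complex.norm_real, Real.norm_of_nonneg (h0 z)]
  exact (mul_le_of_le_one_left (norm_nonneg _) (h1 z)).trans (hB z)

lemma integrable_dbar_bump (c w : ℂ) {r : ℝ} (hr : 0 < r) :
    Integrable fun z => dbar (fun z => (bump c r z : ℂ)) z / (z - w) := by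
  have hm := (continuous_dbar (bump_contDiff c r)).measurable
  refine Dom.integrable (A := 40 * BB) ((dom_dbar_bump_crude c w hr).mono (fun z => ?_) le_rfl)
    (by fun_prop : Measurable fun z =>
      dbar (fun z => (bump c r z : ℂ)) z / (z - w)).aestronglyMeasurable
  rw [norm_div, div_eq_mul_inv]

/-- Vitushkin localisation formula. -/
lemma cauchy_bump_mul {φ : ℂ → ℂ} (h : Test φ) (c w : ℂ) {r : ℝ} (hr : 0 < r) :
    ∫ ζ, cauchy φ ζ * (dbar (fun z => (bump c r z : ℂ)) ζ / (ζ - w)) =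
      π * (cauchy (fun z => (bump c r z : ℂ) * φ z) w - bump c r w * cauchy φ w) := by
  set D := dbar (fun z => (bump c r z : ℂ)) with hD
  have hDm : Measurable D := (continuous_dbar (bump_contDiff c r)).measurable
  have hφm := h.meas
  obtain ⟨A, hA0, hA⟩ := h.exists_dom
  have hFm : Measurable fun p : ℂ × ℂ => φ p.2 / (p.2 - p.1) * (D p.1 / (p.1 - w)) := by
    fun_prop
  have hint : Integrable (fun p : ℂ × ℂ => φ p.2 / (p.2 - p.1) * (D p.1 / (p.1 - w)))
      (volume.prod volume) := by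
    rw [integrable_prod_iff hFm.aestronglyMeasurable]
    refine ⟨Filter.Eventually.of_forall fun ζ => (h.integrable_kernel ζ).mul_const
      (D ζ / (ζ - w)), ?_⟩
    refine ((integrable_dbar_bump c w hr).norm.const_mul A).mono'
      hFm.aestronglyMeasurable.norm.integral_prod_right' (Filter.Eventually.of_forall fun ζ => ?_)
    rw [Real.norm_of_nonneg (integral_nonneg fun _ => norm_nonneg _)]
    simp only [norm_mul]
    rw [integral_mul_const]
    gcongr
    exact (hA ζ).integral_le fun _ => norm_nonneg _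
  have s1 : ∫ ζ, cauchy φ ζ * (D ζ / (ζ - w)) =
      ∫ ζ, ∫ z, φ z / (z - ζ) * (D ζ / (ζ - w)) := by
    simp only [cauchy, integral_mul_const]
  have s2 : ∫ ζ, ∫ z, φ z / (z - ζ) * (D ζ / (ζ - w)) =
      ∫ z, ∫ ζ, φ z / (z - ζ) * (D ζ / (ζ - w)) := integral_integral_swap hint
  have s3 : ∀ z, z ≠ w → ∫ ζ, φ z / (z - ζ) * (D ζ / (ζ - w)) =
      π * ((bump c r z : ℂ) * φ z / (z - w) - bump c r w * (φ z / (z - w))) := by
    intro z hz
    have e1 : ∫ ζ, φ z / (z - ζ) * (D ζ / (ζ - w)) =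
        ∫ ζ, φ z / (z - w) * (D ζ / (ζ - w) - D ζ / (ζ - z)) := by
      refine integral_congr_ae ?_
      filter_upwards [Measure.ae_ne volume w, Measure.ae_ne volume z] with ζ h1 h2
      have h3 : z - w ≠ 0 := sub_ne_zero.2 hz
      have h4 : ζ - w ≠ 0 := sub_ne_zero.2 h1
      have h5 : ζ - z ≠ 0 := sub_ne_zero.2 h2
      have h6 : z - ζ ≠ 0 := sub_ne_zero.2 h2.symm
      field_simp
      ring
    rw [e1, integral_const_mul, integral_sub (integrable_dbar_bump c w hr)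
      (integrable_dbar_bump c z hr)]
    have e2 := cauchy_dbar_bump c hr w
    have e3 := cauchy_dbar_bump c hr z
    rw [cauchy] at e2 e3
    rw [e2, e3]
    ring
  rw [s1, s2, integral_congr_ae (g := fun z => π * ((bump c r z : ℂ) * φ z / (z - w) -
    bump c r w * (φ z / (z - w)))) (by
      filter_upwards [Measure.ae_ne volume w] with z hz using s3 z hz), integral_const_mul,
    integral_sub ((h.mul_real (bump_continuous c r).measurable (bump_nonneg c r)
      (bump_le_one c r)).integrable_kernel w) ((h.integrable_kernel w).const_mul _),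
    integral_const_mul]
  rfl

/-- The constant of the jump lemma. -/
noncomputable def KK : ℝ := 4000 * BB

lemma KK_pos : 0 < KK := by unfold KK; have := BB_pos; positivity

lemma norm_cauchy_bump_mul {φ : ℂ → ℂ} (h : Test φ) {m : ℝ} (hm : ∀ w, ‖cauchy φ w‖ ≤ m)
    (c w : ℂ) {r : ℝ} (hr : 0 < r) :
    ‖cauchy (fun z => (bump c r z : ℂ) * φ z) w - bump c r w * cauchy φ w‖ ≤
      m * (bump c r w + KK * (‖w - c‖ / (r + ‖w - c‖) - ‖w - c‖ / (2 * r + ‖w - c‖))) := by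
  have hm0 : 0 ≤ m := (norm_nonneg _).trans (hm 0)
  have h1 := cauchy_bump_mul h c w hr
  have h2 : ‖∫ ζ, cauchy φ ζ * (dbar (fun z => (bump c r z : ℂ)) ζ / (ζ - w))‖ ≤ _ :=
    Dom.norm_integral_le (((dom_dbar_bump c w hr).const_mul hm0).mono (fun z => by
      rw [norm_mul, norm_div, div_eq_mul_inv]
      gcongr
      exact hm z) le_rfl)
  rw [h1, norm_mul, Complex.norm_real, Real.norm_of_nonneg pi_pos.le] at h2
  have h3 : 0 ≤ ‖w - c‖ / (r + ‖w - c‖) - ‖w - c‖ / (2 * r + ‖w - c‖) := by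
    rw [sub_nonneg]
    gcongr
    linarith
  refine le_of_mul_le_mul_left (h2.trans ?_) pi_pos
  have h4 := mul_nonneg hm0 (mul_nonneg KK_pos.le h3)
  have h5 : (1 : ℝ) ≤ π := by linarith [pi_gt_three]
  unfold KK at *
  nlinarith

/-- Average of `M` dyadic bumps. -/
noncomputable def avg (c : ℂ) (a : ℝ) (M : ℕ) (z : ℂ) : ℝ :=
  (M : ℝ)⁻¹ * ∑ i ∈ Finset.range M, bump c (2 ^ (i + 1) * a) z

lemma avg_nonneg (c : ℂ) (a : ℝ) (M : ℕ) (z : ℂ) : 0 ≤ avg c a M z :=
  mul_nonneg (by positivity) (Finset.sum_nonneg fun _ _ => bump_nonneg _ _ _)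

lemma avg_le_one (c : ℂ) (a : ℝ) {M : ℕ} (hM : 0 < M) (z : ℂ) : avg c a M z ≤ 1 := by
  have h1 : ∑ i ∈ Finset.range M, bump c (2 ^ (i + 1) * a) z ≤ ∑ _i ∈ Finset.range M, (1 : ℝ) :=
    Finset.sum_le_sum fun _ _ => bump_le_one _ _ _
  have hM' : (0 : ℝ) < M := by exact_mod_cast hM
  rw [avg, inv_mul_le_iff₀ hM']
  simpa using h1

lemma avg_one {c z : ℂ} {a : ℝ} (ha : 0 < a) {M : ℕ} (hM : 0 < M) (hz : z ∈ ball c (2 * a)) :
    avg c a M z = 1 := by
  have hM' : (M : ℝ) ≠ 0 := by exact_mod_cast hM.ne'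
  rw [mem_ball, dist_eq_norm] at hz
  have h1 : ∑ i ∈ Finset.range M, bump c (2 ^ (i + 1) * a) z = ∑ _i ∈ Finset.range M, (1 : ℝ) := by
    refine Finset.sum_congr rfl fun i _ => bump_one (by positivity) (hz.le.trans ?_)
    have : (1 : ℝ) ≤ 2 ^ i := one_le_pow₀ one_le_two
    rw [pow_succ]
    nlinarith
  rw [avg, h1]
  simp [hM']

lemma avg_measurable (c : ℂ) (a : ℝ) (M : ℕ) : Measurable (avg c a M) := by
  refine Continuous.measurable ?_
  unfold avg
  exact continuous_const.mul (continuous_finsetSum _ fun _ _ => bump_continuous _ _)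

lemma cauchy_one_sub_avg {φ : ℂ → ℂ} (h : Test φ) (c w : ℂ) (a : ℝ) (M : ℕ) :
    cauchy (fun z => ((1 - avg c a M z : ℝ) : ℂ) * φ z) w = cauchy φ w -
      (M : ℂ)⁻¹ * ∑ i ∈ Finset.range M,
        cauchy (fun z => (bump c (2 ^ (i + 1) * a) z : ℂ) * φ z) w := by
  have hi : ∀ i ∈ Finset.range M, Integrable fun z =>
      (bump c (2 ^ (i + 1) * a) z : ℂ) * φ z / (z - w) := fun i _ =>
    (h.mul_real (bump_continuous _ _).measurable (bump_nonneg _ _)
      (bump_le_one _ _)).integrable_kernel w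
  simp only [cauchy]
  rw [← integral_finsetSum _ hi, ← integral_const_mul, ← integral_sub (h.integrable_kernel w)
    ((integrable_finsetSum _ hi).const_mul _)]
  congr 1
  funext z
  simp only [avg, ← Finset.sum_div, ← Finset.sum_mul]
  push_cast
  ring

lemma jump {φ : ℂ → ℂ} (h : Test φ) {m : ℝ} (hm : ∀ w, ‖cauchy φ w‖ ≤ m) (c : ℂ) {a : ℝ}
    (ha : 0 < a) {M : ℕ} (hM : 0 < M) (w : ℂ) :
    ‖cauchy (fun z => ((1 - avg c a M z : ℝ) : ℂ) * φ z) w‖ ≤ m * (1 + KK * (M : ℝ)⁻¹) := by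
  have hm0 : 0 ≤ m := (norm_nonneg _).trans (hm 0)
  have hK := KK_pos
  set d := ‖w - c‖ with hd
  have hd0 : 0 ≤ d := norm_nonneg _
  have e1 : cauchy (fun z => ((1 - avg c a M z : ℝ) : ℂ) * φ z) w =
      ((1 - avg c a M w : ℝ) : ℂ) * cauchy φ w - (M : ℂ)⁻¹ * ∑ i ∈ Finset.range M,
        (cauchy (fun z => (bump c (2 ^ (i + 1) * a) z : ℂ) * φ z) w -
          bump c (2 ^ (i + 1) * a) w * cauchy φ w) := by
    rw [cauchy_one_sub_avg h, Finset.sum_sub_distrib, ← Finset.sum_mul, avg]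
    push_cast
    ring
  have e2 : ∑ i ∈ Finset.range M, (d / (2 ^ (i + 1) * a + d) - d / (2 * (2 ^ (i + 1) * a) + d))
      ≤ 1 := by
    have := Finset.sum_range_sub' (fun i => d / (2 ^ (i + 1) * a + d)) M
    simp only [pow_succ' (2 : ℝ) (_ + 1), mul_assoc] at this
    rw [this]
    have h1 : d / (2 ^ (0 + 1) * a + d) ≤ 1 := by
      rw [div_le_one (by positivity)]
      have : 0 < 2 ^ (0 + 1) * a := by positivity
      linarith
    have h2 : 0 ≤ d / (2 ^ (M + 1) * a + d) := by positivity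
    linarith
  have e3 : ‖∑ i ∈ Finset.range M, (cauchy (fun z => (bump c (2 ^ (i + 1) * a) z : ℂ) * φ z) w -
      bump c (2 ^ (i + 1) * a) w * cauchy φ w)‖ ≤
      m * (∑ i ∈ Finset.range M, bump c (2 ^ (i + 1) * a) w + KK * 1) := by
    refine (norm_sum_le_of_le _ fun i _ =>
      norm_cauchy_bump_mul h hm c w (r := 2 ^ (i + 1) * a) (by positivity)).trans ?_
    rw [← Finset.mul_sum, Finset.sum_add_distrib, ← Finset.mul_sum]
    gcongr
  rw [e1]
  refine (norm_sub_le _ _).trans ?_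
  rw [norm_mul, norm_mul, Complex.norm_real, Real.norm_of_nonneg
    (sub_nonneg.2 (avg_le_one c a hM w)), norm_inv, Complex.norm_natCast]
  have h1 := sub_nonneg.2 (avg_le_one c a hM w)
  calc (1 - avg c a M w) * ‖cauchy φ w‖ + (M : ℝ)⁻¹ * _ ≤ (1 - avg c a M w) * m +
        (M : ℝ)⁻¹ * (m * (∑ i ∈ Finset.range M, bump c (2 ^ (i + 1) * a) w + KK * 1)) := by
        gcongr
        exact hm w
    _ = m * (1 + KK * (M : ℝ)⁻¹) := by rw [avg]; ring

lemma jump_far {φ : ℂ → ℂ} (h : Test φ) {m : ℝ} (hm : ∀ w, ‖cauchy φ w‖ ≤ m) (c : ℂ) {a : ℝ}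
    (ha : 0 < a) {M : ℕ} (hM : 0 < M) {w : ℂ} (hw : 1 ≤ ‖w - c‖) :
    ‖cauchy (fun z => ((1 - avg c a M z : ℝ) : ℂ) * φ z) w - cauchy φ w‖ ≤
      m * (4 + KK) * (2 ^ M * a) := by
  have hm0 : 0 ≤ m := (norm_nonneg _).trans (hm 0)
  have hK := KK_pos
  have hM' : (0 : ℝ) < M := by exact_mod_cast hM
  have key : ∀ r : ℝ, 0 < r → ‖cauchy (fun z => (bump c r z : ℂ) * φ z) w‖ ≤ m * (4 + KK) * r := by
    intro r hr
    have h1 := norm_cauchy_bump_mul h hm c w hr
    set d := ‖w - c‖ with hd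
    have h2 : bump c r w ≤ 2 * r := by
      by_cases h3 : 2 * r ≤ d
      · rw [bump_zero hr h3]; positivity
      · linarith [bump_le_one c r w]
    have h3 : d / (r + d) - d / (2 * r + d) ≤ r := by
      have he : d / (r + d) - d / (2 * r + d) = d * r / ((r + d) * (2 * r + d)) := by
        field_simp; ring
      rw [he, div_le_iff₀ (by positivity)]
      have : d ≤ (r + d) * (2 * r + d) := by nlinarith
      nlinarith
    have h4 : ‖(bump c r w : ℂ) * cauchy φ w‖ ≤ 2 * r * m := by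
      rw [norm_mul, Complex.norm_real, Real.norm_of_nonneg (bump_nonneg _ _ _)]
      have := hm w
      gcongr
    have h5 := norm_add_le (cauchy (fun z => (bump c r z : ℂ) * φ z) w - bump c r w * cauchy φ w)
      ((bump c r w : ℂ) * cauchy φ w)
    rw [sub_add_cancel] at h5
    have h6 : m * (bump c r w + KK * (d / (r + d) - d / (2 * r + d))) ≤ m * (2 * r + KK * r) := by
      gcongr
    nlinarith
  rw [cauchy_one_sub_avg h, sub_sub_cancel_left, norm_neg, norm_mul, norm_inv,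
    Complex.norm_natCast, inv_mul_le_iff₀ hM']
  refine (norm_sum_le_of_le (n := fun _ => m * (4 + KK) * (2 ^ M * a)) _ fun i hi =>
    (key _ (by positivity)).trans ?_).trans (by simp)
  have : (2 : ℝ) ^ (i + 1) ≤ 2 ^ M := pow_le_pow_right₀ one_le_two (Finset.mem_range.1 hi)
  gcongr

/-- All jumps at once. -/
lemma jumps (S : Finset (ℂ × ℝ × ℕ)) (hS : ∀ q ∈ S, 0 < q.2.1 ∧ 0 < q.2.2 ∧ ‖q.1‖ ≤ 1)
    {φ : ℂ → ℂ} (h : Test φ) {m : ℝ} (hm : ∀ w, ‖cauchy φ w‖ ≤ m) :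
    ∃ χ : ℂ → ℝ, Measurable χ ∧ (∀ z, 0 ≤ χ z) ∧ (∀ z, χ z ≤ 1) ∧
      (∀ q ∈ S, ∀ z ∈ ball q.1 (2 * q.2.1), χ z = 0) ∧
      (∀ w, ‖cauchy (fun z => (χ z : ℂ) * φ z) w‖ ≤ m * Real.exp (KK * ∑ q ∈ S, (q.2.2 : ℝ)⁻¹)) ∧
      ‖cauchy (fun z => (χ z : ℂ) * φ z) 2 - cauchy φ 2‖ ≤
        m * Real.exp (KK * ∑ q ∈ S, (q.2.2 : ℝ)⁻¹) * (4 + KK) * ∑ q ∈ S, 2 ^ q.2.2 * q.2.1 := by
  classical
  have hm0 : 0 ≤ m := (norm_nonneg _).trans (hm 0)
  have hK := KK_pos
  induction S using Finset.induction_on with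
  | empty =>
    refine ⟨fun _ => 1, measurable_const, fun _ => zero_le_one, fun _ => le_rfl, by simp, ?_, ?_⟩
    · simpa using hm
    · simp
  | insert q S hq ih =>
    obtain ⟨χ, c1, c2, c3, c4, c5, c6⟩ := ih fun x hx => hS x (Finset.mem_insert_of_mem hx)
    obtain ⟨ha, hM, hc⟩ := hS q (Finset.mem_insert_self _ _)
    have hT := h.mul_real c1 c2 c3
    have hav := avg_measurable q.1 q.2.1 q.2.2
    have e : (fun z => (((1 - avg q.1 q.2.1 q.2.2 z) * χ z : ℝ) : ℂ) * φ z) =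
        fun z => ((1 - avg q.1 q.2.1 q.2.2 z : ℝ) : ℂ) * ((χ z : ℂ) * φ z) := by
      funext z; push_cast; ring
    have hsum : 0 ≤ ∑ q ∈ S, 2 ^ q.2.2 * q.2.1 := Finset.sum_nonneg fun x hx => by
      have := (hS x (Finset.mem_insert_of_mem hx)).1
      positivity
    have hexp : Real.exp (KK * ∑ q ∈ S, (q.2.2 : ℝ)⁻¹) * (1 + KK * (q.2.2 : ℝ)⁻¹) ≤
        Real.exp (KK * ((q.2.2 : ℝ)⁻¹ + ∑ q ∈ S, (q.2.2 : ℝ)⁻¹)) := by
      rw [mul_add KK, Real.exp_add, mul_comm]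
      gcongr
      linarith [Real.add_one_le_exp (KK * (q.2.2 : ℝ)⁻¹)]
    have hexp2 : Real.exp (KK * ∑ q ∈ S, (q.2.2 : ℝ)⁻¹) ≤
        Real.exp (KK * ((q.2.2 : ℝ)⁻¹ + ∑ q ∈ S, (q.2.2 : ℝ)⁻¹)) := by
      gcongr
      exact le_add_of_nonneg_left (by positivity)
    refine ⟨fun z => (1 - avg q.1 q.2.1 q.2.2 z) * χ z, by fun_prop,
      fun z => mul_nonneg (sub_nonneg.2 (avg_le_one _ _ hM z)) (c2 z),
      fun z => mul_le_one₀ (by linarith [avg_nonneg q.1 q.2.1 q.2.2 z]) (c2 z) (c3 z), ?_, ?_, ?_⟩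
    · intro x hx z hz
      rcases Finset.mem_insert.1 hx with rfl | hx
      · simp [avg_one ha hM hz]
      · simp [c4 x hx z hz]
    · intro w
      rw [e, Finset.sum_insert hq]
      refine (jump hT c5 q.1 ha hM w).trans ?_
      rw [mul_assoc]
      gcongr
    · rw [e, Finset.sum_insert hq, Finset.sum_insert hq]
      have h2 : 1 ≤ ‖(2 : ℂ) - q.1‖ := by
        have := norm_sub_norm_le (2 : ℂ) q.1
        rw [Complex.norm_two] at this
        linarith
      have h3 := jump_far hT c5 q.1 ha hM h2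
      have h4 := norm_sub_le_norm_sub_add_norm_sub
        (cauchy (fun z => ((1 - avg q.1 q.2.1 q.2.2 z : ℝ) : ℂ) * ((χ z : ℂ) * φ z)) 2)
        (cauchy (fun z => (χ z : ℂ) * φ z) 2) (cauchy φ 2)
      refine (h4.trans (add_le_add h3 c6)).trans ?_
      rw [← mul_add]
      gcongr

end Pool.Agent.P.MP_f981b0_an.R1
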