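import Pool.Agent.P.MP_f981b0_an.R1.Calc
import Pool.Agent.P.MP_f981b0_an.R1.Cauchy
import Pool.Agent.P.MP_f981b0_an.R1.Cheap
import Pool.Agent.P.MP_f981b0_an.R1.Barrier
import Pool.Agent.P.MP_f981b0_an.R1.Dual

set_option autoImplicit false

noncomputable section

namespace Pool.Agent.P.MP_f981b0_an.R1

open MeasureTheory Metric Set Filter Topology

theorem norm_sub_ge_of_unit {z w : ℂ} (hz : ‖z‖ < 1) : ‖w‖ - 1 ≤ ‖z - w‖ := by
  have := norm_sub_norm_le w z
  rw [norm_sub_rev] at this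
  linarith

theorem one_lt_of_notMem {w : ℂ} (hw : w ∉ closedBall (0 : ℂ) 1) : 1 < ‖w‖ := by
  simpa using hw

theorem Test.div {φ : ℂ → ℂ} (h : Test φ) {w : ℂ} (hw : w ∉ closedBall (0 : ℂ) 1) :
    Test fun z => φ z / (z - w) := by
  obtain ⟨B, hB⟩ := h.bdd
  have hw' := one_lt_of_notMem hw
  have hB0 : 0 ≤ B := (norm_nonneg _).trans (hB 0)
  refine ⟨h.meas.div (by fun_prop), ⟨B / (‖w‖ - 1), fun z => ?_⟩, fun z hz => by simp [h.supp z hz]⟩
  by_cases hz : 1 ≤ ‖z‖
  · simp only [h.supp z hz, zero_div, norm_zero]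
    exact div_nonneg hB0 (by linarith)
  · rw [norm_div]
    exact div_le_div₀ hB0 (hB z) (by linarith) (norm_sub_ge_of_unit (not_le.1 hz))

theorem hinf_inv {w : ℂ} (hw : w ∉ closedBall (0 : ℂ) 1) : Hinf fun z => (z - w)⁻¹ := by
  have hw' := one_lt_of_notMem hw
  refine ⟨DifferentiableOn.inv (by fun_prop) fun z hz h => ?_, (‖w‖ - 1)⁻¹, fun z hz => ?_⟩
  · have := norm_sub_ge_of_unit (w := w) (mem_ball_zero_iff.1 hz)
    rw [h, norm_zero] at this
    linarith
  · rw [norm_inv]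
    exact inv_anti₀ (by linarith) (norm_sub_ge_of_unit (mem_ball_zero_iff.1 hz))

/-- The Cauchy transform as a continuous map. -/
def cau {φ : ℂ → ℂ} (h : Test φ) : C(ℂ, ℂ) := ⟨cauchy φ, continuous_cauchy h⟩

theorem cauchy_div {φ : ℂ → ℂ} (h : Test φ) {w : ℂ} (hw : w ∉ closedBall (0 : ℂ) 1) (ζ : ℂ) :
    dslope (cauchy φ) w ζ = cauchy (fun z => φ z / (z - w)) ζ := by
  have hd : DifferentiableAt ℂ (cauchy φ) w :=
    (differentiableOn_cauchy h).differentiableAt (isClosed_closedBall.isOpen_compl.mem_nhds hw)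
  have key : dslope (cauchy φ) w = cauchy fun z => φ z / (z - w) := by
    refine Continuous.ext_on (dense_compl_singleton w) (continuous_dslope (continuous_cauchy h) hd)
      (continuous_cauchy (h.div hw)) fun ζ hζ => ?_
    have hζ' : ζ ≠ w := hζ
    have hne : ζ - w ≠ 0 := sub_ne_zero.2 hζ'
    rw [dslope_of_ne _ hζ', slope_def_field, div_eq_iff hne, cauchy, cauchy, cauchy,
      ← integral_sub (integrable_cauchy h ζ) (integrable_cauchy h w), ← integral_mul_const]
    refine integral_congr_ae ?_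
    have : ∀ᵐ z : ℂ, z ≠ ζ := by simp [ae_iff]
    filter_upwards [this] with z hz
    by_cases hzw : z = w
    · have : φ z = 0 := h.supp z (by rw [hzw]; exact (one_lt_of_notMem hw).le)
      simp [this]
    · have h1 := sub_ne_zero.2 hz
      have h2 := sub_ne_zero.2 hzw
      field_simp
      ring
  rw [key]

variable {X : Type*} [TopologicalSpace X] [CompactSpace X]
variable {E : Type*} [NormedAddCommGroup E] [NormedSpace ℂ E]

theorem residual {ν : C(X, ℂ) →L[ℂ] ℂ} {a : C(X, ℂ)} {F : ℂ → ℂ}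
    (hF : ∀ φ, Test φ → ∀ G : C(X, ℂ), (∀ x, G x = cauchy φ (a x)) →
      ∫ z in ball (0 : ℂ) 1, φ z * F z = (∫ z in ball (0 : ℂ) 1, φ z) - ν G)
    {φ : ℂ → ℂ} (h : Test φ) {w : ℂ} (hw : w ∉ closedBall (0 : ℂ) 1) :
    ν (qq (cau h) a w) - cau h w = -∫ z in ball (0 : ℂ) 1, φ z * F z * (z - w)⁻¹ := by
  have hd : DifferentiableAt ℂ (cau h) w := diffAt_of_notMem (differentiableOn_cauchy h) hw
  have h1 := hF _ (h.div hw) (qq (cau h) a w) fun x => by
    rw [qq_apply a hd]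
    exact cauchy_div h hw _
  have h2 : ∫ z in ball (0 : ℂ) 1, φ z / (z - w) = cau h w := by
    refine setIntegral_eq_integral_of_forall_compl_eq_zero fun z hz => ?_
    rw [h.supp z (by simpa using hz), zero_div]
  have h3 : (fun z => φ z * F z * (z - w)⁻¹) = fun z => φ z / (z - w) * F z := by
    funext z
    ring
  rw [h3, h1, h2]
  ring

/-- The key proposition for the unit disc. -/
theorem key_unit [CompleteSpace E] (hE : Refl E) (Θ : C(X, ℂ) →ₐ[ℂ] (E →L[ℂ] E))
    (hΘ : Continuous Θ) (a : C(X, ℂ)) (u : E) (v : StrongDual ℂ E) {Z : Set ℂ}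
    (hZ : ∀ g : C(ℂ, ℂ), Θ (g.comp a) u = 0 → ∀ ζ ∈ Z, g ζ = 0) (hacc : AccPt (0 : ℂ) (𝓟 Z))
    (hinj : ∀ x, (Θ a + v.smulRight u) x = (2 : ℂ) • x → x = 0) :
    ∃ y, y ≠ 0 ∧ Loc (Θ a + v.smulRight u) (closedBall 0 1) y := by
  let ν : C(X, ℂ) →L[ℂ] ℂ := v.comp ((ContinuousLinearMap.apply ℂ E u).comp (clm Θ hΘ))
  have hν : ∀ G, ν G = v (Θ G u) := fun G => rfl
  obtain ⟨F, hFi, hF⟩ := exists_F ν a
  rcases bpe_or_route (fun z => ‖F z‖) hFi.norm (fun z => norm_nonneg _) with hB | hR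
  · obtain ⟨φ, hφ, h1, ζ, hζ, h2⟩ := exists_test_of_bpe F hFi hB Z hacc
    obtain ⟨B, hB⟩ := exists_norm_cauchy_le hφ
    refine ⟨Θ ((cau hφ).comp a) u, fun h0 => h2 (hZ _ h0 ζ hζ), ?_⟩
    refine loc_of_exact Θ hΘ a u v (differentiableOn_cauchy hφ) hB u
      fun w hw => ?_
    have := residual hF hφ hw
    rw [h1 _ (hinf_inv hw), neg_zero, sub_eq_zero, hν] at this
    rw [this]
  · obtain ⟨C, c, hc, hφ⟩ := cheap_of_route _ hFi.norm (fun z => norm_nonneg _) hR
    choose φ hφ h1 h2 h3 using fun k : ℕ => hφ (1 / ((k : ℝ) + 1)) (by positivity)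
    have hu : u ≠ 0 := by
      rintro rfl
      obtain ⟨ζ, hζ⟩ : Z.Nonempty := by
        by_contra hcon
        rw [not_nonempty_iff_eq_empty] at hcon
        simp only [hcon, AccPt, principal_empty, inf_bot_eq] at hacc
        exact hacc.ne rfl
      have := hZ 1 (map_zero _) ζ hζ
      simp at this
    refine loc_of_approx Θ hΘ a hE u hu v (F := fun k => cau (hφ k))
      (fun k => differentiableOn_cauchy (hφ k)) h1 (fun w hw => ?_) (w0 := 2) (by simp) hc h2 hinj
    have hw' := one_lt_of_notMem hw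
    have hlim : Tendsto (fun k : ℕ => 1 / ((k : ℝ) + 1) * (‖w‖ - 1)⁻¹) atTop (𝓝 0) := by
      simpa using tendsto_one_div_add_atTop_nhds_zero_nat.mul_const (‖w‖ - 1)⁻¹
    refine squeeze_zero_norm (fun k => ?_) hlim
    rw [← hν, residual hF (hφ k) hw, norm_neg]
    obtain ⟨B, hB⟩ := (hφ k).bdd
    have hint : IntegrableOn (fun z => ‖F z‖ * ‖φ k z‖) (ball (0 : ℂ) 1) :=
      hFi.norm.mul_bdd (c := B) (hφ k).meas.norm.aestronglyMeasurable
        (Eventually.of_forall fun z => by simpa using hB z)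
    calc ‖∫ z in ball (0 : ℂ) 1, φ k z * F z * (z - w)⁻¹‖
        ≤ ∫ z in ball (0 : ℂ) 1, ‖F z‖ * ‖φ k z‖ * (‖w‖ - 1)⁻¹ := by
          refine norm_integral_le_of_norm_le (hint.mul_const _) ?_
          filter_upwards [ae_restrict_mem measurableSet_ball] with z hz
          rw [norm_mul, norm_mul, norm_inv, mul_comm ‖φ k z‖]
          exact mul_le_mul_of_nonneg_left
            (inv_anti₀ (by linarith) (norm_sub_ge_of_unit (mem_ball_zero_iff.1 hz)))
            (by positivity)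
      _ ≤ _ := by
          rw [integral_mul_const]
          exact mul_le_mul_of_nonneg_right (h3 k) (inv_nonneg.2 (by linarith))

/-- The key proposition: near an accumulation point of the support of `u` there are nonzero
vectors with local spectrum in an arbitrarily small disc. -/
theorem key [CompleteSpace E] (hE : Refl E) (Θ : C(X, ℂ) →ₐ[ℂ] (E →L[ℂ] E))
    (hΘ : Continuous Θ) (a : C(X, ℂ)) (u : E) (v : StrongDual ℂ E) {Z : Set ℂ} {t : ℂ} {r : ℝ}
    (hr : 0 < r) (hZ : ∀ g : C(ℂ, ℂ), Θ (g.comp a) u = 0 → ∀ ζ ∈ Z, g ζ = 0)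
    (hacc : AccPt t (𝓟 Z))
    (hinj : ∀ x, (Θ a + v.smulRight u) x = (t + 2 * r) • x → x = 0) :
    ∃ y, y ≠ 0 ∧ Loc (Θ a + v.smulRight u) (closedBall t r) y := by
  have hr' : (r : ℂ) ≠ 0 := by exact_mod_cast hr.ne'
  let e : ℂ ≃ₜ ℂ := (Homeomorph.subRight t).trans
    (Homeomorph.mulLeft₀ (r : ℂ)⁻¹ (inv_ne_zero hr'))
  have he : ∀ z, e z = (r : ℂ)⁻¹ * (z - t) := fun z => rfl
  let a' : C(X, ℂ) := (r : ℂ)⁻¹ • (a - t • 1)
  have hT : Θ a' + v.smulRight ((r : ℂ)⁻¹ • u) = (r : ℂ)⁻¹ • (Θ a + v.smulRight u - t • 1) := by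
    ext x
    simp only [a', map_smul, map_sub, map_one, ContinuousLinearMap.add_apply,
      ContinuousLinearMap.smul_apply, ContinuousLinearMap.sub_apply,
      ContinuousLinearMap.smulRight_apply, smul_sub, smul_add, smul_comm (v x)]
    abel
  refine (key_unit hE Θ hΘ a' ((r : ℂ)⁻¹ • u) v (Z := e '' Z) ?_ ?_ ?_).imp fun y hy => ?_
  rotate_right
  · rw [hT] at hy
    exact ⟨hy.1, hy.2.affine hr⟩
  · rintro g hg _ ⟨ζ, hζ, rfl⟩
    refine hZ (g.comp ⟨e, e.continuous⟩) ?_ ζ hζ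
    have h1 : (g.comp ⟨e, e.continuous⟩).comp a = g.comp a' := by
      ext x
      simp [a', he]
    rw [h1]
    rw [map_smul, smul_eq_zero] at hg
    exact hg.resolve_left (inv_ne_zero hr')
  · have := hacc.map e.continuous.continuousAt e.injective
    rw [map_principal] at this
    simpa [he] using this
  · intro x hx
    rw [hT] at hx
    apply hinj
    have h1 := congrArg (fun z => (r : ℂ) • z) hx
    simp only [ContinuousLinearMap.smul_apply, ContinuousLinearMap.sub_apply, smul_smul,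
      mul_inv_cancel₀ hr', one_smul, ContinuousLinearMap.one_apply] at h1
    rw [add_smul, mul_comm, ← h1]
    abel

end Pool.Agent.P.MP_f981b0_an.R1
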