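import Mathlib

set_option autoImplicit false

noncomputable section

namespace Pool.Agent.P.MP_f981b0_an.R1

open Metric Set Filter Topology

variable {E : Type*} [NormedAddCommGroup E] [NormedSpace ℂ E]

/-- The vector `y` has an analytic local resolvent outside `A`, vanishing at infinity. -/
def Loc (T : E →L[ℂ] E) (A : Set ℂ) (y : E) : Prop :=
  ∃ g : ℂ → E, DifferentiableOn ℂ g Aᶜ ∧ Tendsto g (cocompact ℂ) (𝓝 0) ∧
    ∀ w, w ∉ A → T (g w) - w • g w = y

/-- The Banach space adjoint. -/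
def dualOp (T : E →L[ℂ] E) : StrongDual ℂ E →L[ℂ] StrongDual ℂ E :=
  (ContinuousLinearMap.compL ℂ E E ℂ).flip T

@[simp] theorem dualOp_apply (T : E →L[ℂ] E) (e : StrongDual ℂ E) (x : E) :
    dualOp T e x = e (T x) := rfl

/-- There is a nontrivial closed hyperinvariant subspace. -/
def Hyper (T : E →L[ℂ] E) : Prop :=
  ∃ M : Submodule ℂ E, IsClosed (M : Set E) ∧ M ≠ ⊥ ∧ M ≠ ⊤ ∧
    ∀ A : E →L[ℂ] E, A * T = T * A → ∀ x ∈ M, A x ∈ M

theorem Loc.comm {T S : E →L[ℂ] E} {A : Set ℂ} {y : E} (h : Loc T A y) (hS : S * T = T * S) :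
    Loc T A (S y) := by
  obtain ⟨g, h1, h2, h3⟩ := h
  refine ⟨fun w => S (g w), S.differentiable.comp_differentiableOn h1, ?_, fun w hw => ?_⟩
  · have := (S.continuous.tendsto 0).comp h2
    rw [map_zero] at this
    exact this
  · rw [← h3 w hw, map_sub, map_smul]
    have := congrArg (fun L : E →L[ℂ] E => L (g w)) hS
    simp only [ContinuousLinearMap.mul_apply] at this
    rw [this]

theorem Loc.mono {T : E →L[ℂ] E} {A B : Set ℂ} {y : E} (h : Loc T A y) (hAB : A ⊆ B) :
    Loc T B y := by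
  obtain ⟨g, h1, h2, h3⟩ := h
  exact ⟨g, h1.mono (compl_subset_compl.2 hAB), h2, fun w hw => h3 w fun h => hw (hAB h)⟩

/-- The vectors with local resolvent outside `A` form a linear subspace. -/
def locSub (T : E →L[ℂ] E) (A : Set ℂ) : Submodule ℂ E where
  carrier := {y | Loc T A y}
  zero_mem' := ⟨fun _ => 0, differentiableOn_const 0, tendsto_const_nhds, fun w _ => by simp⟩
  add_mem' := by
    rintro y z ⟨g, h1, h2, h3⟩ ⟨k, k1, k2, k3⟩
    refine ⟨fun w => g w + k w, h1.add k1, by simpa using h2.add k2, fun w hw => ?_⟩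
    rw [← h3 w hw, ← k3 w hw, map_add, smul_add]
    abel
  smul_mem' := by
    rintro c y ⟨g, h1, h2, h3⟩
    refine ⟨fun w => c • g w, h1.const_smul c, by simpa using h2.const_smul c, fun w hw => ?_⟩
    rw [← h3 w hw, map_smul, smul_sub, smul_comm]

theorem Loc.pair_aux {T : E →L[ℂ] E} {A B : Set ℂ} (hA : IsCompact A) (hB : IsClosed B)
    (hAB : Disjoint A B) {y : E} {e : StrongDual ℂ E} {g : ℂ → E}
    (h1 : DifferentiableOn ℂ g Aᶜ) (h2 : Tendsto g (cocompact ℂ) (𝓝 0))
    (h3 : ∀ w, w ∉ A → T (g w) - w • g w = y) (he : Loc (dualOp T) B e) :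
    ∀ w, w ∉ A → e (g w) = 0 := by
  classical
  obtain ⟨k, k1, -, k3⟩ := he
  set h : ℂ → ℂ := fun w => if w ∈ A then k w y else e (g w) with hh
  have hoffA : ∀ w, w ∉ A → h w = e (g w) := fun w hw => by simp [hh, hw]
  have hoffB : ∀ w, w ∉ B → h w = k w y := fun w hw => by
    by_cases hw' : w ∈ A
    · simp [hh, hw']
    · rw [hoffA w hw', ← k3 w hw, ← h3 w hw']
      simp
  have hd : Differentiable ℂ h := by
    intro w
    by_cases hw : w ∈ A
    · have hwB : w ∉ B := fun h => Set.disjoint_left.1 hAB hw h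
      have hn : Bᶜ ∈ 𝓝 w := hB.isOpen_compl.mem_nhds hwB
      have : DifferentiableAt ℂ (fun w => k w y) w :=
        (k1.differentiableAt hn).clm_apply (differentiableAt_const y)
      exact this.congr_of_eventuallyEq (mem_of_superset hn fun z hz => hoffB z hz)
    · have hn : Aᶜ ∈ 𝓝 w := hA.isClosed.isOpen_compl.mem_nhds hw
      have : DifferentiableAt ℂ (fun w => e (g w)) w :=
        e.differentiableAt.comp w (h1.differentiableAt hn)
      exact this.congr_of_eventuallyEq (mem_of_superset hn fun z hz => hoffA z hz)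
  have ht : Tendsto h (cocompact ℂ) (𝓝 0) := by
    have h4 := (e.continuous.tendsto 0).comp h2
    rw [map_zero] at h4
    refine h4.congr' ?_
    filter_upwards [hA.compl_mem_cocompact] with w hw
    exact (hoffA w hw).symm
  intro w hw
  rw [← hoffA w hw]
  exact hd.apply_eq_of_tendsto_cocompact w ht

theorem Loc.pair {T : E →L[ℂ] E} {A B : Set ℂ} (hA : IsCompact A) (hB : IsClosed B)
    (hAB : Disjoint A B) {y : E} {e : StrongDual ℂ E} (hy : Loc T A y)
    (he : Loc (dualOp T) B e) : e y = 0 := by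
  obtain ⟨g, h1, h2, h3⟩ := hy
  have h4 := Loc.pair_aux hA hB hAB h1 h2 h3 he
  have h5 : ∀ w, w ∉ A → e (T (g w)) = 0 := by
    refine Loc.pair_aux (y := T y) hA hB hAB (T.differentiable.comp_differentiableOn h1) ?_
      (fun w hw => ?_) he
    · have := (T.continuous.tendsto 0).comp h2
      rw [map_zero] at this
      exact this
    · rw [← h3 w hw, map_sub, map_smul]
  obtain ⟨w, hw⟩ : ∃ w, w ∉ A := by
    by_contra hcon
    push Not at hcon
    exact noncompact_univ ℂ (by rwa [← eq_univ_of_forall hcon])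
  rw [← h3 w hw, map_sub, map_smul, h4 w hw, h5 w hw]
  simp

theorem hyper_of_sub {T : E →L[ℂ] E} (V : Submodule ℂ E) {y : E} {e : StrongDual ℂ E}
    (hy : y ∈ V) (hy0 : y ≠ 0) (he : ∀ x ∈ V, e x = 0) (he0 : e ≠ 0)
    (hV : ∀ A : E →L[ℂ] E, A * T = T * A → ∀ x ∈ V, A x ∈ V) : Hyper T := by
  refine ⟨V.topologicalClosure, V.isClosed_topologicalClosure, ?_, ?_, ?_⟩
  · intro h
    have := V.le_topologicalClosure hy
    rw [h] at this
    exact hy0 (by simpa using this)
  · intro h
    apply he0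
    ext x
    have hx : x ∈ V.topologicalClosure := by rw [h]; trivial
    have hcl : closure (V : Set E) ⊆ {x | e x = 0} :=
      closure_minimal he (isClosed_eq e.continuous continuous_const)
    exact hcl hx
  · intro A hA x hx
    have : MapsTo A (V : Set E) (V : Set E) := fun z hz => hV A hA z hz
    exact this.closure A.continuous hx

theorem hyper_of_loc {T : E →L[ℂ] E} {A B : Set ℂ} (hA : IsCompact A) (hB : IsClosed B)
    (hAB : Disjoint A B) {y : E} {e : StrongDual ℂ E} (hy : Loc T A y) (hy0 : y ≠ 0)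
    (he : Loc (dualOp T) B e) (he0 : e ≠ 0) : Hyper T :=
  hyper_of_sub (locSub T A) hy hy0 (fun _ hx => Loc.pair hA hB hAB hx he) he0
    fun _ hS _ hx => Loc.comm hx hS

theorem hyper_of_eigen {T : E →L[ℂ] E} (hs : ∀ c : ℂ, T ≠ c • 1) {x : E} {w : ℂ} (hx : x ≠ 0)
    (h : T x = w • x) : Hyper T := by
  refine ⟨(T - w • 1 : E →L[ℂ] E).ker, ContinuousLinearMap.isClosed_ker _, ?_, ?_, ?_⟩
  · intro hb
    have : x ∈ (T - w • 1 : E →L[ℂ] E).ker := by simp [h]
    rw [hb] at this
    exact hx (by simpa using this)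
  · intro ht
    apply hs w
    ext z
    have : z ∈ (T - w • 1 : E →L[ℂ] E).ker := by rw [ht]; trivial
    simpa [sub_eq_zero] using this
  · intro A hA z hz
    have hz' : T z = w • z := by simpa [sub_eq_zero] using hz
    have := congrArg (fun L : E →L[ℂ] E => L z) hA
    simp only [ContinuousLinearMap.mul_apply] at this
    simp [sub_eq_zero, ← this, hz']

theorem hyper_of_dual_eigen {T : E →L[ℂ] E} (hs : ∀ c : ℂ, T ≠ c • 1) {e : StrongDual ℂ E}
    {w : ℂ} (he : e ≠ 0) (h : dualOp T e = w • e) : Hyper T := by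
  obtain ⟨x, hx⟩ : ∃ x, T x - w • x ≠ 0 := by
    by_contra hcon
    push Not at hcon
    apply hs w
    ext z
    simpa [sub_eq_zero] using hcon z
  refine hyper_of_sub (T - w • 1 : E →L[ℂ] E).range (y := T x - w • x) ⟨x, by simp⟩ hx ?_ he ?_
  · rintro _ ⟨z, rfl⟩
    have := congrArg (fun L : StrongDual ℂ E => L z) h
    simp only [dualOp_apply, ContinuousLinearMap.smul_apply] at this
    simp [this]
  · rintro A hA _ ⟨z, rfl⟩
    refine ⟨A z, ?_⟩
    have := congrArg (fun L : E →L[ℂ] E => L z) hA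
    simp only [ContinuousLinearMap.mul_apply] at this
    simp [this]

/-- Transport of local resolvents under an affine change of the operator. -/
theorem Loc.affine {T : E →L[ℂ] E} {t : ℂ} {r : ℝ} (hr : 0 < r) {y : E}
    (h : Loc ((r : ℂ)⁻¹ • (T - t • 1)) (closedBall 0 1) y) : Loc T (closedBall t r) y := by
  obtain ⟨g, h1, h2, h3⟩ := h
  have hr' : (r : ℂ) ≠ 0 := by exact_mod_cast hr.ne'
  have hmem : ∀ w, w ∉ closedBall t r → (r : ℂ)⁻¹ * (w - t) ∉ closedBall (0 : ℂ) 1 := by
    intro w hw hcon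
    apply hw
    rw [mem_closedBall, dist_zero_right, norm_mul, norm_inv, Complex.norm_real,
      Real.norm_of_nonneg hr.le, ← div_eq_inv_mul, div_le_one hr] at hcon
    rwa [mem_closedBall, dist_eq_norm]
  refine ⟨fun w => (r : ℂ)⁻¹ • g ((r : ℂ)⁻¹ * (w - t)), ?_, ?_, fun w hw => ?_⟩
  · refine DifferentiableOn.const_smul ?_ _
    exact h1.comp (by fun_prop) fun w hw => hmem w hw
  · have ha : Tendsto (fun w : ℂ => (r : ℂ)⁻¹ * (w - t)) (cocompact ℂ) (cocompact ℂ) := by
      have := ((Homeomorph.subRight t).trans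
        (Homeomorph.mulLeft₀ (r : ℂ)⁻¹ (inv_ne_zero hr'))).toCocompactMap.cocompact_tendsto'
      exact this
    simpa using (h2.comp ha).const_smul (r : ℂ)⁻¹
  · rw [← h3 _ (hmem w hw)]
    simp only [map_smul, ContinuousLinearMap.smul_apply, ContinuousLinearMap.sub_apply,
      ContinuousLinearMap.one_apply, smul_sub, smul_smul]
    rw [mul_sub, sub_smul, mul_comm w]
    abel

end Pool.Agent.P.MP_f981b0_an.R1
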