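import Pool.Agent.P.MP_f981b0_an.R1.Three
import Pool.Agent.P.MP_f981b0_an.R1.Loc

set_option autoImplicit false

noncomputable section

namespace Pool.Agent.P.MP_f981b0_an.R1

open Metric Set Filter Topology

variable {E : Type*} [NormedAddCommGroup E] [NormedSpace ℂ E]

/-- Reflexivity. -/
def Refl (E : Type*) [NormedAddCommGroup E] [NormedSpace ℂ E] : Prop :=
  Function.Surjective (NormedSpace.inclusionInDoubleDual ℂ E)

theorem Refl.dual (h : Refl E) : Refl (StrongDual ℂ E) := by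
  intro Ψ
  refine ⟨Ψ.comp (NormedSpace.inclusionInDoubleDual ℂ E), ?_⟩
  ext Φ
  obtain ⟨x, rfl⟩ := h Φ
  rfl

theorem exists_ultra_lim {ι : Type*} (U : Ultrafilter ι) {c : ι → ℂ} {B : ℝ}
    (hB : ∀ k, ‖c k‖ ≤ B) : ∃ l, Tendsto c U (𝓝 l) := by
  obtain ⟨l, -, hl⟩ := (isCompact_closedBall (0 : ℂ) B).ultrafilter_le_nhds (U.map c) (by
    rw [Ultrafilter.coe_map, le_principal_iff, mem_map]
    exact Eventually.of_forall fun k => by simpa using hB k)
  exact ⟨l, hl⟩

theorem Refl.exists_weak_lim (h : Refl E) {ι : Type*} (U : Ultrafilter ι) {x : ι → E} {B : ℝ}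
    (hB : ∀ k, ‖x k‖ ≤ B) :
    ∃ y : E, ∀ e : StrongDual ℂ E, Tendsto (fun k => e (x k)) U (𝓝 (e y)) := by
  have h1 : ∀ e : StrongDual ℂ E, ∀ k, ‖e (x k)‖ ≤ B * ‖e‖ := fun e k => by
    rw [mul_comm]
    exact (e.le_opNorm _).trans (mul_le_mul_of_nonneg_left (hB k) (norm_nonneg _))
  choose l hl using fun e : StrongDual ℂ E => exists_ultra_lim U (h1 e)
  let L : StrongDual ℂ E →ₗ[ℂ] ℂ :=
    { toFun := l
      map_add' := fun e e' => tendsto_nhds_unique (hl (e + e')) ((hl e).add (hl e'))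
      map_smul' := fun c e => tendsto_nhds_unique (hl (c • e)) ((hl e).const_smul c) }
  have hL : ∀ e, ‖L e‖ ≤ B * ‖e‖ := fun e =>
    le_of_tendsto (hl e).norm (Eventually.of_forall (h1 e))
  obtain ⟨y, hy⟩ := h (L.mkContinuous B hL)
  refine ⟨y, fun e => ?_⟩
  have : e y = l e := congrArg (fun Φ : StrongDual ℂ (StrongDual ℂ E) => Φ e) hy
  rw [this]
  exact hl e

theorem norm_le_of_weak {ι : Type*} {U : Filter ι} [U.NeBot] {x : ι → E} {y : E} {B : ℝ}
    (h : ∀ e : StrongDual ℂ E, Tendsto (fun k => e (x k)) U (𝓝 (e y))) (hB : ∀ k, ‖x k‖ ≤ B) :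
    ‖y‖ ≤ B := by
  obtain ⟨k⟩ : Nonempty ι := nonempty_of_neBot U
  refine NormedSpace.norm_le_dual_bound ℂ y ((norm_nonneg _).trans (hB k)) fun e => ?_
  refine le_of_tendsto (h e).norm (Eventually.of_forall fun k => ?_)
  rw [mul_comm]
  exact (e.le_opNorm _).trans (mul_le_mul_of_nonneg_left (hB k) (norm_nonneg _))

theorem ball_subset_compl {t w : ℂ} {r : ℝ} :
    ball w (‖w - t‖ - r) ⊆ (closedBall t r)ᶜ := by
  intro z hz hc
  rw [mem_ball] at hz
  rw [mem_closedBall] at hc
  have := dist_triangle_left w t z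
  rw [dist_eq_norm w t] at this
  linarith

theorem pos_of_notMem {t w : ℂ} {r : ℝ} (hw : w ∉ closedBall t r) : 0 < ‖w - t‖ - r := by
  rw [mem_closedBall, dist_eq_norm, not_le] at hw
  linarith

theorem tendsto_zero_of_bound {g : ℂ → E} {t : ℂ} {r C : ℝ}
    (h : ∀ w, w ∉ closedBall t r → ‖g w‖ ≤ C / (‖w - t‖ - r)) :
    Tendsto g (cocompact ℂ) (𝓝 0) := by
  have h1 : Tendsto (fun w : ℂ => ‖w - t‖ - r) (cocompact ℂ) atTop := by
    refine tendsto_atTop_add_const_right _ (-r) ?_
    have := (Homeomorph.subRight t).toCocompactMap.cocompact_tendsto'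
    exact (tendsto_norm_cocompact_atTop (E := ℂ)).comp this
  refine squeeze_zero_norm' ?_ (tendsto_const_nhds (x := C) |>.div_atTop h1)
  filter_upwards [(isCompact_closedBall t r).compl_mem_cocompact] with w hw using h w hw

/-- Weak limits of approximate local resolvents. -/
theorem Refl.loc_limit [CompleteSpace E] (h : Refl E) (T : E →L[ℂ] E) {ι : Type*}
    (U : Ultrafilter ι) {t : ℂ} {r C B : ℝ} {g : ι → ℂ → E} {y : ι → E}
    (hd : ∀ k, DifferentiableOn ℂ (g k) (closedBall t r)ᶜ)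
    (hg : ∀ k w, w ∉ closedBall t r → ‖g k w‖ ≤ C / (‖w - t‖ - r))
    (hy : ∀ k, ‖y k‖ ≤ B)
    (hres : ∀ w, w ∉ closedBall t r →
      Tendsto (fun k => T (g k w) - w • g k w - y k) U (𝓝 0)) :
    ∃ (y' : E) (g' : ℂ → E), Loc T (closedBall t r) y' ∧
      (∀ w, w ∉ closedBall t r → T (g' w) - w • g' w = y') ∧
      (∀ e : StrongDual ℂ E, Tendsto (fun k => e (y k)) U (𝓝 (e y'))) ∧
      ∀ w, w ∉ closedBall t r → ∀ e : StrongDual ℂ E,
        Tendsto (fun k => e (g k w)) U (𝓝 (e (g' w))) := by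
  obtain ⟨y', hy'⟩ := h.exists_weak_lim U hy
  have hex : ∀ w, ∃ z : E, w ∉ closedBall t r → ∀ e : StrongDual ℂ E,
      Tendsto (fun k => e (g k w)) U (𝓝 (e z)) := by
    intro w
    by_cases hw : w ∈ closedBall t r
    · exact ⟨0, fun h => absurd hw h⟩
    · obtain ⟨z, hz⟩ := h.exists_weak_lim U (fun k => hg k w hw)
      exact ⟨z, fun _ => hz⟩
  choose g' hg' using hex
  have hres' : ∀ w, w ∉ closedBall t r → T (g' w) - w • g' w = y' := by
    intro w hw
    rw [SeparatingDual.eq_iff_forall_dual_eq (R := ℂ)]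
    intro e
    have h1 := ((hg' w hw (e.comp T)).sub ((hg' w hw e).const_smul w)).sub (hy' e)
    have h2 := (e.continuous.tendsto 0).comp (hres w hw)
    rw [map_zero] at h2
    have h3 := tendsto_nhds_unique h1 (h2.congr fun k => by simp)
    rw [sub_eq_zero] at h3
    simpa using h3
  refine ⟨y', g', ⟨g', ?_, ?_, hres'⟩, hres', hy', hg'⟩
  · intro w hw
    have hp := pos_of_notMem hw
    set δ : ℝ := (‖w - t‖ - r) / 4 with hδ
    have hδ0 : 0 < δ := by positivity
    have hsub : ball w (2 * δ) ⊆ (closedBall t r)ᶜ :=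
      (ball_subset_ball (by linarith)).trans ball_subset_compl
    obtain ⟨k0⟩ : Nonempty ι := nonempty_of_neBot (U : Filter ι)
    have hC : 0 ≤ C := by
      have := (norm_nonneg _).trans (hg k0 w hw)
      exact (div_nonneg_iff.1 this).elim (fun h => h.1) fun h => absurd h.2 (not_le.2 hp)
    have hb : ∀ k, ∀ z ∈ ball w (2 * δ), ‖g k z‖ ≤ C / (2 * δ) := by
      intro k z hz
      refine (hg k z (hsub hz)).trans (div_le_div_of_nonneg_left hC (by positivity) ?_)
      rw [mem_ball, dist_eq_norm] at hz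
      have := norm_sub_le_norm_sub_add_norm_sub w z t
      rw [norm_sub_rev w z] at this
      linarith
    have h3 : Three g' w (δ / 2) (2 * (C / (2 * δ)) / δ ^ 2) := by
      intro a ha b hb' haw hbw
      have hs : ball w (δ / 2) ⊆ (closedBall t r)ᶜ :=
        (ball_subset_ball (by linarith)).trans hsub
      refine norm_le_of_weak (U := (U : Filter ι))
        (x := fun k => slope (g k) w a - slope (g k) w b) (fun e => ?_) fun k =>
          three_of_diff hδ0 ((hd k).mono hsub) (hb k) a ha b hb' haw hbw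
      simp only [slope_def_module, map_sub, map_smul]
      exact (((hg' a (hs ha) e).sub (hg' w hw e)).const_smul _).sub
        (((hg' b (hs hb') e).sub (hg' w hw e)).const_smul _)
    exact (diff_of_three (by positivity) h3).differentiableWithinAt
  · exact tendsto_zero_of_bound (t := t) (r := r) (C := C) fun w hw =>
      norm_le_of_weak (hg' w hw) fun k => hg k w hw

end Pool.Agent.P.MP_f981b0_an.R1
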