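import Pool.Agent.P.MP_f981b0_an.R1.Key
import Pool.Agent.P.MP_f981b0_an.R1.Cases

set_option autoImplicit false

noncomputable section

namespace Pool.Agent.P.MP_f981b0_an.R1

open Metric Set Filter Topology

variable {X : Type*} [TopologicalSpace X] [CompactSpace X]
variable {E : Type*} [NormedAddCommGroup E] [NormedSpace ℂ E]

/-- The dual functional calculus. -/
def dualCalc (Θ : C(X, ℂ) →ₐ[ℂ] (E →L[ℂ] E)) :
    C(X, ℂ) →ₐ[ℂ] (StrongDual ℂ E →L[ℂ] StrongDual ℂ E) where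
  toFun G := dualOp (Θ G)
  map_one' := by
    ext e x
    simp
  map_mul' G H := by
    ext e x
    rw [mul_comm, map_mul]
    rfl
  map_zero' := by
    ext e x
    simp
  map_add' G H := by
    ext e x
    simp
  commutes' c := by
    ext e x
    simp [Algebra.algebraMap_eq_smul_one]

omit [CompactSpace X] in
@[simp] theorem dualCalc_apply (Θ : C(X, ℂ) →ₐ[ℂ] (E →L[ℂ] E)) (G : C(X, ℂ))
    (e : StrongDual ℂ E) (x : E) : dualCalc Θ G e x = e (Θ G x) := rfl

omit [CompactSpace X] in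
theorem continuous_dualCalc {Θ : C(X, ℂ) →ₐ[ℂ] (E →L[ℂ] E)} (hΘ : Continuous Θ) :
    Continuous (dualCalc Θ) :=
  (ContinuousLinearMap.compL ℂ E E ℂ).flip.continuous.comp hΘ

omit [CompactSpace X] in
theorem dualOp_eq (Θ : C(X, ℂ) →ₐ[ℂ] (E →L[ℂ] E)) (a : C(X, ℂ)) (u : E) (v : StrongDual ℂ E) :
    dualOp (Θ a + v.smulRight u) =
      dualCalc Θ a + (NormedSpace.inclusionInDoubleDual ℂ E u).smulRight v := by
  ext e x
  simp [NormedSpace.dual_def, mul_comm]

/-- Nonzero vectors with local spectrum in arbitrarily small discs around `t`. -/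
def GoodAt (T : E →L[ℂ] E) (t : ℂ) : Prop :=
  ∀ r : ℝ, 0 < r → ∃ y, y ≠ 0 ∧ Loc T (closedBall t r) y

theorem hyper_of_good {T : E →L[ℂ] E} {s t : ℂ} (hst : s ≠ t) (h1 : GoodAt T s)
    (h2 : GoodAt (dualOp T) t) : Hyper T := by
  have hd : 0 < dist s t := dist_pos.2 hst
  obtain ⟨y, hy0, hy⟩ := h1 (dist s t / 3) (by positivity)
  obtain ⟨e, he0, he⟩ := h2 (dist s t / 3) (by positivity)
  exact hyper_of_loc (isCompact_closedBall _ _) isClosed_closedBall
    (closedBall_disjoint_closedBall (by linarith)) hy hy0 he he0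

theorem exists_acc {K : Set ℂ} (hK : IsCompact K) (h : ¬ K.Finite) : ∃ t, AccPt t (𝓟 K) :=
  let ⟨t, _, ht⟩ := Set.Infinite.exists_accPt_of_subset_isCompact h hK subset_rfl
  ⟨t, ht⟩

theorem exists_gap {K : Set ℂ} (hK : IsClosed K) {s : ℂ} (hs : s ∉ K) :
    ∃ δ > 0, ∀ z ∈ K, z ∉ ball s δ := by
  obtain ⟨δ, hδ, h⟩ := Metric.mem_nhds_iff.1 (hK.isOpen_compl.mem_nhds hs)
  exact ⟨δ, hδ, fun z hz hz' => h hz' hz⟩

theorem main_aux [T2Space X] [CompleteSpace E] (hE : Refl E) (Θ : C(X, ℂ) →ₐ[ℂ] (E →L[ℂ] E))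
    (hΘ : Continuous Θ) (a : C(X, ℂ)) (u : E) (v : StrongDual ℂ E)
    (huv : (u = 0 ∧ v = 0) ∨ (u ≠ 0 ∧ v ≠ 0)) (hs : ∀ c : ℂ, Θ a + v.smulRight u ≠ c • 1) :
    Hyper (Θ a + v.smulRight u) := by
  by_contra hno
  have hinj : ∀ (w : ℂ) (x : E), (Θ a + v.smulRight u) x = w • x → x = 0 := fun w x hx => by
    by_contra h0
    exact hno (hyper_of_eigen hs h0 hx)
  have hinj' : ∀ (w : ℂ) (e : StrongDual ℂ E), (dualCalc Θ a +
      (NormedSpace.inclusionInDoubleDual ℂ E u).smulRight v) e = w • e → e = 0 := fun w e he => by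
    by_contra h0
    rw [← dualOp_eq] at he
    exact hno (hyper_of_dual_eigen hs h0 he)
  have hΘ' := continuous_dualCalc hΘ
  obtain ⟨K, hK, hK'⟩ := exists_supp Θ hΘ a univ
  obtain ⟨Ku, hKu, hKu'⟩ := exists_supp Θ hΘ a {u}
  obtain ⟨Kv, hKv, hKv'⟩ := exists_supp (dualCalc Θ) hΘ' a {v}
  simp only [mem_univ, true_imp_iff, mem_singleton_iff, forall_eq] at hK' hKu' hKv'
  have G1 : ∀ t, AccPt t (𝓟 Ku) → GoodAt (Θ a + v.smulRight u) t := fun t ht r hr =>
    key hE Θ hΘ a u v hr (fun g hg => (hKu' g).1 hg) ht (hinj _)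
  have G1' : ∀ t, AccPt t (𝓟 Kv) → GoodAt (dualOp (Θ a + v.smulRight u)) t := fun t ht r hr => by
    rw [dualOp_eq]
    exact key hE.dual (dualCalc Θ) hΘ' a v _ hr (fun g hg => (hKv' g).1 hg) ht (hinj' _)
  have G2 : ∀ t ∈ K, t ∉ Kv → GoodAt (Θ a + v.smulRight u) t := fun t ht ht' r hr => by
    obtain ⟨δ, hδ, h⟩ := exists_gap hKv.isClosed ht'
    refine good_of_gap Θ hΘ a u v hr hδ (fun g hg => (hK' g).1 hg t ht) fun g hg x => ?_
    have := (hKv' g).2 fun z hz => hg z (h z hz)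
    exact congrArg (fun e : StrongDual ℂ E => e x) this
  have G2' : ∀ t ∈ K, t ∉ Ku → GoodAt (dualOp (Θ a + v.smulRight u)) t := fun t ht ht' r hr => by
    obtain ⟨δ, hδ, h⟩ := exists_gap hKu.isClosed ht'
    rw [dualOp_eq]
    refine good_of_gap (dualCalc Θ) hΘ' a v _ hr hδ (fun g hg => (hK' g).1 (fun x => ?_) t ht)
      fun g hg e => ?_
    · refine SeparatingDual.eq_zero_of_forall_dual_eq_zero (R := ℂ) fun e => ?_
      exact congrArg (fun e : StrongDual ℂ E => e x) (hg e)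
    · have := (hKu' g).2 fun z hz => hg z (h z hz)
      simp [NormedSpace.dual_def, this]
  have H : ∀ l : ℂ, ∃ t, AccPt t (𝓟 K) ∧ t ≠ l := fun l => by
    by_contra hcon
    push Not at hcon
    exact hno (hyper_of_acc Θ a u v (fun g hg => (hK' g).2 hg) hinj hΘ hK hcon hs)
  rcases huv with ⟨rfl, rfl⟩ | ⟨hu, hv⟩
  · have e1 : ∀ t, t ∉ Ku := fun t ht => by simpa using (hKu' 1).1 (map_zero _) t ht
    have e2 : ∀ t, t ∉ Kv := fun t ht => by simpa using (hKv' 1).1 (map_zero _) t ht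
    obtain ⟨s, hs', -⟩ := H 0
    obtain ⟨t, ht, hts⟩ := H s
    have hmem : ∀ t, AccPt t (𝓟 K) → t ∈ K := fun t ht =>
      hK.isClosed.closure_subset (mem_closure_iff_clusterPt.2 ht.clusterPt)
    exact hno (hyper_of_good hts (G2 t (hmem t ht) (e2 t)) (G2' s (hmem s hs') (e1 s)))
  · obtain ⟨s, hs'⟩ := exists_acc hKu fun hfin =>
      hu (eq_zero_of_finite Θ a u v hfin (fun g hg => (hKu' g).2 hg) hinj)
    obtain ⟨l, hl⟩ := exists_acc hKv fun hfin =>
      hv (eq_zero_of_finite (dualCalc Θ) a v _ hfin (fun g hg => (hKv' g).2 hg) hinj')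
    by_cases hsl : s = l
    · subst hsl
      obtain ⟨t, ht, hts⟩ := H s
      by_cases htu : AccPt t (𝓟 Ku)
      · exact hno (hyper_of_good hts (G1 t htu) (G1' s hl))
      · rw [accPt_iff_nhds] at htu ht
        push Not at htu
        obtain ⟨U, hU, hU'⟩ := htu
        obtain ⟨z, ⟨⟨hzU, hzs⟩, hzK⟩, hzt⟩ := ht (U ∩ {s}ᶜ)
          (inter_mem hU (isOpen_compl_singleton.mem_nhds hts))
        exact hno (hyper_of_good (Ne.symm hzs) (G1 s hs')
          (G2' z hzK fun h => hzt (hU' z ⟨hzU, h⟩)))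
    · exact hno (hyper_of_good hsl (G1 s hs') (G1' l hl))

/-- Rank-one perturbations of scalar-type operators on reflexive spaces. -/
theorem main_hyper [T2Space X] [CompleteSpace E] (hE : Refl E) (Θ : C(X, ℂ) →ₐ[ℂ] (E →L[ℂ] E))
    (hΘ : Continuous Θ) (a : C(X, ℂ)) (u : E) (v : StrongDual ℂ E)
    (hs : ∀ c : ℂ, Θ a + v.smulRight u ≠ c • 1) : Hyper (Θ a + v.smulRight u) := by
  by_cases h : u ≠ 0 ∧ v ≠ 0
  · exact main_aux hE Θ hΘ a u v (Or.inr h) hs
  · have : v.smulRight u = (0 : StrongDual ℂ E).smulRight (0 : E) := by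
      ext x
      rcases not_and_or.1 h with h | h <;> simp [not_not.1 h]
    rw [this] at hs ⊢
    exact main_aux hE Θ hΘ a 0 0 (Or.inl ⟨rfl, rfl⟩) hs

theorem invariant_of_hyper {T : E →L[ℂ] E} (hE : 1 < Module.rank ℂ E)
    (h : (∀ c : ℂ, T ≠ c • 1) → Hyper T) :
    ∃ M : Submodule ℂ E, IsClosed (M : Set E) ∧ M ≠ ⊥ ∧ M ≠ ⊤ ∧ ∀ x ∈ M, T x ∈ M := by
  by_cases hs : ∀ c : ℂ, T ≠ c • 1
  · obtain ⟨M, h1, h2, h3, h4⟩ := h hs
    exact ⟨M, h1, h2, h3, h4 T rfl⟩
  · push Not at hs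
    obtain ⟨c, rfl⟩ := hs
    have : Nontrivial E := rank_pos_iff_nontrivial.mp (lt_trans zero_lt_one hE)
    obtain ⟨x, hx⟩ := exists_ne (0 : E)
    exact Lom.exists_invariant_of_eigenvector _ hE hx (μ := c) rfl

section Hilbert

variable {H : Type*} [NormedAddCommGroup H] [InnerProductSpace ℂ H] [CompleteSpace H]

theorem refl_hilbert : Refl H := by
  intro Ψ
  let L : H →L[ℂ] ℂ := LinearMap.mkContinuous
    { toFun := fun x => (starRingEnd ℂ) (Ψ (InnerProductSpace.toDual ℂ H x))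
      map_add' := fun x y => by simp
      map_smul' := fun c x => by simp [map_smulₛₗ] } ‖Ψ‖ fun x => by
        simpa using Ψ.le_opNorm (InnerProductSpace.toDual ℂ H x)
  obtain ⟨y, hy⟩ := (InnerProductSpace.toDual ℂ H).surjective L
  refine ⟨y, ?_⟩
  ext e
  obtain ⟨x, rfl⟩ := (InnerProductSpace.toDual ℂ H).surjective e
  have h1 : inner ℂ y x = (starRingEnd ℂ) (Ψ (InnerProductSpace.toDual ℂ H x)) :=
    congrArg (fun L : StrongDual ℂ H => L x) hy
  rw [NormedSpace.dual_def, InnerProductSpace.toDual_apply_apply, ← inner_conj_symm, h1]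
  simp

/-- Rank-one perturbations of normal operators. -/
theorem normal_hyper (N : H →L[ℂ] H) (hN : IsStarNormal N) (u : H) (v : StrongDual ℂ H)
    (hs : ∀ c : ℂ, N + v.smulRight u ≠ c • 1) : Hyper (N + v.smulRight u) := by
  have h := main_hyper (X := spectrum ℂ N) refl_hilbert (cfcHom (R := ℂ) hN).toAlgHom
    (cfcHom_continuous hN) ((ContinuousMap.id ℂ).restrict (spectrum ℂ N)) u v
  have h1 : (cfcHom (R := ℂ) hN).toAlgHom ((ContinuousMap.id ℂ).restrict (spectrum ℂ N)) = N :=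
    cfcHom_id hN
  rw [h1] at h
  exact h hs

end Hilbert

end Pool.Agent.P.MP_f981b0_an.R1
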