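import Mathlib

set_option autoImplicit false

noncomputable section

namespace Pool.Agent.P.MP_f981b0_an.R1

open Metric Set Filter Topology

variable {E : Type*} [NormedAddCommGroup E] [NormedSpace ℂ E]

/-- A uniform three point estimate for difference quotients at `w`. -/
def Three (G : ℂ → E) (w : ℂ) (δ L : ℝ) : Prop :=
  ∀ a ∈ ball w δ, ∀ b ∈ ball w δ, a ≠ w → b ≠ w →
    ‖slope G w a - slope G w b‖ ≤ L * ‖a - b‖

theorem three_of_diff [CompleteSpace E] {G : ℂ → E} {w : ℂ} {δ B : ℝ} (hδ : 0 < δ)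
    (hd : DifferentiableOn ℂ G (ball w (2 * δ))) (hB : ∀ z ∈ ball w (2 * δ), ‖G z‖ ≤ B) :
    Three G w (δ / 2) (2 * B / δ ^ 2) := by
  have hw : w ∈ ball w (2 * δ) := mem_ball_self (by positivity)
  have h1 : ∀ z ∈ ball w (2 * δ), ‖dslope G w z‖ ≤ B / δ := by
    intro z hz
    have hm : MapsTo G (ball w (2 * δ)) (closedBall (G w) (2 * B)) := by
      intro y hy
      rw [mem_closedBall, dist_eq_norm]
      have := norm_sub_le (G y) (G w)
      linarith [hB y hy, hB w hw]
    have := Complex.norm_dslope_le_div_of_mapsTo_ball hd hm hz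
    refine this.trans_eq ?_
    field_simp
  have h2 : DifferentiableOn ℂ (dslope G w) (ball w (2 * δ)) :=
    (Complex.differentiableOn_dslope (ball_mem_nhds w (by positivity))).2 hd
  intro a ha b hb haw hbw
  have hsub : ball b δ ⊆ ball w (2 * δ) := by
    intro z hz
    rw [mem_ball] at *
    linarith [dist_triangle z b w]
  have hm : MapsTo (dslope G w) (ball b δ) (closedBall (dslope G w b) (2 * (B / δ))) := by
    intro y hy
    rw [mem_closedBall, dist_eq_norm]
    have := norm_sub_le (dslope G w y) (dslope G w b)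
    linarith [h1 y (hsub hy), h1 b (hsub (mem_ball_self hδ))]
  have hab : a ∈ ball b δ := by
    rw [mem_ball] at *
    have := dist_triangle_right a b w
    linarith
  have := Complex.dist_le_div_mul_dist_of_mapsTo_ball (h2.mono hsub) hm hab
  rw [dist_eq_norm, dist_eq_norm, dslope_of_ne _ haw, dslope_of_ne _ hbw] at this
  refine this.trans_eq ?_
  field_simp

theorem diff_of_three [CompleteSpace E] {G : ℂ → E} {w : ℂ} {δ L : ℝ} (hδ : 0 < δ)
    (h : Three G w δ L) : DifferentiableAt ℂ G w := by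
  have hc : Cauchy (map (slope G w) (𝓝[≠] w)) := by
    rw [Metric.cauchy_iff]
    refine ⟨inferInstance, fun ε hε => ?_⟩
    set η : ℝ := min δ (ε / (2 * (|L| + 1))) with hη
    have hη0 : 0 < η := lt_min hδ (by positivity)
    refine ⟨slope G w '' (ball w η ∩ {w}ᶜ), image_mem_map ?_, ?_⟩
    · exact inter_mem (mem_nhdsWithin_of_mem_nhds (ball_mem_nhds w hη0)) self_mem_nhdsWithin
    · rintro _ ⟨a, ⟨ha, haw⟩, rfl⟩ _ ⟨b, ⟨hb, hbw⟩, rfl⟩
      have h1 := h a (ball_subset_ball (min_le_left _ _) ha) b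
        (ball_subset_ball (min_le_left _ _) hb) haw hbw
      rw [dist_eq_norm]
      have h2 : ‖a - b‖ < 2 * η := by
        rw [← dist_eq_norm]
        rw [mem_ball] at ha hb
        linarith [dist_triangle_right a b w]
      have h3 : η ≤ ε / (2 * (|L| + 1)) := min_le_right _ _
      have h4 : 2 * η * (|L| + 1) ≤ ε := by
        rw [le_div_iff₀ (by positivity)] at h3
        linarith
      have h5 : L * ‖a - b‖ ≤ |L| * ‖a - b‖ :=
        mul_le_mul_of_nonneg_right (le_abs_self L) (norm_nonneg _)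
      have h6 : |L| * ‖a - b‖ ≤ |L| * (2 * η) :=
        mul_le_mul_of_nonneg_left h2.le (abs_nonneg L)
      nlinarith [abs_nonneg L]
  obtain ⟨d, hd⟩ := CompleteSpace.complete hc
  exact (hasDerivAt_iff_tendsto_slope.2 hd).differentiableAt

/-- The difference quotient of a bounded function that is analytic near `w` is bounded. -/
theorem norm_dslope_le {f : ℂ → ℂ} {w : ℂ} {δ C : ℝ} (hδ : 0 < δ)
    (hd : DifferentiableOn ℂ f (ball w δ)) (hC : ∀ z, ‖f z‖ ≤ C) (z : ℂ) :
    ‖dslope f w z‖ ≤ 2 * C / δ := by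
  have hm : ∀ y, ‖f y - f w‖ ≤ 2 * C := fun y => by
    have := norm_sub_le (f y) (f w)
    linarith [hC y, hC w]
  by_cases hz : z ∈ ball w δ
  · refine Complex.norm_dslope_le_div_of_mapsTo_ball hd (fun y _ => ?_) hz
    rw [mem_closedBall, dist_eq_norm]
    exact hm y
  · have hzw : δ ≤ ‖z - w‖ := by
      rw [mem_ball, dist_eq_norm] at hz
      exact not_lt.1 hz
    have hne : z ≠ w := by
      rintro rfl
      simp at hzw
      linarith
    rw [dslope_of_ne _ hne, slope_def_module, norm_smul, norm_inv, ← div_eq_inv_mul]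
    have hC0 : 0 ≤ C := (norm_nonneg _).trans (hC w)
    exact div_le_div₀ (by positivity) (hm z) hδ hzw

theorem dslope_comm (f : ℂ → ℂ) (z w : ℂ) : dslope f z w = dslope f w z := by
  rcases eq_or_ne z w with rfl | h
  · rfl
  · rw [dslope_of_ne _ h, dslope_of_ne _ h.symm, slope_comm]

theorem continuous_dslope {f : ℂ → ℂ} {w : ℂ} (hf : Continuous f) (hd : DifferentiableAt ℂ f w) :
    Continuous (dslope f w) := by
  rw [continuous_iff_continuousAt]
  intro z
  rcases eq_or_ne z w with rfl | h
  · exact continuousAt_dslope_same.2 hd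
  · exact (continuousAt_dslope_of_ne h).2 hf.continuousAt

theorem differentiableOn_dslope_open {f : ℂ → ℂ} {U : Set ℂ} (hU : IsOpen U)
    (hd : DifferentiableOn ℂ f U) (z : ℂ) : DifferentiableOn ℂ (dslope f z) U := by
  by_cases hz : z ∈ U
  · exact (Complex.differentiableOn_dslope (hU.mem_nhds hz)).2 hd
  · exact (differentiableOn_dslope_of_notMem hz).2 hd

end Pool.Agent.P.MP_f981b0_an.R1
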